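import Mathlib

set_option autoImplicit false

/-! Sweeping a balanced net by parallel lines: abstract systems of strands. -/

namespace Pool.Agent.H888R2.GN

open Finset
open scoped Classical

/-- A system of strands (edges of a net, oriented in the direction of a sweep). `x` is the time of
a vertex, `y` its height; the strand `e` moves on the line `b e + (q e / p e) t`; `(p, q, r)` is a
unit vector which is conserved at the balanced vertices. -/
structure Sys (V E : Type) [Fintype V] [Fintype E] where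
  x : V → ℝ
  y : V → ℝ
  src : E → V
  dst : E → V
  hx : ∀ e, x (src e) < x (dst e)
  B : Finset V
  p : E → ℝ
  q : E → ℝ
  r : E → ℝ
  b : E → ℝ
  hp : ∀ e, 0 < p e
  hN : ∀ e, p e ^ 2 + q e ^ 2 + r e ^ 2 = 1
  hs : ∀ e, b e + q e / p e * x (src e) = y (src e)
  hd : ∀ e, b e + q e / p e * x (dst e) = y (dst e)
  balp : ∀ v ∈ B, ∑ e with src e = v, p e = ∑ e with dst e = v, p e
  balq : ∀ v ∈ B, ∑ e with src e = v, q e = ∑ e with dst e = v, q e
  balr : ∀ v ∈ B, ∑ e with src e = v, r e = ∑ e with dst e = v, r e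
  dis : ∀ v ∈ B, ∀ e f, e ≠ f → (src e = v ∧ src f = v) ∨ (dst e = v ∧ dst f = v) →
    p e * q f - q e * p f ≠ 0
  deg : ∀ v ∈ B, 3 ≤ (univ.filter fun e => src e = v).card + (univ.filter fun e => dst e = v).card

variable {V E : Type} [Fintype V] [Fintype E]

namespace Sys

variable (S : Sys V E)

def om (e f : E) : ℝ := S.p e * S.q f - S.q e * S.p f

noncomputable def Y (e : E) (t : ℝ) : ℝ := S.b e + S.q e / S.p e * t

/-- strands which are active just after time `t` -/
noncomputable def Ap (t : ℝ) : Finset E :=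
  univ.filter fun e => (S.src e ∈ S.B → S.x (S.src e) ≤ t) ∧ (S.dst e ∈ S.B → t < S.x (S.dst e))

/-- strands which are active just before time `t` -/
noncomputable def Am (t : ℝ) : Finset E :=
  univ.filter fun e => (S.src e ∈ S.B → S.x (S.src e) < t) ∧ (S.dst e ∈ S.B → t ≤ S.x (S.dst e))

noncomputable def T (t : ℝ) : Finset E :=
  univ.filter fun e => (S.src e ∈ S.B → S.x (S.src e) < t) ∧ (S.dst e ∈ S.B → t < S.x (S.dst e))

/-- time at which the lines of two strands cross -/
noncomputable def tc (e f : E) : ℝ := (S.b e - S.b f) / (S.q f / S.p f - S.q e / S.p e)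

noncomputable def crit : Finset ℝ :=
  (univ.image S.x) ∪ ((univ ×ˢ univ).image fun ef : E × E => S.tc ef.1 ef.2)

def inc (e : E) (v : V) : Prop := S.src e = v ∨ S.dst e = v

/-- the interaction at a vertex -/
noncomputable def S0 (v : V) : ℝ :=
  (∑ e with S.src e = v, ∑ f with S.src f = v, |S.om e f|) / 2 +
  (∑ e with S.dst e = v, ∑ f with S.dst f = v, |S.om e f|) / 2

def Closed (G : Finset E) (α β : ℝ) : Prop :=
  ∀ v ∈ S.B, α < S.x v → S.x v < β → ∀ e f, S.inc e v → S.inc f v → e ∈ G → f ∈ G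

theorem Closed.mono {G : Finset E} {α β α' β' : ℝ} (h : S.Closed G α β) (h1 : α ≤ α') (h2 : β' ≤ β) :
    S.Closed G α' β' := fun v hv a b => h v hv (lt_of_le_of_lt h1 a) (lt_of_lt_of_le b h2)

theorem om_comm (e f : E) : S.om f e = - S.om e f := by unfold om; ring

theorem om_self (e : E) : S.om e e = 0 := by unfold om; ring

theorem tc_comm (e f : E) : S.tc e f = S.tc f e := by
  unfold tc
  rw [← neg_div_neg_eq]
  congr 1 <;> ring

theorem S0_nonneg (v : V) : 0 ≤ S.S0 v := by
  unfold S0
  have h1 : 0 ≤ ∑ e with S.src e = v, ∑ f with S.src f = v, |S.om e f| :=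
    sum_nonneg fun e _ => sum_nonneg fun f _ => abs_nonneg _
  have h2 : 0 ≤ ∑ e with S.dst e = v, ∑ f with S.dst f = v, |S.om e f| :=
    sum_nonneg fun e _ => sum_nonneg fun f _ => abs_nonneg _
  linarith

/-- sweep induction -/
theorem sweep_ind (Pp Pm : ℝ → Prop) (α β : ℝ) (h0 : Pp α)
    (h1 : ∀ t t', α ≤ t → t < t' → t' ≤ β → (∀ c ∈ S.crit, t < c → c < t' → False) → Pp t → Pm t')
    (h2 : ∀ t, α < t → t < β → Pm t → Pp t) :
    (∀ t, α ≤ t → t < β → Pp t) ∧ (∀ t, α < t → t ≤ β → Pm t) := by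
  have key : ∀ n : ℕ, ∀ t, α < t → t ≤ β → (S.crit.filter fun c => α < c ∧ c < t).card = n → Pm t := by
    intro n
    induction n using Nat.strong_induction_on with
    | _ n ih =>
      intro t ht1 ht2 hn
      rcases (S.crit.filter fun c => α < c ∧ c < t).eq_empty_or_nonempty with hE | hE
      · refine h1 α t le_rfl ht1 ht2 ?_ h0
        intro c hc h3 h4
        have : c ∈ (S.crit.filter fun c => α < c ∧ c < t) := mem_filter.2 ⟨hc, h3, h4⟩
        rw [hE] at this
        exact absurd this (notMem_empty c)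
      · obtain ⟨c, hc, hmax⟩ := exists_max_image _ id hE
        obtain ⟨hc1, hc2, hc3⟩ := mem_filter.1 hc
        have hlt : (S.crit.filter fun c' => α < c' ∧ c' < c).card < n := by
          rw [← hn]
          apply card_lt_card
          refine ⟨?_, ?_⟩
          · intro c' hc'
            obtain ⟨a1, a2, a3⟩ := mem_filter.1 hc'
            exact mem_filter.2 ⟨a1, a2, a3.trans hc3⟩
          · intro hsub
            have := hsub hc
            exact absurd (mem_filter.1 this).2.2 (lt_irrefl c)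
        have hPm := ih _ hlt c hc2 (hc3.le.trans ht2) rfl
        have hPp := h2 c hc2 (lt_of_lt_of_le hc3 ht2) hPm
        refine h1 c t hc2.le hc3 ht2 ?_ hPp
        intro c' hc' h3 h4
        have := hmax c' (mem_filter.2 ⟨hc', hc2.trans h3, h4⟩)
        simp only [id] at this
        linarith
  have hPm : ∀ t, α < t → t ≤ β → Pm t := fun t h3 h4 => key _ t h3 h4 rfl
  refine ⟨?_, hPm⟩
  intro t h3 h4
  rcases eq_or_lt_of_le h3 with h5 | h5
  · rw [← h5]; exact h0
  · exact h2 t h5 h4 (hPm t h5 h4.le)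

theorem crit_x (v : V) : S.x v ∈ S.crit := mem_union_left _ (mem_image_of_mem _ (mem_univ v))

theorem crit_tc (e f : E) : S.tc e f ∈ S.crit := by
  apply mem_union_right
  exact mem_image.2 ⟨(e, f), by simp, rfl⟩

theorem Ap_eq_Am {t t' : ℝ} (h : t < t') (hc : ∀ c ∈ S.crit, t < c → c < t' → False) :
    S.Ap t = S.Am t' := by
  unfold Ap Am
  apply filter_congr
  intro e _
  have h1 := fun h1 h2 => hc _ (S.crit_x (S.src e)) h1 h2
  have h2 := fun h1 h2 => hc _ (S.crit_x (S.dst e)) h1 h2
  constructor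
  · rintro ⟨a, c⟩
    refine ⟨fun hb => lt_of_le_of_lt (a hb) h, fun hb => ?_⟩
    by_contra hlt
    exact h2 (c hb) (not_le.1 hlt)
  · rintro ⟨a, c⟩
    refine ⟨fun hb => ?_, fun hb => lt_of_lt_of_le h (c hb)⟩
    by_contra hlt
    exact h1 (not_le.1 hlt) (a hb)

theorem Ap_eq (t : ℝ) : S.Ap t = S.T t ∪ univ.filter fun e => S.src e ∈ S.B ∧ S.x (S.src e) = t := by
  unfold Ap T
  ext e
  simp only [mem_filter, mem_univ, true_and, mem_union]
  constructor
  · rintro ⟨a, c⟩
    by_cases hb : S.src e ∈ S.B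
    · rcases eq_or_lt_of_le (a hb) with h | h
      · exact Or.inr ⟨hb, h⟩
      · exact Or.inl ⟨fun _ => h, c⟩
    · exact Or.inl ⟨fun h => absurd h hb, c⟩
  · rintro (⟨a, c⟩ | ⟨a, c⟩)
    · exact ⟨fun hb => (a hb).le, c⟩
    · exact ⟨fun _ => c.le, fun _ => by rw [← c]; exact S.hx e⟩

theorem Am_eq (t : ℝ) : S.Am t = S.T t ∪ univ.filter fun e => S.dst e ∈ S.B ∧ S.x (S.dst e) = t := by
  unfold Am T
  ext e
  simp only [mem_filter, mem_univ, true_and, mem_union]
  constructor
  · rintro ⟨a, c⟩
    by_cases hb : S.dst e ∈ S.B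
    · rcases eq_or_lt_of_le (c hb) with h | h
      · exact Or.inr ⟨hb, h.symm⟩
      · exact Or.inl ⟨a, fun _ => h⟩
    · exact Or.inl ⟨a, fun h => absurd h hb⟩
  · rintro (⟨a, c⟩ | ⟨a, c⟩)
    · exact ⟨a, fun hb => (c hb).le⟩
    · exact ⟨fun _ => by rw [← c]; exact S.hx e, fun _ => c.symm.le⟩

/-- balance of any weighted sum over levels -/
theorem bal_level' (w : E → ℝ) {G : Finset E} {α β t : ℝ}
    (hw : ∀ v ∈ S.B, S.x v = t → (∀ f, S.inc f v → f ∈ G) →
      ∑ e with S.src e = v, w e = ∑ e with S.dst e = v, w e)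
    (hG : S.Closed G α β) (ht1 : α < t) (ht2 : t < β) (h : ℝ → ℝ) :
    ∑ e ∈ S.Ap t ∩ G, h (S.Y e t) * w e = ∑ e ∈ S.Am t ∩ G, h (S.Y e t) * w e := by
  have hR : ∑ e ∈ (univ.filter fun e => S.src e ∈ S.B ∧ S.x (S.src e) = t) ∩ G, h (S.Y e t) * w e =
      ∑ v ∈ S.B.filter (fun v => S.x v = t), h (S.y v) * ∑ e ∈ G.filter (fun e => S.src e = v), w e := by
    rw [← sum_fiberwise_of_maps_to (s := (univ.filter fun e => S.src e ∈ S.B ∧ S.x (S.src e) = t) ∩ G)
      (t := S.B.filter (fun v => S.x v = t)) (g := S.src) (f := fun e => h (S.Y e t) * w e)]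
    · apply sum_congr rfl
      intro v hv
      obtain ⟨hvB, hvt⟩ := mem_filter.1 hv
      rw [mul_sum]
      apply sum_congr
      · ext e
        simp only [mem_filter, mem_inter, mem_univ, true_and]
        constructor
        · rintro ⟨⟨_, a⟩, c⟩
          exact ⟨a, c⟩
        · rintro ⟨a, c⟩
          exact ⟨⟨⟨by rw [c]; exact hvB, by rw [c]; exact hvt⟩, a⟩, c⟩
      · intro e he
        have hev : S.src e = v := (mem_filter.1 he).2
        congr 2
        unfold Y
        rw [← hvt, ← hev]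
        exact S.hs e
    · intro e he
      simp only [mem_filter, mem_inter, mem_univ, true_and] at he
      exact mem_filter.2 ⟨he.1.1, he.1.2⟩
  have hL : ∑ e ∈ (univ.filter fun e => S.dst e ∈ S.B ∧ S.x (S.dst e) = t) ∩ G, h (S.Y e t) * w e =
      ∑ v ∈ S.B.filter (fun v => S.x v = t), h (S.y v) * ∑ e ∈ G.filter (fun e => S.dst e = v), w e := by
    rw [← sum_fiberwise_of_maps_to (s := (univ.filter fun e => S.dst e ∈ S.B ∧ S.x (S.dst e) = t) ∩ G)
      (t := S.B.filter (fun v => S.x v = t)) (g := S.dst) (f := fun e => h (S.Y e t) * w e)]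
    · apply sum_congr rfl
      intro v hv
      obtain ⟨hvB, hvt⟩ := mem_filter.1 hv
      rw [mul_sum]
      apply sum_congr
      · ext e
        simp only [mem_filter, mem_inter, mem_univ, true_and]
        constructor
        · rintro ⟨⟨_, a⟩, c⟩
          exact ⟨a, c⟩
        · rintro ⟨a, c⟩
          exact ⟨⟨⟨by rw [c]; exact hvB, by rw [c]; exact hvt⟩, a⟩, c⟩
      · intro e he
        have hev : S.dst e = v := (mem_filter.1 he).2
        congr 2
        unfold Y
        rw [← hvt, ← hev]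
        exact S.hd e
    · intro e he
      simp only [mem_filter, mem_inter, mem_univ, true_and] at he
      exact mem_filter.2 ⟨he.1.1, he.1.2⟩
  have hRL : ∀ v ∈ S.B.filter (fun v => S.x v = t),
      ∑ e ∈ G.filter (fun e => S.src e = v), w e = ∑ e ∈ G.filter (fun e => S.dst e = v), w e := by
    intro v hv
    obtain ⟨hvB, hvt⟩ := mem_filter.1 hv
    by_cases hex : ∃ e, S.inc e v ∧ e ∈ G
    · obtain ⟨e0, he0, he0G⟩ := hex
      have hall : ∀ f, S.inc f v → f ∈ G := fun f hf =>
        hG v hvB (by rw [hvt]; exact ht1) (by rw [hvt]; exact ht2) e0 f he0 hf he0G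
      have e1 : G.filter (fun e => S.src e = v) = univ.filter (fun e => S.src e = v) := by
        ext e
        simp only [mem_filter, mem_univ, true_and]
        exact ⟨fun h => h.2, fun h => ⟨hall e (Or.inl h), h⟩⟩
      have e2 : G.filter (fun e => S.dst e = v) = univ.filter (fun e => S.dst e = v) := by
        ext e
        simp only [mem_filter, mem_univ, true_and]
        exact ⟨fun h => h.2, fun h => ⟨hall e (Or.inr h), h⟩⟩
      rw [e1, e2, hw v hvB hvt hall]
    · push Not at hex
      have e1 : G.filter (fun e => S.src e = v) = ∅ := by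
        ext e
        simp only [mem_filter, notMem_empty, iff_false, not_and]
        intro he h
        exact hex e (Or.inl h) he
      have e2 : G.filter (fun e => S.dst e = v) = ∅ := by
        ext e
        simp only [mem_filter, notMem_empty, iff_false, not_and]
        intro he h
        exact hex e (Or.inr h) he
      rw [e1, e2]
  have hdis1 : Disjoint (S.T t ∩ G) ((univ.filter fun e => S.src e ∈ S.B ∧ S.x (S.src e) = t) ∩ G) := by
    rw [disjoint_left]
    intro e he he'
    simp only [T, mem_filter, mem_inter, mem_univ, true_and] at he he'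
    have := he.1.1 he'.1.1
    rw [he'.1.2] at this
    exact lt_irrefl _ this
  have hdis2 : Disjoint (S.T t ∩ G) ((univ.filter fun e => S.dst e ∈ S.B ∧ S.x (S.dst e) = t) ∩ G) := by
    rw [disjoint_left]
    intro e he he'
    simp only [T, mem_filter, mem_inter, mem_univ, true_and] at he he'
    have := he.1.2 he'.1.1
    rw [he'.1.2] at this
    exact lt_irrefl _ this
  rw [Ap_eq, Am_eq, union_inter_distrib_right, union_inter_distrib_right, sum_union hdis1,
    sum_union hdis2, hR, hL]
  congr 1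
  apply sum_congr rfl
  intro v hv
  rw [hRL v hv]

theorem bal_level (w : E → ℝ)
    (hw : ∀ v ∈ S.B, ∑ e with S.src e = v, w e = ∑ e with S.dst e = v, w e)
    {G : Finset E} {α β t : ℝ} (hG : S.Closed G α β) (ht1 : α < t) (ht2 : t < β) (h : ℝ → ℝ) :
    ∑ e ∈ S.Ap t ∩ G, h (S.Y e t) * w e = ∑ e ∈ S.Am t ∩ G, h (S.Y e t) * w e :=
  S.bal_level' w (fun v hv _ _ => hw v hv) hG ht1 ht2 h

end Sys
end Pool.Agent.H888R2.GN
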