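import Mathlib
import Pool.Agent.H888R2.GN1

set_option autoImplicit false

namespace Pool.Agent.H888R2.GN

open Finset
open scoped Classical

variable {V E : Type} [Fintype V] [Fintype E]

namespace Sys

variable (S : Sys V E)

noncomputable def Jp (G : Finset E) (t : ℝ) : ℝ :=
  (∑ e ∈ S.Ap t ∩ G, ∑ f ∈ S.Ap t ∩ G, |S.om e f| * (if S.tc e f ≤ t then 1 else -1)) / 2

noncomputable def Jm (G : Finset E) (t : ℝ) : ℝ :=
  (∑ e ∈ S.Am t ∩ G, ∑ f ∈ S.Am t ∩ G, |S.om e f| * (if S.tc e f < t then 1 else -1)) / 2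

theorem om_eq (e f : E) : S.om e f = S.p e * S.p f * (S.q f / S.p f - S.q e / S.p e) := by
  have h1 := (S.hp e).ne'
  have h2 := (S.hp f).ne'
  unfold om
  field_simp

theorem Y_sub (e f : E) (t : ℝ) :
    S.Y f t - S.Y e t = (S.q f / S.p f - S.q e / S.p e) * t - (S.b e - S.b f) := by
  unfold Y; ring

theorem pair_lt (e f : E) (t : ℝ) (h : S.Y e t < S.Y f t) :
    |S.om e f| * (if S.tc e f ≤ t then 1 else -1) = S.om e f ∧
    |S.om e f| * (if S.tc e f < t then 1 else -1) = S.om e f := by
  have h0 := S.Y_sub e f t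
  set m := S.q f / S.p f - S.q e / S.p e with hm
  have hpp : 0 < S.p e * S.p f := mul_pos (S.hp e) (S.hp f)
  have h1 : S.b e - S.b f < m * t := by linarith
  rcases lt_trichotomy m 0 with hneg | hz | hpos
  · have htc : t < S.tc e f := by
      unfold tc
      rw [← hm, lt_div_iff_of_neg hneg]
      linarith
    rw [if_neg (not_le.2 htc), if_neg (not_lt.2 htc.le)]
    have : S.om e f ≤ 0 := by
      rw [om_eq, ← hm]; nlinarith
    rw [abs_of_nonpos this]
    constructor <;> ring
  · have : S.om e f = 0 := by rw [om_eq, ← hm, hz, mul_zero]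
    rw [this]; simp
  · have htc : S.tc e f < t := by
      unfold tc
      rw [← hm, div_lt_iff₀ hpos]
      linarith
    rw [if_pos htc.le, if_pos htc]
    have : 0 ≤ S.om e f := by
      rw [om_eq, ← hm]; positivity
    rw [abs_of_nonneg this]
    constructor <;> ring

theorem pair_eq (e f : E) (t : ℝ) (h : S.Y e t = S.Y f t) :
    |S.om e f| * (if S.tc e f ≤ t then 1 else -1) = |S.om e f| ∧
    |S.om e f| * (if S.tc e f < t then 1 else -1) = - |S.om e f| := by
  have h0 := S.Y_sub e f t
  set m := S.q f / S.p f - S.q e / S.p e with hm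
  have h1 : S.b e - S.b f = m * t := by linarith
  by_cases hz : m = 0
  · have : S.om e f = 0 := by rw [om_eq, ← hm, hz, mul_zero]
    rw [this]; simp
  · have htc : S.tc e f = t := by
      unfold tc
      rw [← hm, h1, mul_comm, mul_div_assoc, div_self hz, mul_one]
    rw [if_pos htc.le, if_neg (by rw [htc]; exact lt_irrefl _)]
    constructor <;> ring

/-- the part of the interaction which is linear in each level -/
noncomputable def K (A : Finset E) (t : ℝ) : ℝ :=
  ∑ e ∈ A, ∑ f ∈ A, if S.Y e t < S.Y f t then S.om e f else 0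

noncomputable def D (A : Finset E) (t : ℝ) : ℝ :=
  ∑ e ∈ A, ∑ f ∈ A, if S.Y e t = S.Y f t then |S.om e f| else 0

theorem J_aux (A : Finset E) (t : ℝ) :
    (∑ e ∈ A, ∑ f ∈ A, |S.om e f| * (if S.tc e f ≤ t then 1 else -1)) / 2 = S.K A t + S.D A t / 2 ∧
    (∑ e ∈ A, ∑ f ∈ A, |S.om e f| * (if S.tc e f < t then 1 else -1)) / 2 = S.K A t - S.D A t / 2 := by
  have hc : ∑ e ∈ A, ∑ f ∈ A, (if S.Y f t < S.Y e t then S.om f e else 0) = S.K A t := by
    unfold K
    rw [sum_comm]
  have h1 : ∀ e f : E, |S.om e f| * (if S.tc e f ≤ t then 1 else -1) =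
      (if S.Y e t < S.Y f t then S.om e f else 0) + (if S.Y f t < S.Y e t then S.om f e else 0) +
      (if S.Y e t = S.Y f t then |S.om e f| else 0) := by
    intro e f
    rcases lt_trichotomy (S.Y e t) (S.Y f t) with h | h | h
    · rw [(S.pair_lt e f t h).1, if_pos h, if_neg (not_lt.2 h.le), if_neg h.ne]; ring
    · rw [(S.pair_eq e f t h).1, if_neg (by rw [h]; exact lt_irrefl _),
        if_neg (by rw [h]; exact lt_irrefl _), if_pos h]; ring
    · have := (S.pair_lt f e t h).1
      rw [S.tc_comm e f, show |S.om e f| = |S.om f e| by rw [om_comm, abs_neg], this,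
        if_neg (not_lt.2 h.le), if_pos h, if_neg h.ne']; ring
  have h2 : ∀ e f : E, |S.om e f| * (if S.tc e f < t then 1 else -1) =
      (if S.Y e t < S.Y f t then S.om e f else 0) + (if S.Y f t < S.Y e t then S.om f e else 0) -
      (if S.Y e t = S.Y f t then |S.om e f| else 0) := by
    intro e f
    rcases lt_trichotomy (S.Y e t) (S.Y f t) with h | h | h
    · rw [(S.pair_lt e f t h).2, if_pos h, if_neg (not_lt.2 h.le), if_neg h.ne]; ring
    · rw [(S.pair_eq e f t h).2, if_neg (by rw [h]; exact lt_irrefl _),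
        if_neg (by rw [h]; exact lt_irrefl _), if_pos h]; ring
    · have := (S.pair_lt f e t h).2
      rw [S.tc_comm e f, show |S.om e f| = |S.om f e| by rw [om_comm, abs_neg], this,
        if_neg (not_lt.2 h.le), if_pos h, if_neg h.ne']; ring
  constructor
  · simp only [h1, sum_add_distrib, hc]
    unfold K D
    ring
  · simp only [h2, sum_add_distrib, sum_sub_distrib, hc]
    unfold K D
    ring

theorem K_eq {G : Finset E} {α β t : ℝ} (hG : S.Closed G α β) (ht1 : α < t) (ht2 : t < β) :
    S.K (S.Ap t ∩ G) t = S.K (S.Am t ∩ G) t := by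
  have hK : ∀ A : Finset E, S.K A t = ∑ e ∈ A,
      ((∑ f ∈ A, (if S.Y e t < S.Y f t then (1:ℝ) else 0) * S.q f) * S.p e) -
      ∑ e ∈ A, ((∑ f ∈ A, (if S.Y e t < S.Y f t then (1:ℝ) else 0) * S.p f) * S.q e) := by
    intro A
    unfold K
    rw [← sum_sub_distrib]
    apply sum_congr rfl
    intro e _
    rw [sum_mul, sum_mul, ← sum_sub_distrib]
    apply sum_congr rfl
    intro f _
    unfold om
    split_ifs <;> ring
  have hq : ∀ z : ℝ, ∑ f ∈ S.Ap t ∩ G, (if z < S.Y f t then (1:ℝ) else 0) * S.q f =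
      ∑ f ∈ S.Am t ∩ G, (if z < S.Y f t then (1:ℝ) else 0) * S.q f := fun z =>
    S.bal_level S.q S.balq hG ht1 ht2 (fun s => if z < s then (1:ℝ) else 0)
  have hp' : ∀ z : ℝ, ∑ f ∈ S.Ap t ∩ G, (if z < S.Y f t then (1:ℝ) else 0) * S.p f =
      ∑ f ∈ S.Am t ∩ G, (if z < S.Y f t then (1:ℝ) else 0) * S.p f := fun z =>
    S.bal_level S.p S.balp hG ht1 ht2 (fun s => if z < s then (1:ℝ) else 0)
  rw [hK, hK]
  simp only [hq, hp']
  have e1 := S.bal_level S.p S.balp hG ht1 ht2
    (fun z => ∑ f ∈ S.Am t ∩ G, (if z < S.Y f t then (1:ℝ) else 0) * S.q f)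
  have e2 := S.bal_level S.q S.balq hG ht1 ht2
    (fun z => ∑ f ∈ S.Am t ∩ G, (if z < S.Y f t then (1:ℝ) else 0) * S.p f)
  rw [e1, e2]

/-- the balanced vertices of a group -/
noncomputable def VV (G : Finset E) : Finset V := S.B.filter fun v => ∃ e, S.inc e v ∧ e ∈ G

theorem D_ge_src {G : Finset E} {α β t : ℝ} (hG : S.Closed G α β) (ht1 : α < t) (ht2 : t < β) :
    ∑ v ∈ (S.VV G).filter (fun v => S.x v = t), ∑ e with S.src e = v, ∑ f with S.src f = v, |S.om e f| ≤
      S.D (S.Ap t ∩ G) t := by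
  have hall : ∀ v ∈ (S.VV G).filter (fun v => S.x v = t), ∀ f, S.inc f v → f ∈ G := by
    intro v hv f hf
    obtain ⟨hv1, hv2⟩ := mem_filter.1 hv
    obtain ⟨hvB, e, he, heG⟩ := mem_filter.1 hv1
    exact hG v hvB (by rw [hv2]; exact ht1) (by rw [hv2]; exact ht2) e f he hf heG
  have hmem : ∀ v ∈ (S.VV G).filter (fun v => S.x v = t), ∀ f, S.src f = v → f ∈ S.Ap t ∩ G := by
    intro v hv f hf
    have h1 := hall v hv f (Or.inl hf)
    obtain ⟨hv1, hv2⟩ := mem_filter.1 hv
    obtain ⟨hvB, -⟩ := mem_filter.1 hv1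
    rw [mem_inter]
    refine ⟨?_, h1⟩
    rw [Ap_eq, mem_union]
    right
    rw [mem_filter]
    exact ⟨mem_univ _, by rw [hf]; exact hvB, by rw [hf]; exact hv2⟩
  calc ∑ v ∈ (S.VV G).filter (fun v => S.x v = t), ∑ e with S.src e = v, ∑ f with S.src f = v, |S.om e f|
      = ∑ v ∈ (S.VV G).filter (fun v => S.x v = t), ∑ e ∈ (univ.filter fun e => S.src e ∈
        (S.VV G).filter (fun v => S.x v = t)) with S.src e = v, ∑ f with S.src f = S.src e, |S.om e f| := by
        apply sum_congr rfl
        intro v hv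
        apply sum_congr
        · ext e
          simp only [mem_filter, mem_univ, true_and]
          constructor
          · intro h
            refine ⟨?_, h⟩
            rw [h]
            exact mem_filter.1 hv
          · exact fun h => h.2
        · intro e he
          rw [(mem_filter.1 he).2]
    _ = ∑ e ∈ (univ.filter fun e => S.src e ∈ (S.VV G).filter (fun v => S.x v = t)),
          ∑ f with S.src f = S.src e, |S.om e f| := by
        exact sum_fiberwise_of_maps_to (s := (univ.filter fun e => S.src e ∈ (S.VV G).filter (fun v => S.x v = t)))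
          (t := (S.VV G).filter (fun v => S.x v = t)) (g := S.src) (fun e he => (mem_filter.1 he).2)
          (fun e => ∑ f with S.src f = S.src e, |S.om e f|)
    _ ≤ ∑ e ∈ (univ.filter fun e => S.src e ∈ (S.VV G).filter (fun v => S.x v = t)),
          ∑ f ∈ S.Ap t ∩ G, (if S.Y e t = S.Y f t then |S.om e f| else 0) := by
        apply sum_le_sum
        intro e he
        have hv := (mem_filter.1 he).2
        have hvt : S.x (S.src e) = t := (mem_filter.1 hv).2
        have hsub : (univ.filter fun f => S.src f = S.src e) ⊆ S.Ap t ∩ G := by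
          intro f hf
          exact hmem _ hv f (mem_filter.1 hf).2
        calc ∑ f with S.src f = S.src e, |S.om e f|
            = ∑ f with S.src f = S.src e, (if S.Y e t = S.Y f t then |S.om e f| else 0) := by
              apply sum_congr rfl
              intro f hf
              have hfe := (mem_filter.1 hf).2
              rw [if_pos]
              unfold Y
              rw [← hvt, S.hs e, ← hfe, S.hs f]
          _ ≤ _ := sum_le_sum_of_subset_of_nonneg hsub (by
              intro f _ _
              split_ifs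
              · exact abs_nonneg _
              · exact le_rfl)
    _ ≤ _ := by
        unfold D
        apply sum_le_sum_of_subset_of_nonneg
        · intro e he
          exact hmem _ (mem_filter.1 he).2 e rfl
        · intro e _ _
          apply sum_nonneg
          intro f _
          split_ifs
          · exact abs_nonneg _
          · exact le_rfl

theorem D_ge_dst {G : Finset E} {α β t : ℝ} (hG : S.Closed G α β) (ht1 : α < t) (ht2 : t < β) :
    ∑ v ∈ (S.VV G).filter (fun v => S.x v = t), ∑ e with S.dst e = v, ∑ f with S.dst f = v, |S.om e f| ≤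
      S.D (S.Am t ∩ G) t := by
  have hall : ∀ v ∈ (S.VV G).filter (fun v => S.x v = t), ∀ f, S.inc f v → f ∈ G := by
    intro v hv f hf
    obtain ⟨hv1, hv2⟩ := mem_filter.1 hv
    obtain ⟨hvB, e, he, heG⟩ := mem_filter.1 hv1
    exact hG v hvB (by rw [hv2]; exact ht1) (by rw [hv2]; exact ht2) e f he hf heG
  have hmem : ∀ v ∈ (S.VV G).filter (fun v => S.x v = t), ∀ f, S.dst f = v → f ∈ S.Am t ∩ G := by
    intro v hv f hf
    have h1 := hall v hv f (Or.inr hf)
    obtain ⟨hv1, hv2⟩ := mem_filter.1 hv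
    obtain ⟨hvB, -⟩ := mem_filter.1 hv1
    rw [mem_inter]
    refine ⟨?_, h1⟩
    rw [Am_eq, mem_union]
    right
    rw [mem_filter]
    exact ⟨mem_univ _, by rw [hf]; exact hvB, by rw [hf]; exact hv2⟩
  calc ∑ v ∈ (S.VV G).filter (fun v => S.x v = t), ∑ e with S.dst e = v, ∑ f with S.dst f = v, |S.om e f|
      = ∑ v ∈ (S.VV G).filter (fun v => S.x v = t), ∑ e ∈ (univ.filter fun e => S.dst e ∈
        (S.VV G).filter (fun v => S.x v = t)) with S.dst e = v, ∑ f with S.dst f = S.dst e, |S.om e f| := by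
        apply sum_congr rfl
        intro v hv
        apply sum_congr
        · ext e
          simp only [mem_filter, mem_univ, true_and]
          constructor
          · intro h
            refine ⟨?_, h⟩
            rw [h]
            exact mem_filter.1 hv
          · exact fun h => h.2
        · intro e he
          rw [(mem_filter.1 he).2]
    _ = ∑ e ∈ (univ.filter fun e => S.dst e ∈ (S.VV G).filter (fun v => S.x v = t)),
          ∑ f with S.dst f = S.dst e, |S.om e f| := by
        exact sum_fiberwise_of_maps_to (s := (univ.filter fun e => S.dst e ∈ (S.VV G).filter (fun v => S.x v = t)))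
          (t := (S.VV G).filter (fun v => S.x v = t)) (g := S.dst) (fun e he => (mem_filter.1 he).2)
          (fun e => ∑ f with S.dst f = S.dst e, |S.om e f|)
    _ ≤ ∑ e ∈ (univ.filter fun e => S.dst e ∈ (S.VV G).filter (fun v => S.x v = t)),
          ∑ f ∈ S.Am t ∩ G, (if S.Y e t = S.Y f t then |S.om e f| else 0) := by
        apply sum_le_sum
        intro e he
        have hv := (mem_filter.1 he).2
        have hvt : S.x (S.dst e) = t := (mem_filter.1 hv).2
        have hsub : (univ.filter fun f => S.dst f = S.dst e) ⊆ S.Am t ∩ G := by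
          intro f hf
          exact hmem _ hv f (mem_filter.1 hf).2
        calc ∑ f with S.dst f = S.dst e, |S.om e f|
            = ∑ f with S.dst f = S.dst e, (if S.Y e t = S.Y f t then |S.om e f| else 0) := by
              apply sum_congr rfl
              intro f hf
              have hfe := (mem_filter.1 hf).2
              rw [if_pos]
              unfold Y
              rw [← hvt, S.hd e, ← hfe, S.hd f]
          _ ≤ _ := sum_le_sum_of_subset_of_nonneg hsub (by
              intro f _ _
              split_ifs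
              · exact abs_nonneg _
              · exact le_rfl)
    _ ≤ _ := by
        unfold D
        apply sum_le_sum_of_subset_of_nonneg
        · intro e he
          exact hmem _ (mem_filter.1 he).2 e rfl
        · intro e _ _
          apply sum_nonneg
          intro f _
          split_ifs
          · exact abs_nonneg _
          · exact le_rfl

theorem jump {G : Finset E} {α β t : ℝ} (hG : S.Closed G α β) (ht1 : α < t) (ht2 : t < β) :
    S.Jm G t + ∑ v ∈ (S.VV G).filter (fun v => S.x v = t), S.S0 v ≤ S.Jp G t := by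
  have h1 := S.D_ge_src hG ht1 ht2
  have h2 := S.D_ge_dst hG ht1 ht2
  have h3 := S.K_eq hG ht1 ht2
  unfold Jp Jm
  rw [(S.J_aux (S.Ap t ∩ G) t).1, (S.J_aux (S.Am t ∩ G) t).2, h3]
  have h4 : ∑ v ∈ (S.VV G).filter (fun v => S.x v = t), S.S0 v =
      (∑ v ∈ (S.VV G).filter (fun v => S.x v = t), ∑ e with S.src e = v, ∑ f with S.src f = v, |S.om e f|) / 2
      + (∑ v ∈ (S.VV G).filter (fun v => S.x v = t), ∑ e with S.dst e = v, ∑ f with S.dst f = v, |S.om e f|) / 2 := by
    unfold S0
    rw [sum_add_distrib, sum_div, sum_div]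
  rw [h4]
  linarith

theorem Jp_eq_Jm (G : Finset E) {t t' : ℝ} (h : t < t') (hc : ∀ c ∈ S.crit, t < c → c < t' → False) :
    S.Jp G t = S.Jm G t' := by
  unfold Jp Jm
  rw [S.Ap_eq_Am h hc]
  congr 1
  apply sum_congr rfl
  intro e _
  apply sum_congr rfl
  intro f _
  congr 1
  by_cases h1 : S.tc e f ≤ t
  · rw [if_pos h1, if_pos (lt_of_le_of_lt h1 h)]
  · rw [if_neg h1, if_neg]
    intro h2
    exact hc _ (S.crit_tc e f) (not_le.1 h1) h2

/-- **Total interaction bound.** -/
theorem sum_S0_le {G : Finset E} {α β : ℝ} (hG : S.Closed G α β) (hαβ : α < β) :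
    ∑ v ∈ (S.VV G).filter (fun v => α < S.x v ∧ S.x v < β), S.S0 v ≤ S.Jm G β - S.Jp G α := by
  have key := S.sweep_ind
    (fun t => S.Jp G α + ∑ v ∈ (S.VV G).filter (fun v => α < S.x v ∧ S.x v ≤ t), S.S0 v ≤ S.Jp G t)
    (fun t => S.Jp G α + ∑ v ∈ (S.VV G).filter (fun v => α < S.x v ∧ S.x v < t), S.S0 v ≤ S.Jm G t)
    α β ?_ ?_ ?_
  · have := key.2 β hαβ le_rfl
    linarith
  · have : (S.VV G).filter (fun v => α < S.x v ∧ S.x v ≤ α) = ∅ := by
      ext v
      simp only [mem_filter, notMem_empty, iff_false, not_and, not_le]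
      intro _ h; exact h
    simp only [this, sum_empty, add_zero, le_refl]
  · intro t t' h1 h2 h3 hc h
    rw [← S.Jp_eq_Jm G h2 hc]
    have : (S.VV G).filter (fun v => α < S.x v ∧ S.x v < t') =
        (S.VV G).filter (fun v => α < S.x v ∧ S.x v ≤ t) := by
      apply filter_congr
      intro v _
      constructor
      · rintro ⟨a, c⟩
        refine ⟨a, ?_⟩
        by_contra hlt
        exact hc _ (S.crit_x v) (not_le.1 hlt) c
      · rintro ⟨a, c⟩
        exact ⟨a, lt_of_le_of_lt c h2⟩
    rw [this]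
    exact h
  · intro t h1 h2 h
    have hj := S.jump hG h1 h2
    have : (S.VV G).filter (fun v => α < S.x v ∧ S.x v ≤ t) =
        (S.VV G).filter (fun v => α < S.x v ∧ S.x v < t) ∪ (S.VV G).filter (fun v => S.x v = t) := by
      ext v
      simp only [mem_filter, mem_union]
      constructor
      · rintro ⟨a, c, d⟩
        rcases eq_or_lt_of_le d with h' | h'
        · exact Or.inr ⟨a, h'⟩
        · exact Or.inl ⟨a, c, h'⟩
      · rintro (⟨a, c, d⟩ | ⟨a, c⟩)
        · exact ⟨a, c, d.le⟩
        · exact ⟨a, by rw [c]; exact h1, c.le⟩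
    rw [this, sum_union]
    · linarith
    · rw [disjoint_left]
      intro v hv hv'
      have a := (mem_filter.1 hv).2.2
      have c := (mem_filter.1 hv').2
      rw [c] at a
      exact lt_irrefl _ a

theorem J_bound_aux (A : Finset E) (σ : ℝ) (g : E → E → ℝ) (hg : ∀ e f, |g e f| ≤ 1)
    (hσ : ∀ e ∈ A, ∀ f ∈ A, |S.om e f| ≤ σ) :
    |(∑ e ∈ A, ∑ f ∈ A, |S.om e f| * g e f) / 2| ≤ (A.card : ℝ) ^ 2 * σ / 2 := by
  rw [abs_div, abs_of_pos (by norm_num : (0:ℝ) < 2)]
  apply div_le_div_of_nonneg_right _ (by norm_num)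
  calc |∑ e ∈ A, ∑ f ∈ A, |S.om e f| * g e f| ≤ ∑ e ∈ A, |∑ f ∈ A, |S.om e f| * g e f| :=
        abs_sum_le_sum_abs _ _
    _ ≤ ∑ e ∈ A, ∑ f ∈ A, |(|S.om e f| * g e f)| := sum_le_sum fun e _ => abs_sum_le_sum_abs _ _
    _ ≤ ∑ e ∈ A, ∑ f ∈ A, σ := by
        apply sum_le_sum; intro e he
        apply sum_le_sum; intro f hf
        rw [abs_mul, abs_abs]
        have h1 := hσ e he f hf
        have h2 := hg e f
        have h3 := abs_nonneg (S.om e f)
        calc |S.om e f| * |g e f| ≤ |S.om e f| * 1 := mul_le_mul_of_nonneg_left h2 h3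
          _ ≤ σ := by rw [mul_one]; exact h1
    _ = (A.card : ℝ) ^ 2 * σ := by
        rw [sum_const, sum_const, nsmul_eq_mul, nsmul_eq_mul]; ring

theorem Jp_bound (G : Finset E) (t σ : ℝ) (hσ : ∀ e ∈ S.Ap t ∩ G, ∀ f ∈ S.Ap t ∩ G, |S.om e f| ≤ σ) :
    |S.Jp G t| ≤ ((S.Ap t ∩ G).card : ℝ) ^ 2 * σ / 2 := by
  unfold Jp
  apply S.J_bound_aux _ σ (fun e f => if S.tc e f ≤ t then 1 else -1)
  · intro e f
    show |(if _ then (1:ℝ) else -1)| ≤ 1
    split_ifs <;> simp
  · exact hσ

theorem Jm_bound (G : Finset E) (t σ : ℝ) (hσ : ∀ e ∈ S.Am t ∩ G, ∀ f ∈ S.Am t ∩ G, |S.om e f| ≤ σ) :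
    |S.Jm G t| ≤ ((S.Am t ∩ G).card : ℝ) ^ 2 * σ / 2 := by
  unfold Jm
  apply S.J_bound_aux _ σ (fun e f => if S.tc e f < t then 1 else -1)
  · intro e f
    show |(if _ then (1:ℝ) else -1)| ≤ 1
    split_ifs <;> simp
  · exact hσ

end Sys
end Pool.Agent.H888R2.GN
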