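import Mathlib
import Pool.Agent.H888R2.GN2

set_option autoImplicit false
set_option linter.unusedSectionVars false

namespace Pool.Agent.H888R2.GN

open Finset
open scoped Classical

/-- Counting in slabs. -/
theorem slab_count {V : Type} (x : V → ℝ) (w : V → ℝ) (hw : ∀ v, 0 ≤ w v) (VV QQ : Finset V)
    (η : ℝ) (A D : ℕ) (hD : ∀ t, (QQ.filter fun v => x v = t).card ≤ D) :
    ∀ m : ℕ, ∀ α β : ℝ, α < β →
      (∀ a b, α ≤ a → a < b → b ≤ β → ∑ v ∈ VV.filter (fun v => a < x v ∧ x v < b), w v < η →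
        (QQ.filter fun v => a < x v ∧ x v < b).card ≤ A) →
      ∑ v ∈ VV.filter (fun v => α < x v ∧ x v < β), w v < (m + 1 : ℝ) * η →
      (QQ.filter fun v => α < x v ∧ x v < β).card ≤ (m + 1) * A + m * D := by
  intro m
  induction m with
  | zero =>
    intro α β hαβ h1 h2
    have := h1 α β le_rfl hαβ le_rfl (by simpa using h2)
    simpa using this
  | succ m ih =>
    intro α β hαβ h1 h2
    by_cases hsmall : ∑ v ∈ VV.filter (fun v => α < x v ∧ x v < β), w v < η
    · have := h1 α β le_rfl hαβ le_rfl hsmall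
      nlinarith [Nat.zero_le (m * A), Nat.zero_le (m * D)]
    rw [not_lt] at hsmall
    by_cases hη : 0 < η
    swap
    · -- degenerate
      exfalso
      have h3 : 0 ≤ ∑ v ∈ VV.filter (fun v => α < x v ∧ x v < β), w v := sum_nonneg fun v _ => hw v
      have h4 : ((m + 1 : ℕ) + 1 : ℝ) * η ≤ 0 := by
        rw [not_lt] at hη
        have : (0:ℝ) ≤ ((m + 1 : ℕ) + 1 : ℝ) := by positivity
        nlinarith
      linarith
    -- the values at which the accumulated weight is large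
    set P := (VV.filter (fun v => α < x v ∧ x v < β)).filter
      (fun v => η ≤ ∑ u ∈ VV.filter (fun u => α < x u ∧ x u ≤ x v), w u) with hP
    have hne : (VV.filter (fun v => α < x v ∧ x v < β)).Nonempty := by
      rw [nonempty_iff_ne_empty]
      intro h
      rw [h, sum_empty] at hsmall
      linarith
    have hPne : P.Nonempty := by
      obtain ⟨v, hv, hmax⟩ := exists_max_image _ x hne
      refine ⟨v, mem_filter.2 ⟨hv, ?_⟩⟩
      have : VV.filter (fun v => α < x v ∧ x v < β) = VV.filter (fun u => α < x u ∧ x u ≤ x v) := by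
        ext u
        simp only [mem_filter]
        constructor
        · rintro ⟨a, b, c⟩
          exact ⟨a, b, hmax u (mem_filter.2 ⟨a, b, c⟩)⟩
        · rintro ⟨a, b, c⟩
          exact ⟨a, b, lt_of_le_of_lt c (mem_filter.1 hv).2.2⟩
      rw [← this]
      exact hsmall
    obtain ⟨v, hvP, hmin⟩ := exists_min_image P x hPne
    obtain ⟨hv1, hv2⟩ := mem_filter.1 hvP
    obtain ⟨hvV, hva, hvb⟩ := mem_filter.1 hv1
    -- the sum on (α, x v) is small
    have hleft : ∑ u ∈ VV.filter (fun u => α < x u ∧ x u < x v), w u < η := by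
      by_contra hge
      rw [not_lt] at hge
      have hne' : (VV.filter (fun u => α < x u ∧ x u < x v)).Nonempty := by
        rw [nonempty_iff_ne_empty]
        intro h
        rw [h, sum_empty] at hge
        linarith
      obtain ⟨u, hu, hmax⟩ := exists_max_image _ x hne'
      obtain ⟨hu1, hu2, hu3⟩ := mem_filter.1 hu
      have hle := hmin u (mem_filter.2 ⟨mem_filter.2 ⟨hu1, hu2, hu3.trans hvb⟩, ?_⟩)
      · linarith
      · have : VV.filter (fun v' => α < x v' ∧ x v' < x v) = VV.filter (fun u' => α < x u' ∧ x u' ≤ x u) := by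
          ext u'
          simp only [mem_filter]
          constructor
          · rintro ⟨a, b, c⟩
            exact ⟨a, b, hmax u' (mem_filter.2 ⟨a, b, c⟩)⟩
          · rintro ⟨a, b, c⟩
            exact ⟨a, b, lt_of_le_of_lt c hu3⟩
        rw [← this]
        exact hge
    have hsplit : VV.filter (fun u => α < x u ∧ x u < β) =
        VV.filter (fun u => α < x u ∧ x u ≤ x v) ∪ VV.filter (fun u => x v < x u ∧ x u < β) := by
      ext u
      simp only [mem_filter, mem_union]
      constructor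
      · rintro ⟨a, b, c⟩
        by_cases h : x u ≤ x v
        · exact Or.inl ⟨a, b, h⟩
        · exact Or.inr ⟨a, not_le.1 h, c⟩
      · rintro (⟨a, b, c⟩ | ⟨a, b, c⟩)
        · exact ⟨a, b, lt_of_le_of_lt c hvb⟩
        · exact ⟨a, hva.trans b, c⟩
    have hdisj : Disjoint (VV.filter (fun u => α < x u ∧ x u ≤ x v))
        (VV.filter (fun u => x v < x u ∧ x u < β)) := by
      rw [disjoint_left]
      intro u hu hu'
      have a := (mem_filter.1 hu).2.2
      have b := (mem_filter.1 hu').2.1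
      exact absurd b (not_lt.2 a)
    rw [hsplit, sum_union hdisj] at h2
    have hright : ∑ u ∈ VV.filter (fun u => x v < x u ∧ x u < β), w u < (m + 1 : ℝ) * η := by
      push_cast at h2
      linarith
    have hIH := ih (x v) β hvb (fun a b h3 h4 h5 => h1 a b (hva.le.trans h3) h4 h5) hright
    have hL := h1 α (x v) le_rfl hva hvb.le hleft
    have hM := hD (x v)
    have hQ : QQ.filter (fun u => α < x u ∧ x u < β) ⊆
        (QQ.filter (fun u => α < x u ∧ x u < x v) ∪ QQ.filter (fun u => x u = x v)) ∪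
          QQ.filter (fun u => x v < x u ∧ x u < β) := by
      intro u hu
      obtain ⟨a, b, c⟩ := mem_filter.1 hu
      rcases lt_trichotomy (x u) (x v) with h | h | h
      · exact mem_union_left _ (mem_union_left _ (mem_filter.2 ⟨a, b, h⟩))
      · exact mem_union_left _ (mem_union_right _ (mem_filter.2 ⟨a, h⟩))
      · exact mem_union_right _ (mem_filter.2 ⟨a, h, c⟩)
    have hc := card_le_card hQ
    have hc1 := card_union_le (QQ.filter (fun u => α < x u ∧ x u < x v) ∪ QQ.filter (fun u => x u = x v))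
      (QQ.filter (fun u => x v < x u ∧ x u < β))
    have hc2 := card_union_le (QQ.filter (fun u => α < x u ∧ x u < x v)) (QQ.filter (fun u => x u = x v))
    have : (m + 1 + 1) * A + (m + 1) * D = A + D + ((m + 1) * A + m * D) := by ring
    rw [this]
    omega

/-- Pigeonhole: some interval contains no value. -/
theorem gap {E : Type} (s : Finset E) (w : E → ℝ) (k : ℕ) (hk : s.card ≤ k) (c g : ℝ) :
    ∃ i : ℕ, i ≤ k ∧ ∀ e ∈ s, c + i * g < w e → w e < c + (i + 1) * g → False := by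
  by_contra hcon
  push Not at hcon
  have h1 : ∀ i : Fin (k + 1), ∃ e ∈ s, c + (i:ℕ) * g < w e ∧ w e < c + ((i:ℕ) + 1) * g := by
    intro i
    obtain ⟨e, he, h1, h2, -⟩ := hcon i (by omega)
    exact ⟨e, he, h1, h2⟩
  choose f hf1 hf2 using h1
  have hg : 0 < g := by
    have := hf2 0
    simp only [Fin.val_zero, CharP.cast_eq_zero, zero_mul, add_zero, zero_add, one_mul] at this
    linarith
  have hinj : Function.Injective f := by
    intro i j hij
    by_contra hne
    have hi' := hf2 i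
    have hj' := hf2 j
    rw [hij] at hi'
    have hne' : (i:ℕ) ≠ j := fun h => hne (Fin.ext h)
    rcases lt_or_gt_of_ne hne' with h | h
    · have : (((i:ℕ):ℝ) + 1) ≤ ((j:ℕ):ℝ) := by exact_mod_cast h
      nlinarith [hi'.2, hj'.1]
    · have : (((j:ℕ):ℝ) + 1) ≤ ((i:ℕ):ℝ) := by exact_mod_cast h
      nlinarith [hi'.1, hj'.2]
  have := card_le_card_of_injOn (s := univ) (t := s) f (fun i _ => hf1 i) hinj.injOn
  rw [card_univ, Fintype.card_fin] at this
  omega

variable {V E : Type} [Fintype V] [Fintype E]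

namespace Sys

variable (S : Sys V E)

/-- squared distance of the momenta -/
def dN (e f : E) : ℝ := (S.p e - S.p f) ^ 2 + (S.q e - S.q f) ^ 2 + (S.r e - S.r f) ^ 2

theorem dN_eq (e f : E) : S.dN e f = 2 * (1 - (S.p e * S.p f + S.q e * S.q f + S.r e * S.r f)) := by
  have h1 := S.hN e
  have h2 := S.hN f
  unfold dN
  nlinarith

theorem om_sq_le (e f : E) : S.om e f ^ 2 ≤ S.dN e f := by
  have h1 := S.hN e
  unfold om dN
  have h2 : S.p e * S.q f - S.q e * S.p f = - (S.p e * (S.q e - S.q f) - S.q e * (S.p e - S.p f)) := by ring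
  rw [h2]
  nlinarith [sq_nonneg (S.p e * (S.p e - S.p f) + S.q e * (S.q e - S.q f)), sq_nonneg (S.r e - S.r f),
    sq_nonneg (S.r e * (S.p e - S.p f)), sq_nonneg (S.r e * (S.q e - S.q f))]

theorem om_le_one (e f : E) : |S.om e f| ≤ 1 := by
  have h1 := S.hN e
  have h2 := S.hN f
  rw [← sq_le_one_iff_abs_le_one]
  unfold om
  have h3 : (S.p e * S.q f - S.q e * S.p f) ^ 2 ≤ (S.p e ^ 2 + S.q e ^ 2) * (S.p f ^ 2 + S.q f ^ 2) := by
    nlinarith [sq_nonneg (S.p e * S.p f + S.q e * S.q f)]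
  have h4 : S.p e ^ 2 + S.q e ^ 2 ≤ 1 := by nlinarith [sq_nonneg (S.r e)]
  have h5 : S.p f ^ 2 + S.q f ^ 2 ≤ 1 := by nlinarith [sq_nonneg (S.r f)]
  have h6 : 0 ≤ S.p f ^ 2 + S.q f ^ 2 := by positivity
  nlinarith

/-- same-side pairs at the vertex `v` are comparable -/
def Cmp (C : ℝ) (v : V) : Prop :=
  ∀ e f, ((S.src e = v ∧ S.src f = v) ∨ (S.dst e = v ∧ S.dst f = v)) → S.dN e f ≤ C ^ 2 * S.om e f ^ 2

/-- squared length of a sum of unit vectors -/
theorem normsq_eq (A : Finset E) :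
    (∑ e ∈ A, S.p e) ^ 2 + (∑ e ∈ A, S.q e) ^ 2 + (∑ e ∈ A, S.r e) ^ 2 =
      (A.card : ℝ) ^ 2 - (∑ e ∈ A, ∑ f ∈ A, S.dN e f) / 2 := by
  have h : ∑ e ∈ A, ∑ f ∈ A, S.dN e f = 2 * ((A.card : ℝ) ^ 2 -
      ((∑ e ∈ A, S.p e) ^ 2 + (∑ e ∈ A, S.q e) ^ 2 + (∑ e ∈ A, S.r e) ^ 2)) := by
    calc ∑ e ∈ A, ∑ f ∈ A, S.dN e f = ∑ e ∈ A, ∑ f ∈ A, (2 - 2 * (S.p e * S.p f) - 2 * (S.q e * S.q f)
        - 2 * (S.r e * S.r f)) := by
          apply sum_congr rfl; intro e _
          apply sum_congr rfl; intro f _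
          rw [dN_eq]; ring
      _ = _ := by
          simp only [sum_sub_distrib, ← mul_sum, ← sum_mul, sum_const, nsmul_eq_mul]
          ring
  rw [h]; ring

theorem card_aux (C : ℝ) (A : Finset E)
    (hA : ∀ e ∈ A, ∀ f ∈ A, S.dN e f ≤ C ^ 2 * S.om e f ^ 2) :
    (A.card : ℝ) ^ 2 - C ^ 2 * ((∑ e ∈ A, ∑ f ∈ A, |S.om e f|) / 2) ≤
      (∑ e ∈ A, S.p e) ^ 2 + (∑ e ∈ A, S.q e) ^ 2 + (∑ e ∈ A, S.r e) ^ 2 ∧
    (∑ e ∈ A, S.p e) ^ 2 + (∑ e ∈ A, S.q e) ^ 2 + (∑ e ∈ A, S.r e) ^ 2 ≤ (A.card : ℝ) ^ 2 := by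
  rw [normsq_eq]
  constructor
  · have : ∑ e ∈ A, ∑ f ∈ A, S.dN e f ≤ C ^ 2 * ∑ e ∈ A, ∑ f ∈ A, |S.om e f| := by
      rw [mul_sum]
      apply sum_le_sum; intro e he
      rw [mul_sum]
      apply sum_le_sum; intro f hf
      refine (hA e he f hf).trans ?_
      apply mul_le_mul_of_nonneg_left _ (sq_nonneg C)
      have h1 := S.om_le_one e f
      have h2 := abs_nonneg (S.om e f)
      rw [← sq_abs]
      nlinarith
    linarith
  · have : 0 ≤ ∑ e ∈ A, ∑ f ∈ A, S.dN e f :=
      sum_nonneg fun e _ => sum_nonneg fun f _ => by unfold dN; positivity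
    linarith

/-- **Vertex lemma, counting part.** -/
theorem vertex_card (C : ℝ) {v : V} (hv : v ∈ S.B) (hC : S.Cmp C v)
    (hS : C ^ 2 * S.S0 v < 1) :
    (univ.filter fun e => S.src e = v).card = (univ.filter fun e => S.dst e = v).card := by
  have h1 := S.card_aux C (univ.filter fun e => S.src e = v) (by
    intro e he f hf
    exact hC e f (Or.inl ⟨(mem_filter.1 he).2, (mem_filter.1 hf).2⟩))
  have h2 := S.card_aux C (univ.filter fun e => S.dst e = v) (by
    intro e he f hf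
    exact hC e f (Or.inr ⟨(mem_filter.1 he).2, (mem_filter.1 hf).2⟩))
  rw [S.balp v hv, S.balq v hv, S.balr v hv] at h1
  have h3 : 0 ≤ (∑ e with S.src e = v, ∑ f with S.src f = v, |S.om e f|) / 2 :=
    div_nonneg (sum_nonneg fun e _ => sum_nonneg fun f _ => abs_nonneg _) (by norm_num)
  have h4 : 0 ≤ (∑ e with S.dst e = v, ∑ f with S.dst f = v, |S.om e f|) / 2 :=
    div_nonneg (sum_nonneg fun e _ => sum_nonneg fun f _ => abs_nonneg _) (by norm_num)
  have hS0 : S.S0 v = (∑ e with S.src e = v, ∑ f with S.src f = v, |S.om e f|) / 2 +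
      (∑ e with S.dst e = v, ∑ f with S.dst f = v, |S.om e f|) / 2 := rfl
  have hC2 : 0 ≤ C ^ 2 := sq_nonneg C
  have h5 : C ^ 2 * ((∑ e with S.src e = v, ∑ f with S.src f = v, |S.om e f|) / 2) < 1 := by
    refine lt_of_le_of_lt ?_ hS
    apply mul_le_mul_of_nonneg_left _ hC2
    rw [hS0]; linarith
  have h6 : C ^ 2 * ((∑ e with S.dst e = v, ∑ f with S.dst f = v, |S.om e f|) / 2) < 1 := by
    refine lt_of_le_of_lt ?_ hS
    apply mul_le_mul_of_nonneg_left _ hC2
    rw [hS0]; linarith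
  set a := (univ.filter fun e => S.src e = v).card with ha
  set b := (univ.filter fun e => S.dst e = v).card with hb
  have h7 : (a:ℝ) ^ 2 < (b:ℝ) ^ 2 + 1 := by linarith [h1.1, h2.2]
  have h8 : (b:ℝ) ^ 2 < (a:ℝ) ^ 2 + 1 := by linarith [h1.2, h2.1]
  have h9 : a ^ 2 < b ^ 2 + 1 := by exact_mod_cast h7
  have h10 : b ^ 2 < a ^ 2 + 1 := by exact_mod_cast h8
  have h11 : a ^ 2 = b ^ 2 := by omega
  exact Nat.pow_left_injective (by norm_num : (2:ℕ) ≠ 0) h11 

theorem vertex_two (C : ℝ) {v : V} (hv : v ∈ S.B) (hC : S.Cmp C v)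
    (hS : C ^ 2 * S.S0 v < 1) :
    2 ≤ (univ.filter fun e => S.src e = v).card ∧ 2 ≤ (univ.filter fun e => S.dst e = v).card := by
  have h1 := S.vertex_card C hv hC hS
  have h2 := S.deg v hv
  omega

theorem S0_parts {v : V} : (∑ e with S.src e = v, ∑ f with S.src f = v, |S.om e f|) / 2 ≤ S.S0 v ∧
    (∑ e with S.dst e = v, ∑ f with S.dst f = v, |S.om e f|) / 2 ≤ S.S0 v := by
  have h3 : 0 ≤ (∑ e with S.src e = v, ∑ f with S.src f = v, |S.om e f|) / 2 :=
    div_nonneg (sum_nonneg fun e _ => sum_nonneg fun f _ => abs_nonneg _) (by norm_num)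
  have h4 : 0 ≤ (∑ e with S.dst e = v, ∑ f with S.dst f = v, |S.om e f|) / 2 :=
    div_nonneg (sum_nonneg fun e _ => sum_nonneg fun f _ => abs_nonneg _) (by norm_num)
  unfold S0
  constructor <;> linarith

theorem om_le_half (A : Finset E) {e f : E} (he : e ∈ A) (hf : f ∈ A) :
    |S.om e f| ≤ (∑ e ∈ A, ∑ f ∈ A, |S.om e f|) / 2 := by
  by_cases hef : e = f
  · subst hef
    rw [om_self, abs_zero]
    exact div_nonneg (sum_nonneg fun e _ => sum_nonneg fun f _ => abs_nonneg _) (by norm_num)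
  have h1 : ∑ e' ∈ ({e, f} : Finset E), ∑ f' ∈ ({e, f} : Finset E), |S.om e' f'| ≤
      ∑ e ∈ A, ∑ f ∈ A, |S.om e f| := by
    have hsub : ({e, f} : Finset E) ⊆ A := by
      intro z hz
      rcases mem_insert.1 hz with h | h
      · rw [h]; exact he
      · rw [mem_singleton.1 h]; exact hf
    calc ∑ e' ∈ ({e, f} : Finset E), ∑ f' ∈ ({e, f} : Finset E), |S.om e' f'|
        ≤ ∑ e' ∈ ({e, f} : Finset E), ∑ f' ∈ A, |S.om e' f'| := by
          apply sum_le_sum; intro e' _
          exact sum_le_sum_of_subset_of_nonneg hsub fun _ _ _ => abs_nonneg _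
      _ ≤ _ := sum_le_sum_of_subset_of_nonneg hsub fun _ _ _ => sum_nonneg fun _ _ => abs_nonneg _
  rw [sum_pair hef, sum_pair hef, sum_pair hef, om_self, om_self, abs_zero, zero_add, add_zero,
    S.om_comm e f, abs_neg] at h1
  linarith

/-- coordinate functions of the momentum -/
def IsCoord (w : E → ℝ) : Prop := w = S.p ∨ w = S.q ∨ w = S.r

theorem coord_bal {w : E → ℝ} (hw : S.IsCoord w) {v : V} (hv : v ∈ S.B) :
    ∑ e with S.src e = v, w e = ∑ e with S.dst e = v, w e := by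
  rcases hw with h | h | h
  · rw [h]; exact S.balp v hv
  · rw [h]; exact S.balq v hv
  · rw [h]; exact S.balr v hv

theorem coord_le {w : E → ℝ} (hw : S.IsCoord w) (e f : E) : (w e - w f) ^ 2 ≤ S.dN e f := by
  unfold dN
  rcases hw with h | h | h <;> rw [h] <;>
    nlinarith [sq_nonneg (S.p e - S.p f), sq_nonneg (S.q e - S.q f), sq_nonneg (S.r e - S.r f)]

theorem side_close (C : ℝ) (hC0 : 0 ≤ C) {w : E → ℝ} (hw : S.IsCoord w) (A : Finset E)
    (hA : ∀ e ∈ A, ∀ f ∈ A, S.dN e f ≤ C ^ 2 * S.om e f ^ 2) {e f : E} (he : e ∈ A) (hf : f ∈ A) :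
    |w e - w f| ≤ C * ((∑ e ∈ A, ∑ f ∈ A, |S.om e f|) / 2) := by
  have h1 : |w e - w f| ≤ C * |S.om e f| := by
    apply abs_le_of_sq_le_sq _ (mul_nonneg hC0 (abs_nonneg _))
    rw [mul_pow, sq_abs]
    exact (S.coord_le hw e f).trans (hA e he f hf)
  exact h1.trans (mul_le_mul_of_nonneg_left (S.om_le_half A he hf) hC0)

theorem mean_close (A : Finset E) (w : E → ℝ) (c : ℝ) {e : E} (h : ∀ f ∈ A, |w e - w f| ≤ c) :
    |(A.card : ℝ) * w e - ∑ f ∈ A, w f| ≤ A.card * c := by
  have : (A.card : ℝ) * w e - ∑ f ∈ A, w f = ∑ f ∈ A, (w e - w f) := by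
    rw [sum_sub_distrib, sum_const, nsmul_eq_mul]
  rw [this]
  calc |∑ f ∈ A, (w e - w f)| ≤ ∑ f ∈ A, |w e - w f| := abs_sum_le_sum_abs _ _
    _ ≤ ∑ f ∈ A, c := sum_le_sum h
    _ = _ := by rw [sum_const, nsmul_eq_mul]

/-- **Vertex lemma, closeness part.** -/
theorem vertex_close (C : ℝ) (hC0 : 0 ≤ C) {v : V} (hv : v ∈ S.B) (hC : S.Cmp C v)
    (hS : C ^ 2 * S.S0 v < 1) {w : E → ℝ} (hw : S.IsCoord w) {e f : E}
    (he : S.inc e v) (hf : S.inc f v) : |w e - w f| ≤ C * S.S0 v := by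
  set A := univ.filter fun e => S.src e = v with hAdef
  set A' := univ.filter fun e => S.dst e = v with hA'def
  have hA : ∀ e ∈ A, ∀ f ∈ A, S.dN e f ≤ C ^ 2 * S.om e f ^ 2 := by
    intro e he f hf
    exact hC e f (Or.inl ⟨(mem_filter.1 he).2, (mem_filter.1 hf).2⟩)
  have hA' : ∀ e ∈ A', ∀ f ∈ A', S.dN e f ≤ C ^ 2 * S.om e f ^ 2 := by
    intro e he f hf
    exact hC e f (Or.inr ⟨(mem_filter.1 he).2, (mem_filter.1 hf).2⟩)
  have hcard : A.card = A'.card := S.vertex_card C hv hC hS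
  have h2 : 2 ≤ A.card := (S.vertex_two C hv hC hS).1
  have hpos : (0:ℝ) < A.card := by
    have : 0 < A.card := by omega
    exact_mod_cast this
  have hparts := S.S0_parts (v := v)
  have key : ∀ e f, S.src e = v → S.dst f = v → |w e - w f| ≤ C * S.S0 v := by
    intro e f he hf
    have m1 := mean_close A w (C * ((∑ e ∈ A, ∑ f ∈ A, |S.om e f|) / 2)) (e := e) (fun f hf =>
      S.side_close C hC0 hw A hA (mem_filter.2 ⟨mem_univ _, he⟩) hf)
    have m2 := mean_close A' w (C * ((∑ e ∈ A', ∑ f ∈ A', |S.om e f|) / 2)) (e := f) (fun f' hf' =>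
      S.side_close C hC0 hw A' hA' (mem_filter.2 ⟨mem_univ _, hf⟩) hf')
    rw [S.coord_bal hw hv] at m1
    rw [← hcard] at m2
    have m3 : (A.card : ℝ) * |w e - w f| ≤ A.card * (C * S.S0 v) := by
      have : (A.card : ℝ) * |w e - w f| = |(A.card : ℝ) * w e - A.card * w f| := by
        rw [← mul_sub, abs_mul, abs_of_pos hpos]
      rw [this]
      have h3 : |(A.card : ℝ) * w e - A.card * w f| ≤
          |(A.card : ℝ) * w e - ∑ e with S.dst e = v, w e| +
            |(A.card : ℝ) * w f - ∑ e with S.dst e = v, w e| := by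
        have := abs_sub ((A.card : ℝ) * w e - ∑ e with S.dst e = v, w e)
          ((A.card : ℝ) * w f - ∑ e with S.dst e = v, w e)
        refine le_trans (le_of_eq ?_) this
        congr 1
        ring
      have h4 : S.S0 v = (∑ e ∈ A, ∑ f ∈ A, |S.om e f|) / 2 + (∑ e ∈ A', ∑ f ∈ A', |S.om e f|) / 2 := rfl
      rw [h4]
      linarith
    exact le_of_mul_le_mul_left m3 hpos
  have hS0 := S.S0_nonneg v
  rcases he with he | he <;> rcases hf with hf | hf
  · refine (S.side_close C hC0 hw A hA (mem_filter.2 ⟨mem_univ _, he⟩) (mem_filter.2 ⟨mem_univ _, hf⟩)).trans ?_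
    exact mul_le_mul_of_nonneg_left hparts.1 hC0
  · exact key e f he hf
  · rw [abs_sub_comm]; exact key f e hf he
  · refine (S.side_close C hC0 hw A' hA' (mem_filter.2 ⟨mem_univ _, he⟩) (mem_filter.2 ⟨mem_univ _, hf⟩)).trans ?_
    exact mul_le_mul_of_nonneg_left hparts.2 hC0

/-- weighted drift of a strand since time `a` -/
noncomputable def Db (G : Finset E) (a : ℝ) (e : E) : ℝ :=
  if S.src e ∈ S.B then ∑ v ∈ (S.VV G).filter (fun v => a < S.x v ∧ S.x v ≤ S.x (S.src e)), S.S0 v else 0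

theorem Db_nonneg (G : Finset E) (a : ℝ) (e : E) : 0 ≤ S.Db G a e := by
  unfold Db
  split_ifs
  · exact sum_nonneg fun v _ => S.S0_nonneg v
  · exact le_rfl

/-- the strands which are active at some time of the slab -/
def Rel (a b : ℝ) (e : E) : Prop :=
  (S.src e ∈ S.B → S.x (S.src e) < b) ∧ (S.dst e ∈ S.B → a < S.x (S.dst e))

theorem Db_le (G : Finset E) {a b : ℝ} {e : E} (h : S.Rel a b e) :
    S.Db G a e ≤ ∑ v ∈ (S.VV G).filter (fun v => a < S.x v ∧ S.x v < b), S.S0 v := by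
  unfold Db
  split_ifs with hB
  · apply sum_le_sum_of_subset_of_nonneg
    · intro v hv
      obtain ⟨h1, h2, h3⟩ := mem_filter.1 hv
      exact mem_filter.2 ⟨h1, h2, lt_of_le_of_lt h3 (h.1 hB)⟩
    · intro v _ _
      exact S.S0_nonneg v
  · exact sum_nonneg fun v _ => S.S0_nonneg v

/-- **Drift lemma.** -/
theorem drift {G : Finset E} {a b : ℝ} (hG : S.Closed G a b) (w : E → ℝ) (κ c0 g : ℝ) (hκ : 0 ≤ κ)
    (H0 : ∀ e ∈ S.Ap a ∩ G, w e ≤ c0 ∨ c0 + g ≤ w e)
    (H1 : ∀ v ∈ S.VV G, a < S.x v → S.x v < b → ∀ e, S.src e = v → c0 < w e → w e < c0 + g →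
      ∃ f, S.dst f = v ∧ |w e - w f| ≤ κ * S.S0 v) :
    ∀ e ∈ G, S.Rel a b e → w e ≤ c0 + κ * S.Db G a e ∨ c0 + g - κ * S.Db G a e ≤ w e := by
  have key : ∀ n : ℕ, ∀ e ∈ G, (univ.filter fun u => S.x u < S.x (S.src e)).card = n → S.Rel a b e →
      w e ≤ c0 + κ * S.Db G a e ∨ c0 + g - κ * S.Db G a e ≤ w e := by
    intro n
    induction n using Nat.strong_induction_on with
    | _ n ih =>
      intro e heG hn hrel
      have hDb := mul_nonneg hκ (S.Db_nonneg G a e)
      by_cases hA : S.src e ∈ S.B ∧ a < S.x (S.src e)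
      swap
      · have hAp : e ∈ S.Ap a ∩ G := by
          rw [mem_inter]
          refine ⟨mem_filter.2 ⟨mem_univ _, ?_, hrel.2⟩, heG⟩
          intro hB
          by_contra hlt
          exact hA ⟨hB, not_le.1 hlt⟩
        rcases H0 e hAp with h | h
        · left; linarith
        · right; linarith
      obtain ⟨hB, hax⟩ := hA
      by_cases h1 : w e ≤ c0
      · left; linarith
      by_cases h2 : c0 + g ≤ w e
      · right; linarith
      rw [not_le] at h1 h2
      have hxb := hrel.1 hB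
      have hVV : S.src e ∈ S.VV G := mem_filter.2 ⟨hB, e, Or.inl rfl, heG⟩
      obtain ⟨f, hf1, hf2⟩ := H1 (S.src e) hVV hax hxb e rfl h1 h2
      have hfG : f ∈ G := hG (S.src e) hB hax hxb e f (Or.inl rfl) (Or.inr hf1) heG
      have hlt : S.x (S.src f) < S.x (S.src e) := by rw [← hf1]; exact S.hx f
      have hcard : (univ.filter fun u => S.x u < S.x (S.src f)).card < n := by
        rw [← hn]
        apply card_lt_card
        refine ⟨?_, ?_⟩
        · intro u hu
          exact mem_filter.2 ⟨mem_univ _, (mem_filter.1 hu).2.trans hlt⟩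
        · intro hsub
          have : S.src f ∈ univ.filter fun u => S.x u < S.x (S.src e) := mem_filter.2 ⟨mem_univ _, hlt⟩
          exact lt_irrefl _ (mem_filter.1 (hsub this)).2
      have hrelf : S.Rel a b f := ⟨fun _ => hlt.trans hxb, fun _ => by rw [hf1]; exact hax⟩
      have hIH := ih _ hcard f hfG rfl hrelf
      have hDbf : S.Db G a f + S.S0 (S.src e) ≤ S.Db G a e := by
        have e1 : S.Db G a e = ∑ v ∈ (S.VV G).filter (fun v => a < S.x v ∧ S.x v ≤ S.x (S.src e)), S.S0 v := by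
          unfold Db; rw [if_pos hB]
        have e2 : S.Db G a f ≤ ∑ v ∈ (S.VV G).filter (fun v => a < S.x v ∧ S.x v < S.x (S.src e)), S.S0 v :=
          S.Db_le G ⟨fun _ => hlt, hrelf.2⟩
        have e3 : ∑ v ∈ (S.VV G).filter (fun v => a < S.x v ∧ S.x v < S.x (S.src e)), S.S0 v + S.S0 (S.src e) ≤
            ∑ v ∈ (S.VV G).filter (fun v => a < S.x v ∧ S.x v ≤ S.x (S.src e)), S.S0 v := by
          have hnot : S.src e ∉ (S.VV G).filter (fun v => a < S.x v ∧ S.x v < S.x (S.src e)) := by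
            intro h
            exact lt_irrefl _ (mem_filter.1 h).2.2
          rw [add_comm, ← sum_insert hnot]
          apply sum_le_sum_of_subset_of_nonneg
          · intro v hv
            rcases mem_insert.1 hv with h | h
            · rw [h]
              exact mem_filter.2 ⟨hVV, hax, le_rfl⟩
            · obtain ⟨h3, h4, h5⟩ := mem_filter.1 h
              exact mem_filter.2 ⟨h3, h4, h5.le⟩
          · intro v _ _
            exact S.S0_nonneg v
        linarith
      have hmul : κ * S.Db G a f + κ * S.S0 (S.src e) ≤ κ * S.Db G a e := by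
        rw [← mul_add]; exact mul_le_mul_of_nonneg_left hDbf hκ
      rw [abs_le] at hf2
      rcases hIH with h | h
      · left; linarith
      · right; linarith
  intro e heG hrel
  exact key _ e heG rfl hrel

/-- conservation of sums -/
theorem conserve (w : E → ℝ) {G : Finset E} {α β : ℝ} (hG : S.Closed G α β)
    (hw : ∀ v ∈ S.VV G, α < S.x v → S.x v < β →
      ∑ e with S.src e = v, w e = ∑ e with S.dst e = v, w e) :
    (∀ t, α ≤ t → t < β → ∑ e ∈ S.Ap t ∩ G, w e = ∑ e ∈ S.Ap α ∩ G, w e) ∧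
    (∀ t, α < t → t ≤ β → ∑ e ∈ S.Am t ∩ G, w e = ∑ e ∈ S.Ap α ∩ G, w e) := by
  apply S.sweep_ind (fun t => ∑ e ∈ S.Ap t ∩ G, w e = ∑ e ∈ S.Ap α ∩ G, w e)
    (fun t => ∑ e ∈ S.Am t ∩ G, w e = ∑ e ∈ S.Ap α ∩ G, w e) α β rfl
  · intro t t' _ h2 _ hc h
    rw [← S.Ap_eq_Am h2 hc]
    exact h
  · intro t h1 h2 h
    rw [← h]
    have := S.bal_level' w (t := t) ?_ hG h1 h2 (fun _ => 1)
    · simpa using this
    · intro v hv hvt hall
      apply hw v _ (by rw [hvt]; exact h1) (by rw [hvt]; exact h2)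
      refine mem_filter.2 ⟨hv, ?_⟩
      have h3 := S.deg v hv
      have h4 : 0 < (univ.filter fun e => S.src e = v).card ∨ 0 < (univ.filter fun e => S.dst e = v).card := by
        omega
      rcases h4 with h4 | h4
      · obtain ⟨e, he⟩ := card_pos.1 h4
        have := (mem_filter.1 he).2
        exact ⟨e, Or.inl this, hall e (Or.inl this)⟩
      · obtain ⟨e, he⟩ := card_pos.1 h4
        have := (mem_filter.1 he).2
        exact ⟨e, Or.inr this, hall e (Or.inr this)⟩

end Sys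
end Pool.Agent.H888R2.GN
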