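import Mathlib
import Pool.Agent.H888R2.GN3

set_option autoImplicit false
set_option linter.unusedSectionVars false

namespace Pool.Agent.H888R2.GN

open Finset
open scoped Classical

/-- the bound of the particle lemma -/
def NN (C : ℕ) : ℕ → ℕ
  | 0 => 0
  | k + 1 => (8 * C * (k + 1) ^ 3 * (k + 2) + 1) * (2 * NN C k) + (8 * C * (k + 1) ^ 3 * (k + 2)) * (k + 1)

variable {V E : Type} [Fintype V] [Fintype E]

namespace Sys

variable (S : Sys V E)

/-- good vertices -/
def Good (C : ℝ) (v : V) : Prop := S.Cmp C v ∧ C ^ 2 * S.S0 v < 1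

theorem src_mem {G : Finset E} {α β : ℝ} (hG : S.Closed G α β) {v : V} (hv : v ∈ S.VV G)
    (h1 : α < S.x v) (h2 : S.x v < β) {e : E} (he : S.src e = v) : e ∈ S.Ap (S.x v) ∩ G := by
  obtain ⟨hvB, e', he', heG⟩ := mem_filter.1 hv
  rw [mem_inter]
  refine ⟨?_, hG v hvB h1 h2 e' e he' (Or.inl he) heG⟩
  rw [Ap_eq, mem_union]
  right
  exact mem_filter.2 ⟨mem_univ _, by rw [he]; exact hvB, by rw [he]⟩

theorem card_conserve (C : ℝ) {G : Finset E} {α β : ℝ} (hG : S.Closed G α β)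
    (hgood : ∀ v ∈ S.VV G, α < S.x v → S.x v < β → S.Good C v) :
    (∀ t, α ≤ t → t < β → (S.Ap t ∩ G).card = (S.Ap α ∩ G).card) ∧
    (∀ t, α < t → t ≤ β → (S.Am t ∩ G).card = (S.Ap α ∩ G).card) := by
  have h := S.conserve (fun _ => (1:ℝ)) hG (by
    intro v hv h1 h2
    have hg := hgood v hv h1 h2
    have := S.vertex_card C (mem_filter.1 hv).1 hg.1 hg.2
    simp only [sum_const, nsmul_eq_mul, mul_one]
    exact_mod_cast this)
  simp only [sum_const, nsmul_eq_mul, mul_one] at h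
  constructor
  · intro t h1 h2
    exact_mod_cast h.1 t h1 h2
  · intro t h1 h2
    exact_mod_cast h.2 t h1 h2

theorem card_level (C : ℝ) {G : Finset E} {α β : ℝ} (hG : S.Closed G α β)
    (hgood : ∀ v ∈ S.VV G, α < S.x v → S.x v < β → S.Good C v) (t : ℝ) (h1 : α < t) (h2 : t < β) :
    ((S.VV G).filter fun v => S.x v = t).card ≤ (S.Ap α ∩ G).card := by
  rw [← (S.card_conserve C hG hgood).1 t h1.le h2]
  have hex : ∀ v ∈ (S.VV G).filter (fun v => S.x v = t), ∃ e, S.src e = v := by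
    intro v hv
    obtain ⟨hv1, hv2⟩ := mem_filter.1 hv
    have hg := hgood v hv1 (by rw [hv2]; exact h1) (by rw [hv2]; exact h2)
    have := (S.vertex_two C (mem_filter.1 hv1).1 hg.1 hg.2).1
    obtain ⟨e, he⟩ := card_pos.1 (show 0 < (univ.filter fun e => S.src e = v).card by omega)
    exact ⟨e, (mem_filter.1 he).2⟩
  rcases ((S.VV G).filter (fun v => S.x v = t)).eq_empty_or_nonempty with h0 | ⟨v0, hv0⟩
  · rw [h0]; simp
  obtain ⟨e0, -⟩ := hex v0 hv0
  have : Nonempty E := ⟨e0⟩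
  choose! φ hφ using hex
  apply card_le_card_of_injOn φ
  · intro v hv
    have hv' : v ∈ (S.VV G).filter (fun v => S.x v = t) := hv
    obtain ⟨hv1, hv2⟩ := mem_filter.1 hv'
    have := S.src_mem hG hv1 (by rw [hv2]; exact h1) (by rw [hv2]; exact h2) (hφ v hv')
    rw [hv2] at this
    exact this
  · intro v hv u hu huv
    rw [← hφ v hv, ← hφ u hu, huv]

/-- energy of a family of strands -/
noncomputable def En (A : Finset E) : ℝ := (∑ e ∈ A, ∑ f ∈ A, S.dN e f) / 2

theorem dN_nonneg (e f : E) : 0 ≤ S.dN e f := by unfold dN; positivity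

theorem dN_comm (e f : E) : S.dN e f = S.dN f e := by unfold dN; ring

theorem En_nonneg (A : Finset E) : 0 ≤ S.En A :=
  div_nonneg (sum_nonneg fun e _ => sum_nonneg fun f _ => S.dN_nonneg e f) (by norm_num)

theorem dN_le_En (A : Finset E) {e f : E} (he : e ∈ A) (hf : f ∈ A) : S.dN e f ≤ S.En A := by
  by_cases hef : e = f
  · subst hef
    have : S.dN e e = 0 := by unfold dN; ring
    rw [this]
    exact S.En_nonneg A
  have h1 : ∑ e' ∈ ({e, f} : Finset E), ∑ f' ∈ ({e, f} : Finset E), S.dN e' f' ≤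
      ∑ e ∈ A, ∑ f ∈ A, S.dN e f := by
    have hsub : ({e, f} : Finset E) ⊆ A := by
      intro z hz
      rcases mem_insert.1 hz with h | h
      · rw [h]; exact he
      · rw [mem_singleton.1 h]; exact hf
    calc ∑ e' ∈ ({e, f} : Finset E), ∑ f' ∈ ({e, f} : Finset E), S.dN e' f'
        ≤ ∑ e' ∈ ({e, f} : Finset E), ∑ f' ∈ A, S.dN e' f' := by
          apply sum_le_sum; intro e' _
          exact sum_le_sum_of_subset_of_nonneg hsub fun _ _ _ => S.dN_nonneg _ _
      _ ≤ _ := sum_le_sum_of_subset_of_nonneg hsub fun _ _ _ => sum_nonneg fun _ _ => S.dN_nonneg _ _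
  rw [sum_pair hef, sum_pair hef, sum_pair hef, S.dN_comm f e] at h1
  have h2 := S.dN_nonneg e e
  have h3 := S.dN_nonneg f f
  unfold En
  linarith

theorem En_eq (A : Finset E) : S.En A = (A.card : ℝ) ^ 2 -
    ((∑ e ∈ A, S.p e) ^ 2 + (∑ e ∈ A, S.q e) ^ 2 + (∑ e ∈ A, S.r e) ^ 2) := by
  rw [normsq_eq]; unfold En; ring

theorem En_conserve (C : ℝ) {G : Finset E} {α β : ℝ} (hG : S.Closed G α β)
    (hgood : ∀ v ∈ S.VV G, α < S.x v → S.x v < β → S.Good C v) :
    (∀ t, α ≤ t → t < β → S.En (S.Ap t ∩ G) = S.En (S.Ap α ∩ G)) ∧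
    (∀ t, α < t → t ≤ β → S.En (S.Am t ∩ G) = S.En (S.Ap α ∩ G)) := by
  have hc := S.card_conserve C hG hgood
  have hp := S.conserve S.p hG (fun v hv _ _ => S.balp v (mem_filter.1 hv).1)
  have hq := S.conserve S.q hG (fun v hv _ _ => S.balq v (mem_filter.1 hv).1)
  have hr := S.conserve S.r hG (fun v hv _ _ => S.balr v (mem_filter.1 hv).1)
  constructor
  · intro t h1 h2
    rw [En_eq, En_eq, hc.1 t h1 h2, hp.1 t h1 h2, hq.1 t h1 h2, hr.1 t h1 h2]
  · intro t h1 h2
    rw [En_eq, En_eq, hc.2 t h1 h2, hp.2 t h1 h2, hq.2 t h1 h2, hr.2 t h1 h2]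

/-- there is a coordinate with a large spread -/
theorem exists_spread (A : Finset E) (k : ℕ) (hk : A.card ≤ k + 1) (hE : 0 < S.En A) :
    ∃ w, S.IsCoord w ∧ ∃ e ∈ A, ∃ f ∈ A, Real.sqrt (S.En A) / (2 * (k + 1)) ≤ w f - w e := by
  set s := S.En A with hs
  have hk1 : (0:ℝ) < k + 1 := by positivity
  have h1 : ∃ e ∈ A, ∃ f ∈ A, s / (k + 1) ^ 2 ≤ S.dN e f := by
    by_contra hcon
    push Not at hcon
    have h2 : ∑ e ∈ A, ∑ f ∈ A, S.dN e f ≤ ∑ e ∈ A, ∑ f ∈ A, s / (k + 1) ^ 2 := by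
      apply sum_le_sum; intro e he
      apply sum_le_sum; intro f hf
      exact (hcon e he f hf).le
    rw [sum_const, sum_const, nsmul_eq_mul, nsmul_eq_mul] at h2
    have h3 : (A.card : ℝ) ≤ k + 1 := by exact_mod_cast hk
    have h4 : (A.card : ℝ) * (A.card * (s / (k + 1) ^ 2)) ≤ s := by
      have h5 : (A.card : ℝ) * A.card ≤ (k + 1) ^ 2 := by nlinarith [(Nat.cast_nonneg A.card : (0:ℝ) ≤ A.card)]
      calc (A.card : ℝ) * (A.card * (s / (k + 1) ^ 2)) = (A.card * A.card) * (s / (k + 1) ^ 2) := by ring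
        _ ≤ (k + 1) ^ 2 * (s / (k + 1) ^ 2) := mul_le_mul_of_nonneg_right h5 (by positivity)
        _ = s := by field_simp
    have h6 : s = (∑ e ∈ A, ∑ f ∈ A, S.dN e f) / 2 := rfl
    linarith
  obtain ⟨e, he, f, hf, hef⟩ := h1
  have hδ : (Real.sqrt s / (2 * (k + 1))) ^ 2 = s / (4 * (k + 1) ^ 2) := by
    rw [div_pow, Real.sq_sqrt hE.le]
    congr 1; ring
  have hδ0 : 0 ≤ Real.sqrt s / (2 * (k + 1)) := by positivity
  have h2 : ∃ w, S.IsCoord w ∧ s / (4 * (k + 1) ^ 2) ≤ (w f - w e) ^ 2 := by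
    by_contra hcon
    push Not at hcon
    have a1 := hcon S.p (Or.inl rfl)
    have a2 := hcon S.q (Or.inr (Or.inl rfl))
    have a3 := hcon S.r (Or.inr (Or.inr rfl))
    have a4 : s / (k + 1) ^ 2 = 4 * (s / (4 * (k + 1) ^ 2)) := by field_simp
    have a5 : 0 < s / (4 * (k + 1) ^ 2) := by positivity
    unfold dN at hef
    nlinarith
  obtain ⟨w, hw, hwd⟩ := h2
  refine ⟨w, hw, ?_⟩
  rw [← hδ] at hwd
  have h3 : Real.sqrt s / (2 * (k + 1)) ≤ |w f - w e| := abs_le_abs_of_sq_le_sq_aux hδ0 hwd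
  rcases le_total (w e) (w f) with h | h
  · exact ⟨e, he, f, hf, by rwa [abs_of_nonneg (by linarith)] at h3⟩
  · refine ⟨f, hf, e, he, ?_⟩
    rw [abs_of_nonpos (by linarith)] at h3
    linarith
where
  abs_le_abs_of_sq_le_sq_aux {a b : ℝ} (h0 : 0 ≤ a) (h : a ^ 2 ≤ b ^ 2) : a ≤ |b| := by
    have := sq_le_sq.1 h
    rwa [abs_of_nonneg h0] at this

/-- the upper part of a group -/
noncomputable def hiG (G : Finset E) (w : E → ℝ) (c : ℝ) : Finset E := G.filter fun e => c ≤ w e

/-- the lower part of a group -/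
noncomputable def loG (G : Finset E) (w : E → ℝ) (c : ℝ) : Finset E := G.filter fun e => w e < c

theorem mem_hiG {G : Finset E} {w : E → ℝ} {c : ℝ} {e : E} : e ∈ hiG G w c ↔ e ∈ G ∧ c ≤ w e := mem_filter

theorem mem_loG {G : Finset E} {w : E → ℝ} {c : ℝ} {e : E} : e ∈ loG G w c ↔ e ∈ G ∧ w e < c := mem_filter

/-- splitting a group at a gap -/
theorem split_gap (C : ℝ) (hC0 : 0 < C) {G : Finset E} {a b : ℝ} (hG : S.Closed G a b)
    (w : E → ℝ) (hw : S.IsCoord w) (c0 g : ℝ) (hg : 0 < g)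
    (hgood : ∀ v ∈ S.VV G, a < S.x v → S.x v < b →
      (∃ e, S.inc e v ∧ c0 < w e ∧ w e < c0 + g) → S.Good C v)
    (hgood' : ∀ v ∈ S.VV G, a < S.x v → S.x v < b →
      (∃ e, S.inc e v ∧ c0 + g / 2 ≤ w e) → S.Good C v)
    (H0 : ∀ e ∈ S.Ap a ∩ G, w e ≤ c0 ∨ c0 + g ≤ w e)
    (hsum : C * ∑ v ∈ (S.VV G).filter (fun v => a < S.x v ∧ S.x v < b), S.S0 v < g / 4) :
    S.Closed (hiG G w (c0 + g / 2)) a b := by
  have hdrift := S.drift hG w C c0 g hC0.le H0 (by
    intro v hv h1 h2 e he h3 h4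
    have hgd := hgood v hv h1 h2 ⟨e, Or.inl he, h3, h4⟩
    have hvB := (mem_filter.1 hv).1
    have := (S.vertex_two C hvB hgd.1 hgd.2).2
    obtain ⟨f, hf⟩ := card_pos.1 (show 0 < (univ.filter fun e => S.dst e = v).card by omega)
    exact ⟨f, (mem_filter.1 hf).2, S.vertex_close C hC0.le hvB hgd.1 hgd.2 hw (Or.inl he)
      (Or.inr (mem_filter.1 hf).2)⟩)
  intro v hvB h1 h2 e f he hf heG
  obtain ⟨heG1, heG2⟩ := mem_hiG.1 heG
  have hfG := hG v hvB h1 h2 e f he hf heG1
  have hvV : v ∈ S.VV G := mem_filter.2 ⟨hvB, e, he, heG1⟩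
  have hgd := hgood' v hvV h1 h2 ⟨e, he, heG2⟩
  have hclose := S.vertex_close C hC0.le hvB hgd.1 hgd.2 hw he hf
  have hS0 : C * S.S0 v < g / 4 := by
    refine lt_of_le_of_lt ?_ hsum
    apply mul_le_mul_of_nonneg_left _ hC0.le
    exact single_le_sum (f := fun v => S.S0 v) (fun v _ => S.S0_nonneg v) (mem_filter.2 ⟨hvV, h1, h2⟩)
  have hrel : S.Rel a b e := by
    rcases he with he | he
    · refine ⟨fun _ => by rw [he]; exact h2, fun _ => ?_⟩
      have := S.hx e
      rw [he] at this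
      exact h1.trans this
    · refine ⟨fun _ => ?_, fun _ => by rw [he]; exact h1⟩
      have := S.hx e
      rw [he] at this
      exact this.trans h2
  have hDb := S.Db_le G hrel
  have hDb' : C * S.Db G a e < g / 4 := lt_of_le_of_lt (mul_le_mul_of_nonneg_left hDb hC0.le) hsum
  rw [abs_le] at hclose
  refine mem_hiG.2 ⟨hfG, ?_⟩
  rcases hdrift e heG1 hrel with h | h
  · linarith
  · linarith [hclose.2]

/-- the complement of a closed group in a closed group is closed -/
theorem closed_compl {G : Finset E} {a b : ℝ} (hG : S.Closed G a b) (w : E → ℝ) (c : ℝ)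
    (hP : S.Closed (hiG G w c) a b) : S.Closed (loG G w c) a b := by
  intro v hvB h1 h2 e f he hf heG
  obtain ⟨heG1, heG2⟩ := mem_loG.1 heG
  have hfG := hG v hvB h1 h2 e f he hf heG1
  refine mem_loG.2 ⟨hfG, ?_⟩
  by_contra hPf
  rw [not_lt] at hPf
  have := (mem_hiG.1 (hP v hvB h1 h2 f e hf he (mem_hiG.2 ⟨hfG, hPf⟩))).2
  linarith

/-- **Particle lemma.** -/
theorem particle (C : ℕ) (hC : 1 ≤ C) : ∀ k : ℕ, ∀ (G : Finset E) (α β : ℝ), α < β →
    S.Closed G α β → (∀ v ∈ S.VV G, α < S.x v → S.x v < β → S.Good C v) →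
    (S.Ap α ∩ G).card ≤ k →
    ((S.VV G).filter fun v => α < S.x v ∧ S.x v < β).card ≤ NN C k := by
  have hC0 : (0:ℝ) < C := by exact_mod_cast hC
  intro k
  induction k with
  | zero =>
    intro G α β hαβ hG hgood hk
    unfold NN
    rw [Nat.le_zero, card_eq_zero]
    by_contra hne
    obtain ⟨v, hv⟩ := nonempty_iff_ne_empty.2 hne
    obtain ⟨hv1, hv2, hv3⟩ := mem_filter.1 hv
    have := S.card_level C hG hgood (S.x v) hv2 hv3
    have h1 : 0 < ((S.VV G).filter fun u => S.x u = S.x v).card :=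
      card_pos.2 ⟨v, mem_filter.2 ⟨hv1, rfl⟩⟩
    omega
  | succ k ih =>
    intro G α β hαβ hG hgood hk
    have hcc := S.card_conserve C hG hgood
    have hec := S.En_conserve C hG hgood
    set s := S.En (S.Ap α ∩ G) with hs
    have hs0 : 0 ≤ s := S.En_nonneg _
    set σ := Real.sqrt s with hσ
    have homp : ∀ t, α ≤ t → t < β → ∀ e ∈ S.Ap t ∩ G, ∀ f ∈ S.Ap t ∩ G, |S.om e f| ≤ σ := by
      intro t h1 h2 e he f hf
      apply Real.abs_le_sqrt
      rw [← hec.1 t h1 h2]
      exact (S.om_sq_le e f).trans (S.dN_le_En _ he hf)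
    have homm : ∀ t, α < t → t ≤ β → ∀ e ∈ S.Am t ∩ G, ∀ f ∈ S.Am t ∩ G, |S.om e f| ≤ σ := by
      intro t h1 h2 e he f hf
      apply Real.abs_le_sqrt
      rw [← hec.2 t h1 h2]
      exact (S.om_sq_le e f).trans (S.dN_le_En _ he hf)
    have hkr : ((S.Ap α ∩ G).card : ℝ) ≤ k + 1 := by exact_mod_cast hk
    have htot : ∑ v ∈ (S.VV G).filter (fun v => α < S.x v ∧ S.x v < β), S.S0 v ≤ (k + 1) ^ 2 * σ := by
      have h1 := S.sum_S0_le hG hαβ
      have h2 := S.Jp_bound G α σ (homp α le_rfl hαβ)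
      have h3 := S.Jm_bound G β σ (homm β hαβ le_rfl)
      rw [hcc.2 β hαβ le_rfl] at h3
      have h4 := abs_le.1 h2
      have h5 := abs_le.1 h3
      have h6 : ((S.Ap α ∩ G).card : ℝ) ^ 2 * σ ≤ (k + 1) ^ 2 * σ := by
        apply mul_le_mul_of_nonneg_right _ (Real.sqrt_nonneg _)
        apply pow_le_pow_left₀ (Nat.cast_nonneg _) hkr
      linarith [h4.1, h5.2]
    rcases eq_or_lt_of_le hs0 with hz | hpos
    · -- all strands are parallel
      have hσ0 : σ = 0 := by rw [hσ, ← hz, Real.sqrt_zero]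
      have : (S.VV G).filter (fun v => α < S.x v ∧ S.x v < β) = ∅ := by
        by_contra hne
        obtain ⟨v, hv⟩ := nonempty_iff_ne_empty.2 hne
        obtain ⟨hv1, hv2, hv3⟩ := mem_filter.1 hv
        have hg := hgood v hv1 hv2 hv3
        have hvB := (mem_filter.1 hv1).1
        have h2 := (S.vertex_two C hvB hg.1 hg.2).1
        obtain ⟨e, he, f, hf, hef⟩ := one_lt_card.1 (show 1 < (univ.filter fun e => S.src e = v).card by omega)
        have he' := (mem_filter.1 he).2
        have hf' := (mem_filter.1 hf).2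
        have h3 := homp (S.x v) hv2.le hv3 e (S.src_mem hG hv1 hv2 hv3 he') f
          (S.src_mem hG hv1 hv2 hv3 hf')
        rw [hσ0] at h3
        exact S.dis v hvB e f hef (Or.inl ⟨he', hf'⟩) (abs_nonpos_iff.1 h3)
      rw [this, card_empty]
      exact Nat.zero_le _
    have hσpos : 0 < σ := Real.sqrt_pos.2 hpos
    set g := σ / (2 * (k + 1) * (k + 2)) with hgdef
    have hgpos : 0 < g := by positivity
    set m := 8 * C * (k + 1) ^ 3 * (k + 2) with hm
    have hfin := slab_count S.x S.S0 S.S0_nonneg (S.VV G)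
      ((S.VV G).filter fun v => α < S.x v ∧ S.x v < β) (g / (4 * C)) (2 * NN C k) (k + 1) ?_ m α β hαβ ?_ ?_
    · have e1 : ((S.VV G).filter fun v => α < S.x v ∧ S.x v < β).filter (fun v => α < S.x v ∧ S.x v < β) =
          (S.VV G).filter fun v => α < S.x v ∧ S.x v < β := by
        rw [filter_filter]
        apply filter_congr
        intro v _
        exact and_self_iff
      rw [e1] at hfin
      exact hfin
    · -- vertices at one time
      intro t
      by_cases ht : α < t ∧ t < β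
      · refine le_trans (card_le_card ?_) ((S.card_level C hG hgood t ht.1 ht.2).trans hk)
        intro v hv
        obtain ⟨h1, h2⟩ := mem_filter.1 hv
        exact mem_filter.2 ⟨(mem_filter.1 h1).1, h2⟩
      · have : ((S.VV G).filter fun v => α < S.x v ∧ S.x v < β).filter (fun v => S.x v = t) = ∅ := by
          by_contra hne
          obtain ⟨v, hv⟩ := nonempty_iff_ne_empty.2 hne
          obtain ⟨h1, h2⟩ := mem_filter.1 hv
          have h3 := (mem_filter.1 h1).2
          rw [h2] at h3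
          exact ht h3
        rw [this, card_empty]
        exact Nat.zero_le _
    · -- slabs
      intro a b ha hab hb hsmall
      have haβ : a < β := lt_of_lt_of_le hab hb
      have hGab : S.Closed G a b := hG.mono S ha hb
      have hgood' : ∀ v ∈ S.VV G, a < S.x v → S.x v < b → S.Good C v := fun v hv h1 h2 =>
        hgood v hv (lt_of_le_of_lt ha h1) (lt_of_lt_of_le h2 hb)
      have hEa : S.En (S.Ap a ∩ G) = s := hec.1 a ha haβ
      have hKa : (S.Ap a ∩ G).card ≤ k + 1 := by rw [hcc.1 a ha haβ]; exact hk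
      obtain ⟨w, hw, e0, he0, f0, hf0, hsp⟩ := S.exists_spread (S.Ap a ∩ G) k hKa (by rw [hEa]; exact hpos)
      rw [hEa] at hsp
      obtain ⟨i, hi, hgap⟩ := gap (S.Ap a ∩ G) w (k + 1) hKa (w e0) g
      set c0 := w e0 + i * g with hc0
      have hi' : (i:ℝ) ≤ k + 1 := by exact_mod_cast hi
      have hc0e : w e0 ≤ c0 := by
        have : 0 ≤ (i:ℝ) * g := by positivity
        linarith
      have hc0f : c0 + g ≤ w f0 := by
        have h1 : (k + 2 : ℝ) * g = σ / (2 * (k + 1)) := by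
          rw [hgdef]; field_simp
        have h2 : (i:ℝ) * g ≤ (k + 1) * g := mul_le_mul_of_nonneg_right hi' hgpos.le
        rw [hσ] at h1
        have h3 : (k + 2 : ℝ) * g = (k + 1) * g + g := by ring
        linarith
      have H0 : ∀ e ∈ S.Ap a ∩ G, w e ≤ c0 ∨ c0 + g ≤ w e := by
        intro e he
        by_contra hcon
        push Not at hcon
        refine hgap e he hcon.1 ?_
        have : w e0 + (↑i + 1) * g = c0 + g := by rw [hc0]; ring
        rw [this]
        exact hcon.2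
      have hsum : (C:ℝ) * ∑ v ∈ (S.VV G).filter (fun v => a < S.x v ∧ S.x v < b), S.S0 v < g / 4 := by
        have := mul_lt_mul_of_pos_left hsmall hC0
        have h2 : (C:ℝ) * (g / (4 * C)) = g / 4 := by field_simp
        rw [h2] at this
        exact this
      have hcl2 := S.split_gap C hC0 hGab w hw c0 g hgpos (fun v hv h1 h2 _ => hgood' v hv h1 h2)
        (fun v hv h1 h2 _ => hgood' v hv h1 h2) H0 hsum
      have hcl1 := S.closed_compl hGab w _ hcl2
      have hVVsub : ∀ G' : Finset E, G' ⊆ G → S.VV G' ⊆ S.VV G := by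
        intro G' hG' v hv
        obtain ⟨h1, e, h2, h3⟩ := mem_filter.1 hv
        exact mem_filter.2 ⟨h1, e, h2, hG' h3⟩
      have hsub2 : hiG G w (c0 + g / 2) ⊆ G := fun e he => (mem_hiG.1 he).1
      have hsub1 : loG G w (c0 + g / 2) ⊆ G := fun e he => (mem_loG.1 he).1
      have hk2 : (S.Ap a ∩ hiG G w (c0 + g / 2)).card ≤ k := by
        have : (S.Ap a ∩ hiG G w (c0 + g / 2)) ⊆ (S.Ap a ∩ G).erase e0 := by
          intro e he
          obtain ⟨h1, h2⟩ := mem_inter.1 he
          obtain ⟨h3, h4⟩ := mem_hiG.1 h2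
          refine mem_erase.2 ⟨?_, mem_inter.2 ⟨h1, h3⟩⟩
          intro h
          rw [h] at h4
          linarith
        have h5 := card_le_card this
        rw [card_erase_of_mem he0] at h5
        omega
      have hk1 : (S.Ap a ∩ loG G w (c0 + g / 2)).card ≤ k := by
        have : (S.Ap a ∩ loG G w (c0 + g / 2)) ⊆ (S.Ap a ∩ G).erase f0 := by
          intro e he
          obtain ⟨h1, h2⟩ := mem_inter.1 he
          obtain ⟨h3, h4⟩ := mem_loG.1 h2
          refine mem_erase.2 ⟨?_, mem_inter.2 ⟨h1, h3⟩⟩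
          intro h
          rw [h] at h4
          linarith
        have h5 := card_le_card this
        rw [card_erase_of_mem hf0] at h5
        omega
      have hr2 := ih (hiG G w (c0 + g / 2)) a b hab hcl2
        (fun v hv => hgood' v (hVVsub _ hsub2 hv)) hk2
      have hr1 := ih (loG G w (c0 + g / 2)) a b hab hcl1
        (fun v hv => hgood' v (hVVsub _ hsub1 hv)) hk1
      have hsub : ((S.VV G).filter fun v => α < S.x v ∧ S.x v < β).filter (fun v => a < S.x v ∧ S.x v < b) ⊆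
          ((S.VV (hiG G w (c0 + g / 2))).filter fun v => a < S.x v ∧ S.x v < b) ∪
          ((S.VV (loG G w (c0 + g / 2))).filter fun v => a < S.x v ∧ S.x v < b) := by
        intro v hv
        obtain ⟨h1, h2⟩ := mem_filter.1 hv
        obtain ⟨h3, e, h4, h5⟩ := mem_filter.1 (mem_filter.1 h1).1
        by_cases hwe : c0 + g / 2 ≤ w e
        · exact mem_union_left _ (mem_filter.2 ⟨mem_filter.2 ⟨h3, e, h4, mem_hiG.2 ⟨h5, hwe⟩⟩, h2⟩)
        · exact mem_union_right _ (mem_filter.2 ⟨mem_filter.2 ⟨h3, e, h4, mem_loG.2 ⟨h5, not_le.1 hwe⟩⟩, h2⟩)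
      have := (card_le_card hsub).trans (card_union_le _ _)
      rw [two_mul]
      exact this.trans (Nat.add_le_add hr2 hr1)
    · -- total
      refine lt_of_le_of_lt htot ?_
      have h1 : (m:ℝ) * (g / (4 * C)) = (k + 1) ^ 2 * σ := by
        rw [hm, hgdef]
        push_cast
        field_simp
        ring
      have h2 : 0 < g / (4 * C) := by positivity
      rw [add_mul, one_mul, h1]
      linarith

end Sys
end Pool.Agent.H888R2.GN
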