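import Mathlib
import Pool.Agent.H888R2.GN4

set_option autoImplicit false
set_option linter.unusedSectionVars false

namespace Pool.Agent.H888R2.GN

open Finset
open scoped Classical

namespace Sys

section
variable {V E : Type} [Fintype V] [Fintype E] (S : Sys V E)

theorem p_le_one (e : E) : S.p e ≤ 1 := by
  have h1 := S.hN e
  have h2 := S.hp e
  nlinarith [sq_nonneg (S.q e), sq_nonneg (S.r e)]

theorem fast_card (A : Finset E) (M : ℕ) (h : ∑ e ∈ A, S.p e ≤ M) :
    (A.filter fun e => 9 / 10 ≤ S.p e).card ≤ 2 * M := by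
  have h1 : ∑ e ∈ A.filter (fun e => 9 / 10 ≤ S.p e), (9 / 10 : ℝ) ≤ ∑ e ∈ A, S.p e := by
    calc ∑ e ∈ A.filter (fun e => 9 / 10 ≤ S.p e), (9 / 10 : ℝ)
        ≤ ∑ e ∈ A.filter (fun e => 9 / 10 ≤ S.p e), S.p e :=
          sum_le_sum fun e he => (mem_filter.1 he).2
      _ ≤ _ := sum_le_sum_of_subset_of_nonneg (filter_subset _ _) fun e _ _ => (S.hp e).le
  rw [sum_const, nsmul_eq_mul] at h1
  have h2 : (((A.filter fun e => 9 / 10 ≤ S.p e).card : ℕ) : ℝ) ≤ ((2 * M : ℕ) : ℝ) := by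
    push_cast
    have h3 : (0:ℝ) ≤ M := Nat.cast_nonneg M
    linarith
  exact_mod_cast h2

end

/-- **Sweep theorem.** -/
theorem sweep_bound (C : ℕ) (hC : 1 ≤ C) (η₁ : ℝ) (hη₁ : 0 < η₁) (M : ℕ) :
    ∃ T : ℕ, ∀ (V E : Type) [Fintype V] [Fintype E] (S : Sys V E) (α β : ℝ), α < β →
      (S.Ap α).card ≤ M → (S.Am β).card ≤ M →
      (∀ v ∈ S.B, α < S.x v → S.x v < β → S.S0 v ≤ η₁ → (∃ e, S.inc e v ∧ 19 / 20 ≤ S.p e) →
        ∀ f, S.inc f v → 9 / 10 ≤ S.p f) →
      (∀ v ∈ S.B, α < S.x v → S.x v < β → ∀ e f,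
        ((S.src e = v ∧ S.src f = v) ∨ (S.dst e = v ∧ S.dst f = v)) → 9 / 10 ≤ S.p e → 9 / 10 ≤ S.p f →
        S.dN e f ≤ (C:ℝ) ^ 2 * S.om e f ^ 2) →
      (S.B.filter fun v => (α < S.x v ∧ S.x v < β) ∧ ∃ e, S.inc e v ∧ 99 / 100 ≤ S.p e).card ≤ T := by
  have hC0 : (0:ℝ) < C := by exact_mod_cast hC
  have hC1 : (1:ℝ) ≤ C := by exact_mod_cast hC
  set g : ℝ := (1 / 25) / (2 * M + 1) with hg
  have hgpos : 0 < g := by positivity
  have hgle : g ≤ 1 / 25 := by
    rw [hg]
    apply div_le_self (by norm_num)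
    have : (0:ℝ) ≤ M := Nat.cast_nonneg M
    linarith
  set η : ℝ := min η₁ (g / (4 * C ^ 2)) with hη
  have hηpos : 0 < η := lt_min hη₁ (by positivity)
  set m := ⌈(M:ℝ) ^ 2 / η⌉₊ with hm
  refine ⟨(m + 1) * NN C (2 * M) + m * (4 * M), ?_⟩
  intro V E _ _ S α β hαβ hAp hAm hV1 hV2
  have hGu : S.Closed univ α β := fun _ _ _ _ _ f _ _ _ => mem_univ f
  have hflux := S.conserve S.p hGu (fun v hv _ _ => S.balp v (mem_filter.1 hv).1)
  simp only [inter_univ] at hflux
  have hflux0 : ∑ e ∈ S.Ap α, S.p e ≤ M := by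
    calc ∑ e ∈ S.Ap α, S.p e ≤ ∑ e ∈ S.Ap α, (1:ℝ) := sum_le_sum fun e _ => S.p_le_one e
      _ = (S.Ap α).card := by rw [sum_const, nsmul_eq_mul, mul_one]
      _ ≤ M := by exact_mod_cast hAp
  have htot : ∑ v ∈ (S.VV univ).filter (fun v => α < S.x v ∧ S.x v < β), S.S0 v ≤ (M:ℝ) ^ 2 := by
    have h1 := S.sum_S0_le hGu hαβ
    have h2 := S.Jp_bound univ α 1 (fun e _ f _ => S.om_le_one e f)
    have h3 := S.Jm_bound univ β 1 (fun e _ f _ => S.om_le_one e f)
    rw [inter_univ] at h2 h3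
    have h4 := abs_le.1 h2
    have h5 := abs_le.1 h3
    have h6 : ((S.Ap α).card : ℝ) ^ 2 ≤ (M:ℝ) ^ 2 :=
      pow_le_pow_left₀ (Nat.cast_nonneg _) (by exact_mod_cast hAp) 2
    have h7 : ((S.Am β).card : ℝ) ^ 2 ≤ (M:ℝ) ^ 2 :=
      pow_le_pow_left₀ (Nat.cast_nonneg _) (by exact_mod_cast hAm) 2
    linarith [h4.1, h5.2]
  set QQ := S.B.filter fun v => (α < S.x v ∧ S.x v < β) ∧ ∃ e, S.inc e v ∧ 99 / 100 ≤ S.p e with hQQ
  have hfin := slab_count S.x S.S0 S.S0_nonneg (S.VV univ) QQ η (NN C (2 * M)) (4 * M) ?_ m α β hαβ ?_ ?_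
  · have e1 : QQ.filter (fun v => α < S.x v ∧ S.x v < β) = QQ := by
      apply filter_true_of_mem
      intro v hv
      exact (mem_filter.1 hv).2.1
    rw [e1] at hfin
    exact hfin
  · -- vertices at one time
    intro t
    rcases (QQ.filter fun v => S.x v = t).eq_empty_or_nonempty with h0 | ⟨v0, hv0⟩
    · rw [h0, card_empty]; exact Nat.zero_le _
    have ht : α < t ∧ t < β := by
      obtain ⟨h1, h2⟩ := mem_filter.1 hv0
      have := (mem_filter.1 h1).2.1
      rw [h2] at this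
      exact this
    have hex : ∀ v ∈ QQ.filter (fun v => S.x v = t), ∃ e, S.inc e v ∧ 99 / 100 ≤ S.p e := by
      intro v hv
      exact (mem_filter.1 (mem_filter.1 hv).1).2.2
    obtain ⟨e0, -⟩ := hex v0 hv0
    have : Nonempty E := ⟨e0⟩
    choose! φ hφ1 hφ2 using hex
    have hsplit : QQ.filter (fun v => S.x v = t) ⊆
        (QQ.filter (fun v => S.x v = t)).filter (fun v => S.src (φ v) = v) ∪
        (QQ.filter (fun v => S.x v = t)).filter (fun v => S.dst (φ v) = v) := by
      intro v hv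
      rcases hφ1 v hv with h | h
      · exact mem_union_left _ (mem_filter.2 ⟨hv, h⟩)
      · exact mem_union_right _ (mem_filter.2 ⟨hv, h⟩)
    have hc1 : ((QQ.filter (fun v => S.x v = t)).filter (fun v => S.src (φ v) = v)).card ≤ 2 * M := by
      refine le_trans ?_ (S.fast_card (S.Ap t) M (by rw [hflux.1 t ht.1.le ht.2]; exact hflux0))
      apply card_le_card_of_injOn φ
      · intro v hv
        obtain ⟨h1, h2⟩ := mem_filter.1 (show v ∈ (QQ.filter (fun v => S.x v = t)).filter (fun v => S.src (φ v) = v) from hv)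
        obtain ⟨h3, h4⟩ := mem_filter.1 h1
        have hvB := (mem_filter.1 h3).1
        apply mem_filter.2
        refine ⟨?_, ?_⟩
        · rw [Ap_eq, mem_union]
          right
          exact mem_filter.2 ⟨mem_univ _, by rw [h2]; exact hvB, by rw [h2]; exact h4⟩
        · have := hφ2 v h1
          linarith
      · intro v hv u hu huv
        have h1 := (mem_filter.1 (show v ∈ (QQ.filter (fun v => S.x v = t)).filter (fun v => S.src (φ v) = v) from hv)).2
        have h2 := (mem_filter.1 (show u ∈ (QQ.filter (fun v => S.x v = t)).filter (fun v => S.src (φ v) = v) from hu)).2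
        rw [← h1, ← h2, huv]
    have hc2 : ((QQ.filter (fun v => S.x v = t)).filter (fun v => S.dst (φ v) = v)).card ≤ 2 * M := by
      refine le_trans ?_ (S.fast_card (S.Am t) M (by rw [hflux.2 t ht.1 ht.2.le]; exact hflux0))
      apply card_le_card_of_injOn φ
      · intro v hv
        obtain ⟨h1, h2⟩ := mem_filter.1 (show v ∈ (QQ.filter (fun v => S.x v = t)).filter (fun v => S.dst (φ v) = v) from hv)
        obtain ⟨h3, h4⟩ := mem_filter.1 h1
        have hvB := (mem_filter.1 h3).1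
        apply mem_filter.2
        refine ⟨?_, ?_⟩
        · rw [Am_eq, mem_union]
          right
          exact mem_filter.2 ⟨mem_univ _, by rw [h2]; exact hvB, by rw [h2]; exact h4⟩
        · have := hφ2 v h1
          linarith
      · intro v hv u hu huv
        have h1 := (mem_filter.1 (show v ∈ (QQ.filter (fun v => S.x v = t)).filter (fun v => S.dst (φ v) = v) from hv)).2
        have h2 := (mem_filter.1 (show u ∈ (QQ.filter (fun v => S.x v = t)).filter (fun v => S.dst (φ v) = v) from hu)).2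
        rw [← h1, ← h2, huv]
    have := (card_le_card hsplit).trans (card_union_le _ _)
    omega
  · -- slabs
    intro a b ha hab hb hsmall
    have haβ : a < β := lt_of_lt_of_le hab hb
    have hGab : S.Closed univ a b := hGu.mono S ha hb
    obtain ⟨i, hi, hgap⟩ := gap ((S.Ap a).filter fun e => 9 / 10 ≤ S.p e) S.p (2 * M)
      (S.fast_card _ M (by rw [hflux.1 a ha haβ]; exact hflux0)) (19 / 20) g
    set c0 : ℝ := 19 / 20 + i * g with hc0
    have hi' : (i:ℝ) ≤ 2 * M := by exact_mod_cast hi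
    have hc0a : 19 / 20 ≤ c0 := by
      have : 0 ≤ (i:ℝ) * g := by positivity
      linarith
    have hc0b : c0 + g ≤ 99 / 100 := by
      have h1 : (2 * M + 1 : ℝ) * g = 1 / 25 := by
        rw [hg]; field_simp
      have h2 : (i:ℝ) * g ≤ (2 * M) * g := mul_le_mul_of_nonneg_right hi' hgpos.le
      have h3 : (2 * M + 1 : ℝ) * g = 2 * M * g + g := by ring
      linarith
    have hS0 : ∀ v ∈ S.VV univ, a < S.x v → S.x v < b → S.S0 v < η := by
      intro v hv h1 h2
      refine lt_of_le_of_lt ?_ hsmall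
      exact single_le_sum (f := fun v => S.S0 v) (fun v _ => S.S0_nonneg v) (mem_filter.2 ⟨hv, h1, h2⟩)
    have hgood : ∀ v ∈ S.VV univ, a < S.x v → S.x v < b → (∃ e, S.inc e v ∧ 19 / 20 ≤ S.p e) →
        S.Good C v := by
      intro v hv h1 h2 he
      have h3 := hS0 v hv h1 h2
      have h4 := lt_of_le_of_lt ha h1
      have h5 := lt_of_lt_of_le h2 hb
      have hvB := (mem_filter.1 hv).1
      have hall := hV1 v hvB h4 h5 (h3.le.trans (min_le_left _ _)) he
      refine ⟨?_, ?_⟩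
      · intro e f hef
        apply hV2 v hvB h4 h5 e f hef
        · rcases hef with h | h
          · exact hall e (Or.inl h.1)
          · exact hall e (Or.inr h.1)
        · rcases hef with h | h
          · exact hall f (Or.inl h.2)
          · exact hall f (Or.inr h.2)
      · have h6 : S.S0 v < g / (4 * C ^ 2) := lt_of_lt_of_le h3 (min_le_right _ _)
        calc (C:ℝ) ^ 2 * S.S0 v < (C:ℝ) ^ 2 * (g / (4 * C ^ 2)) := mul_lt_mul_of_pos_left h6 (by positivity)
          _ = g / 4 := by field_simp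
          _ < 1 := by linarith
    have H0 : ∀ e ∈ S.Ap a ∩ univ, S.p e ≤ c0 ∨ c0 + g ≤ S.p e := by
      intro e he
      by_contra hcon
      push Not at hcon
      have he' : e ∈ S.Ap a := (mem_inter.1 he).1
      refine hgap e (mem_filter.2 ⟨he', by linarith [hcon.1]⟩) hcon.1 ?_
      have : 19 / 20 + (↑i + 1) * g = c0 + g := by rw [hc0]; ring
      rw [this]
      exact hcon.2
    have hsum : (C:ℝ) * ∑ v ∈ (S.VV univ).filter (fun v => a < S.x v ∧ S.x v < b), S.S0 v < g / 4 := by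
      have h1 := lt_of_lt_of_le hsmall (min_le_right η₁ (g / (4 * C ^ 2)))
      have h2 := mul_lt_mul_of_pos_left h1 hC0
      refine h2.trans_le ?_
      have h3 : (C:ℝ) * (g / (4 * C ^ 2)) = (g / 4) / C := by field_simp
      rw [h3]
      exact div_le_self (by positivity) hC1
    have hcl := S.split_gap C hC0 hGab S.p (Or.inl rfl) c0 g hgpos
      (fun v hv h1 h2 ⟨e, he1, he2, _⟩ => hgood v hv h1 h2 ⟨e, he1, by linarith⟩)
      (fun v hv h1 h2 ⟨e, he1, he2⟩ => hgood v hv h1 h2 ⟨e, he1, by linarith⟩) H0 hsum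
    have hpart := S.particle C hC (2 * M) (hiG univ S.p (c0 + g / 2)) a b hab hcl (by
      intro v hv h1 h2
      obtain ⟨hvB, e, he, heG⟩ := mem_filter.1 hv
      have hpe := (mem_hiG.1 heG).2
      exact hgood v (mem_filter.2 ⟨hvB, e, he, mem_univ _⟩) h1 h2 ⟨e, he, by linarith⟩) (by
      refine le_trans (card_le_card ?_) (S.fast_card (S.Ap a) M (by rw [hflux.1 a ha haβ]; exact hflux0))
      intro e he
      obtain ⟨h1, h2⟩ := mem_inter.1 he
      have := (mem_hiG.1 h2).2
      exact mem_filter.2 ⟨h1, by linarith⟩)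
    refine le_trans (card_le_card ?_) hpart
    intro v hv
    obtain ⟨h1, h2⟩ := mem_filter.1 hv
    obtain ⟨h3, -, e, h5, h6⟩ := mem_filter.1 h1
    refine mem_filter.2 ⟨mem_filter.2 ⟨h3, e, h5, mem_hiG.2 ⟨mem_univ _, by linarith⟩⟩, h2⟩
  · -- total
    refine lt_of_le_of_lt htot ?_
    have h1 : (M:ℝ) ^ 2 / η ≤ m := Nat.le_ceil _
    rw [div_le_iff₀ hηpos] at h1
    linarith

end Sys
end Pool.Agent.H888R2.GN
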