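import Mathlib
import Pool.Agent.H888R2.GN5

set_option autoImplicit false
set_option linter.unusedSectionVars false

namespace Pool.Agent.H888R2.GN

open Finset
open scoped Classical

namespace Sys
variable {V E : Type} [Fintype V] [Fintype E] (S : Sys V E)

theorem om_row_le (A : Finset E) {f : E} (hf : f ∈ A) :
    ∑ f' ∈ A, |S.om f f'| ≤ (∑ e ∈ A, ∑ f ∈ A, |S.om e f|) / 2 := by
  have h1 : ∑ e ∈ A, ∑ f' ∈ A, |S.om e f'| =
      ∑ e ∈ A.erase f, ∑ f' ∈ A, |S.om e f'| + ∑ f' ∈ A, |S.om f f'| := by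
    rw [add_comm]
    exact (add_sum_erase A (fun e => ∑ f' ∈ A, |S.om e f'|) hf).symm
  have h2 : ∑ e ∈ A.erase f, |S.om e f| ≤ ∑ e ∈ A.erase f, ∑ f' ∈ A, |S.om e f'| := by
    apply sum_le_sum
    intro e _
    exact single_le_sum (f := fun f' => |S.om e f'|) (fun _ _ => abs_nonneg _) hf
  have h3 : ∑ f' ∈ A, |S.om f f'| = ∑ e ∈ A.erase f, |S.om e f| := by
    rw [← add_sum_erase A (fun e => |S.om f e|) hf, om_self, abs_zero, zero_add]
    apply sum_congr rfl
    intro e _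
    rw [S.om_comm e f, abs_neg]
  linarith

theorem om_sum_le (A : Finset E) {f : E} (hf : f ∈ A) :
    |S.p f * ∑ e ∈ A, S.q e - S.q f * ∑ e ∈ A, S.p e| ≤ (∑ e ∈ A, ∑ f ∈ A, |S.om e f|) / 2 := by
  have h1 : S.p f * ∑ e ∈ A, S.q e - S.q f * ∑ e ∈ A, S.p e = ∑ e ∈ A, S.om f e := by
    rw [mul_sum, mul_sum, ← sum_sub_distrib]
    rfl
  rw [h1]
  exact (abs_sum_le_sum_abs _ _).trans (S.om_row_le A hf)

theorem om_sum_inc {v : V} (hv : v ∈ S.B) {f : E} (hf : S.inc f v) :
    |S.p f * ∑ e with S.src e = v, S.q e - S.q f * ∑ e with S.src e = v, S.p e| ≤ S.S0 v := by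
  rcases hf with hf | hf
  · exact (S.om_sum_le _ (mem_filter.2 ⟨mem_univ _, hf⟩)).trans (S.S0_parts).1
  · rw [S.balp v hv, S.balq v hv]
    exact (S.om_sum_le _ (mem_filter.2 ⟨mem_univ _, hf⟩)).trans (S.S0_parts).2

/-- planar systems: fans with a small interaction are narrow -/
theorem fan_narrow (hr : ∀ e, S.r e = 0) {v : V} (hv : v ∈ S.B) (hS : S.S0 v ≤ 1 / 50)
    (he : ∃ e, S.inc e v ∧ 19 / 20 ≤ S.p e) : ∀ f, S.inc f v → 9 / 10 ≤ S.p f := by
  obtain ⟨e, he, hpe⟩ := he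
  intro f hf
  have h1 := S.om_sum_inc hv he
  have h2 := S.om_sum_inc hv hf
  set sq := ∑ e with S.src e = v, S.q e with hsq
  set sp := ∑ e with S.src e = v, S.p e with hsp
  have hsp1 : 19 / 20 ≤ sp := by
    rcases he with he | he
    · have := single_le_sum (f := fun e => S.p e) (s := univ.filter fun e => S.src e = v)
        (fun e _ => (S.hp e).le) (mem_filter.2 ⟨mem_univ e, he⟩)
      exact hpe.trans this
    · rw [hsp, S.balp v hv]
      have := single_le_sum (f := fun e => S.p e) (s := univ.filter fun e => S.dst e = v)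
        (fun e _ => (S.hp e).le) (mem_filter.2 ⟨mem_univ e, he⟩)
      exact hpe.trans this
  have hNe := S.hN e
  have hNf := S.hN f
  rw [hr e] at hNe
  rw [hr f] at hNf
  have hpf := S.hp f
  have hpe1 := S.p_le_one e
  have hpf1 := S.p_le_one f
  have hqe : |S.q e| ≤ 313 / 1000 := by
    apply abs_le_of_sq_le_sq _ (by norm_num)
    nlinarith
  -- slope of the sum
  have h3 : |sq| * S.p e ≤ 1 / 50 + 313 / 1000 * sp := by
    have : |sq| * S.p e = |S.p e * sq| := by rw [abs_mul, abs_of_pos (S.hp e)]; ring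
    rw [this]
    have h4 : |S.p e * sq| ≤ |S.p e * sq - S.q e * sp| + |S.q e * sp| := by
      have := abs_add_le (S.p e * sq - S.q e * sp) (S.q e * sp)
      simpa using this
    have h5 : |S.q e * sp| ≤ 313 / 1000 * sp := by
      rw [abs_mul, abs_of_pos (by linarith : 0 < sp)]
      exact mul_le_mul_of_nonneg_right hqe (by linarith)
    linarith
  have h6 : |sq| ≤ (1 / 50 + 313 / 1000 * sp) * (20 / 19) := by
    have h7 : |sq| * (19 / 20) ≤ |sq| * S.p e := mul_le_mul_of_nonneg_left hpe (abs_nonneg _)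
    linarith
  have h8 : |S.q f| * sp ≤ 1 / 50 + |sq| := by
    have : |S.q f| * sp = |S.q f * sp| := by rw [abs_mul, abs_of_pos (by linarith : 0 < sp)]
    rw [this]
    have h9 : |S.q f * sp| ≤ |S.p f * sq - S.q f * sp| + |S.p f * sq| := by
      have := abs_sub (S.p f * sq) (S.p f * sq - S.q f * sp)
      have h10 : S.p f * sq - (S.p f * sq - S.q f * sp) = S.q f * sp := by ring
      rw [h10] at this
      linarith
    have h11 : |S.p f * sq| ≤ |sq| := by
      rw [abs_mul, abs_of_pos hpf]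
      nlinarith [abs_nonneg sq]
    linarith
  have h12 : |S.q f| ≤ 2 / 5 := by
    by_contra hcon
    rw [not_le] at hcon
    have : 2 / 5 * sp ≤ |S.q f| * sp := mul_le_mul_of_nonneg_right hcon.le (by linarith)
    linarith
  have h13 : S.q f ^ 2 ≤ (2 / 5) ^ 2 := by
    rw [← sq_abs]
    exact pow_le_pow_left₀ (abs_nonneg _) h12 2
  nlinarith

/-- planar systems: comparison of momenta and interaction -/
theorem cmp_planar (hr : ∀ e, S.r e = 0) {e f : E} (he : 9 / 10 ≤ S.p e) (hf : 9 / 10 ≤ S.p f) :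
    S.dN e f ≤ ((2:ℕ):ℝ) ^ 2 * S.om e f ^ 2 := by
  have hNe := S.hN e
  have hNf := S.hN f
  rw [hr e] at hNe
  rw [hr f] at hNf
  rw [dN_eq, hr e, hr f]
  set c := S.p e * S.p f + S.q e * S.q f with hc
  have hom : S.om e f ^ 2 = 1 - c ^ 2 := by
    have : S.om e f ^ 2 + c ^ 2 = (S.p e ^ 2 + S.q e ^ 2) * (S.p f ^ 2 + S.q f ^ 2) := by
      rw [hc]; unfold om; ring
    have h1 : S.p e ^ 2 + S.q e ^ 2 = 1 := by linarith
    have h2 : S.p f ^ 2 + S.q f ^ 2 = 1 := by linarith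
    rw [h1, h2] at this
    linarith
  have hc1 : c ≤ 1 := by nlinarith [sq_nonneg (S.om e f)]
  have hpp : 81 / 100 ≤ S.p e * S.p f := by nlinarith
  have hqe : S.q e ^ 2 ≤ 19 / 100 := by nlinarith
  have hqf : S.q f ^ 2 ≤ 19 / 100 := by nlinarith
  have hqq : - (19 / 100) ≤ S.q e * S.q f := by nlinarith [sq_nonneg (S.q e + S.q f)]
  have hc2 : 0 ≤ c := by linarith
  rw [hom]
  push_cast
  nlinarith

end Sys

/-- planar nets in coordinates -/
structure PNet (V : Type) where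
  X : V → ℝ
  Y : V → ℝ
  Adj : V → V → Prop
  symm : ∀ a b, Adj a b → Adj b a
  ne : ∀ a b, Adj a b → X a ≠ X b ∨ Y a ≠ Y b
  emb : ∀ v b b', Adj v b → Adj v b' → b ≠ b' → ∀ t : ℝ, 0 < t → X b - X v = t * (X b' - X v) →
    Y b - Y v = t * (Y b' - Y v) → False

namespace PNet

variable {V : Type} [Fintype V] (N : PNet V)

noncomputable def L (a b : V) : ℝ := Real.sqrt ((N.X b - N.X a) ^ 2 + (N.Y b - N.Y a) ^ 2)

theorem L_comm (a b : V) : N.L a b = N.L b a := by
  unfold L; congr 1; ring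

theorem L_sq (a b : V) : N.L a b ^ 2 = (N.X b - N.X a) ^ 2 + (N.Y b - N.Y a) ^ 2 := by
  unfold L; rw [Real.sq_sqrt (by positivity)]

theorem L_pos {a b : V} (h : N.Adj a b) : 0 < N.L a b := by
  unfold L
  apply Real.sqrt_pos.2
  rcases N.ne a b h with h | h
  · have : 0 < (N.X b - N.X a) ^ 2 := by
      have : N.X b - N.X a ≠ 0 := sub_ne_zero.2 (Ne.symm h)
      positivity
    positivity
  · have : 0 < (N.Y b - N.Y a) ^ 2 := by
      have : N.Y b - N.Y a ≠ 0 := sub_ne_zero.2 (Ne.symm h)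
      positivity
    positivity

noncomputable def nb (v : V) : Finset V := univ.filter fun w => N.Adj v w

theorem mem_nb {v w : V} : w ∈ N.nb v ↔ N.Adj v w := by simp [nb]

noncomputable def IX (v : V) : ℝ := ∑ w ∈ N.nb v, (N.X w - N.X v) / N.L v w

noncomputable def IY (v : V) : ℝ := ∑ w ∈ N.nb v, (N.Y w - N.Y v) / N.L v w

def Bal (v : V) : Prop := N.IX v = 0 ∧ N.IY v = 0

noncomputable def imb (v : V) : ℝ := Real.sqrt (N.IX v ^ 2 + N.IY v ^ 2)

/-- the flux through a level is bounded by the total imbalance -/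
theorem flux (h : V → ℝ) (c : V → ℝ) (hc0 : ∀ w, 0 ≤ c w)
    (hc : ∀ w, - ∑ u ∈ N.nb w, (h u - h w) / N.L w u ≤ c w) (v : V) :
    ∑ w ∈ (N.nb v).filter (fun w => h v < h w), (h w - h v) / N.L v w ≤ ∑ w, c w := by
  set a : V → V → ℝ := fun w u => if N.Adj w u then (h w - h u) / N.L w u else 0 with ha
  have hanti : ∀ w u, a w u = - a u w := by
    intro w u
    simp only [ha]
    by_cases hwu : N.Adj w u
    · rw [if_pos hwu, if_pos (N.symm _ _ hwu), N.L_comm u w, ← neg_div, neg_sub]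
    · rw [if_neg hwu, if_neg (fun h => hwu (N.symm _ _ h)), neg_zero]
  set U := univ.filter fun w => h v < h w with hU
  have h1 : ∀ w, ∑ u, a w u ≤ c w := by
    intro w
    refine le_trans (le_of_eq ?_) (hc w)
    rw [← sum_neg_distrib, nb, sum_filter]
    apply sum_congr rfl
    intro u _
    simp only [ha]
    split_ifs
    · rw [← neg_div, neg_sub]
    · rfl
  have h2 : ∑ w ∈ U, ∑ u ∈ U, a w u = 0 := by
    have : ∑ w ∈ U, ∑ u ∈ U, a w u = - ∑ w ∈ U, ∑ u ∈ U, a w u := by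
      calc ∑ w ∈ U, ∑ u ∈ U, a w u = ∑ w ∈ U, ∑ u ∈ U, - a u w :=
            sum_congr rfl fun w _ => sum_congr rfl fun u _ => hanti w u
        _ = - ∑ w ∈ U, ∑ u ∈ U, a u w := by simp only [sum_neg_distrib]
        _ = _ := by rw [sum_comm]
    linarith
  have h3 : ∀ w ∈ U, ∑ u, a w u = ∑ u ∈ U, a w u + ∑ u ∈ univ.filter (fun u => ¬ h v < h u), a w u := by
    intro w _
    rw [hU]
    exact (sum_filter_add_sum_filter_not _ _ _).symm
  have h4 : ∀ w ∈ U, a w v ≤ ∑ u ∈ univ.filter (fun u => ¬ h v < h u), a w u := by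
    intro w hw
    have hw' := (mem_filter.1 hw).2
    apply single_le_sum (f := fun u => a w u)
    · intro u hu
      have hu' := (mem_filter.1 hu).2
      rw [not_lt] at hu'
      simp only [ha]
      split_ifs with hadj
      · exact div_nonneg (by linarith) (N.L_pos hadj).le
      · exact le_rfl
    · exact mem_filter.2 ⟨mem_univ _, lt_irrefl _⟩
  have h5 : ∑ w ∈ U, a w v ≤ ∑ w ∈ U, ∑ u, a w u := by
    rw [sum_congr rfl h3, sum_add_distrib, h2, zero_add]
    exact sum_le_sum h4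
  have h6 : ∑ w ∈ (N.nb v).filter (fun w => h v < h w), (h w - h v) / N.L v w = ∑ w ∈ U, a w v := by
    rw [hU, nb, filter_filter]
    rw [sum_filter, sum_filter]
    apply sum_congr rfl
    intro w _
    simp only [ha]
    by_cases h7 : N.Adj v w
    · by_cases h8 : h v < h w
      · rw [if_pos ⟨h7, h8⟩, if_pos h8, if_pos (N.symm _ _ h7), N.L_comm w v]
      · rw [if_neg (fun h => h8 h.2), if_neg h8]
    · rw [if_neg (fun h => h7 h.1), if_neg (fun h => h7 (N.symm _ _ h))]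
      simp
  rw [h6]
  refine h5.trans ?_
  calc ∑ w ∈ U, ∑ u, a w u ≤ ∑ w ∈ U, c w := sum_le_sum fun w _ => h1 w
    _ ≤ _ := sum_le_sum_of_subset_of_nonneg (subset_univ _) fun w _ _ => hc0 w

theorem imb_nonneg (v : V) : 0 ≤ N.imb v := Real.sqrt_nonneg _

theorem IX_le (v : V) : |N.IX v| ≤ N.imb v := by
  unfold imb
  apply Real.abs_le_sqrt
  nlinarith [sq_nonneg (N.IY v)]

theorem IY_le (v : V) : |N.IY v| ≤ N.imb v := by
  unfold imb
  apply Real.abs_le_sqrt
  nlinarith [sq_nonneg (N.IX v)]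

/-- the degree is bounded by the total imbalance -/
theorem deg_le (v : V) : ((N.nb v).card : ℝ) ≤ 4 * ∑ w, N.imb w := by
  have h1 := N.flux N.X N.imb N.imb_nonneg (fun w => by
    have := abs_le.1 (N.IX_le w)
    unfold IX at this
    linarith [this.1]) v
  have h2 := N.flux (fun w => - N.X w) N.imb N.imb_nonneg (fun w => by
    have := abs_le.1 (N.IX_le w)
    have e : ∑ u ∈ N.nb w, (-N.X u - -N.X w) / N.L w u = - N.IX w := by
      unfold IX
      rw [← sum_neg_distrib]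
      apply sum_congr rfl; intro u _; ring
    rw [e]
    linarith [this.2]) v
  have h3 := N.flux N.Y N.imb N.imb_nonneg (fun w => by
    have := abs_le.1 (N.IY_le w)
    unfold IY at this
    linarith [this.1]) v
  have h4 := N.flux (fun w => - N.Y w) N.imb N.imb_nonneg (fun w => by
    have := abs_le.1 (N.IY_le w)
    have e : ∑ u ∈ N.nb w, (-N.Y u - -N.Y w) / N.L w u = - N.IY w := by
      unfold IY
      rw [← sum_neg_distrib]
      apply sum_congr rfl; intro u _; ring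
    rw [e]
    linarith [this.2]) v
  rw [sum_filter] at h1 h2 h3 h4
  have h5 : ((N.nb v).card : ℝ) ≤
      ∑ w ∈ N.nb v, (if N.X v < N.X w then (N.X w - N.X v) / N.L v w else 0) +
      ∑ w ∈ N.nb v, (if -N.X v < -N.X w then (-N.X w - -N.X v) / N.L v w else 0) +
      (∑ w ∈ N.nb v, (if N.Y v < N.Y w then (N.Y w - N.Y v) / N.L v w else 0) +
      ∑ w ∈ N.nb v, (if -N.Y v < -N.Y w then (-N.Y w - -N.Y v) / N.L v w else 0)) := by
    rw [← sum_add_distrib, ← sum_add_distrib, ← sum_add_distrib, card_eq_sum_ones, Nat.cast_sum]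
    apply sum_le_sum
    intro w hw
    have hL := N.L_pos (N.mem_nb.1 hw)
    have hLs := N.L_sq v w
    have e1 : (if N.X v < N.X w then (N.X w - N.X v) / N.L v w else 0) +
        (if -N.X v < -N.X w then (-N.X w - -N.X v) / N.L v w else 0) = |N.X w - N.X v| / N.L v w := by
      rcases lt_trichotomy (N.X v) (N.X w) with h | h | h
      · rw [if_pos h, if_neg (by linarith), abs_of_pos (by linarith)]; ring
      · rw [if_neg (by linarith), if_neg (by linarith), h]; simp
      · rw [if_neg (by linarith), if_pos (by linarith), abs_of_neg (by linarith)]; ring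
    have e2 : (if N.Y v < N.Y w then (N.Y w - N.Y v) / N.L v w else 0) +
        (if -N.Y v < -N.Y w then (-N.Y w - -N.Y v) / N.L v w else 0) = |N.Y w - N.Y v| / N.L v w := by
      rcases lt_trichotomy (N.Y v) (N.Y w) with h | h | h
      · rw [if_pos h, if_neg (by linarith), abs_of_pos (by linarith)]; ring
      · rw [if_neg (by linarith), if_neg (by linarith), h]; simp
      · rw [if_neg (by linarith), if_pos (by linarith), abs_of_neg (by linarith)]; ring
    rw [e1, e2, ← add_div, Nat.cast_one, le_div_iff₀ hL, one_mul]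
    apply abs_le_of_sq_le_sq' _ (by positivity) |>.2
    rw [hLs, ← sq_abs (N.X w - N.X v), ← sq_abs (N.Y w - N.Y v)]
    nlinarith [mul_nonneg (abs_nonneg (N.X w - N.X v)) (abs_nonneg (N.Y w - N.Y v))]
  linarith

/-! ### the strands for a direction -/

noncomputable def xx (θ : ℝ) (v : V) : ℝ := Real.cos θ * N.X v + Real.sin θ * N.Y v

noncomputable def yy (θ : ℝ) (v : V) : ℝ := - Real.sin θ * N.X v + Real.cos θ * N.Y v

theorem rot_sq (θ : ℝ) (a b : V) :
    (N.xx θ b - N.xx θ a) ^ 2 + (N.yy θ b - N.yy θ a) ^ 2 = N.L a b ^ 2 := by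
  rw [L_sq]
  unfold xx yy
  have := Real.sin_sq_add_cos_sq θ
  have e : (Real.cos θ * N.X b + Real.sin θ * N.Y b - (Real.cos θ * N.X a + Real.sin θ * N.Y a)) ^ 2 +
      (-Real.sin θ * N.X b + Real.cos θ * N.Y b - (-Real.sin θ * N.X a + Real.cos θ * N.Y a)) ^ 2 =
      (Real.sin θ ^ 2 + Real.cos θ ^ 2) * ((N.X b - N.X a) ^ 2 + (N.Y b - N.Y a) ^ 2) := by ring
  rw [e, this, one_mul]

theorem unrot (θ : ℝ) (a b : V) : N.X b - N.X a = Real.cos θ * (N.xx θ b - N.xx θ a) -
    Real.sin θ * (N.yy θ b - N.yy θ a) ∧ N.Y b - N.Y a = Real.sin θ * (N.xx θ b - N.xx θ a) +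
    Real.cos θ * (N.yy θ b - N.yy θ a) := by
  unfold xx yy
  have := Real.sin_sq_add_cos_sq θ
  constructor
  · linear_combination (-(N.X b - N.X a)) * this
  · linear_combination (-(N.Y b - N.Y a)) * this

/-- embeddedness in rotated coordinates -/
theorem emb_rot (θ : ℝ) {v b b' : V} (h1 : N.Adj v b) (h2 : N.Adj v b') (hne : b ≠ b')
    (hpos : 0 < (N.xx θ b - N.xx θ v) * (N.xx θ b' - N.xx θ v))
    (hcr : (N.xx θ b - N.xx θ v) * (N.yy θ b' - N.yy θ v) - (N.yy θ b - N.yy θ v) * (N.xx θ b' - N.xx θ v) = 0) :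
    False := by
  set A := N.xx θ b - N.xx θ v with hA
  set A' := N.xx θ b' - N.xx θ v with hA'
  set D := N.yy θ b - N.yy θ v with hD
  set D' := N.yy θ b' - N.yy θ v with hD'
  have hA'0 : A' ≠ 0 := by
    intro h
    rw [h, mul_zero] at hpos
    exact lt_irrefl _ hpos
  have ht : 0 < A / A' := by
    have : A / A' = (A * A') / A' ^ 2 := by field_simp
    rw [this]
    positivity
  have e1 : A = A / A' * A' := by field_simp
  have e2 : D = A / A' * D' := by
    field_simp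
    linarith
  obtain ⟨u1, u2⟩ := N.unrot θ v b
  obtain ⟨u3, u4⟩ := N.unrot θ v b'
  rw [← hA, ← hD] at u1 u2
  rw [← hA', ← hD'] at u3 u4
  refine N.emb v b b' h1 h2 hne (A / A') ht ?_ ?_
  · rw [u1, u3]
    calc Real.cos θ * A - Real.sin θ * D = Real.cos θ * (A / A' * A') - Real.sin θ * (A / A' * D') := by
          rw [← e1, ← e2]
      _ = _ := by ring
  · rw [u2, u4]
    calc Real.sin θ * A + Real.cos θ * D = Real.sin θ * (A / A' * A') + Real.cos θ * (A / A' * D') := by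
          rw [← e1, ← e2]
      _ = _ := by ring

def EE (θ : ℝ) : Type := {ab : V × V // N.Adj ab.1 ab.2 ∧ N.xx θ ab.1 < N.xx θ ab.2}

noncomputable instance (θ : ℝ) : Fintype (N.EE θ) := by unfold EE; infer_instance

theorem sum_src {R : Type} [AddCommMonoid R] (θ : ℝ) (φ : V → V → R) (v : V) :
    ∑ e ∈ univ.filter (fun e : N.EE θ => e.1.1 = v), φ e.1.1 e.1.2 =
      ∑ w ∈ (N.nb v).filter (fun w => N.xx θ v < N.xx θ w), φ v w := by
  refine sum_bij (fun (e : N.EE θ) _ => e.1.2) ?_ ?_ ?_ ?_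
  · intro e he
    have := (mem_filter.1 he).2
    refine mem_filter.2 ⟨N.mem_nb.2 ?_, ?_⟩
    · rw [← this]; exact e.2.1
    · rw [← this]; exact e.2.2
  · intro e he f hf hef
    apply Subtype.ext
    apply Prod.ext
    · rw [(mem_filter.1 he).2, (mem_filter.1 hf).2]
    · exact hef
  · intro w hw
    obtain ⟨h1, h2⟩ := mem_filter.1 hw
    exact ⟨⟨(v, w), N.mem_nb.1 h1, h2⟩, mem_filter.2 ⟨mem_univ _, rfl⟩, rfl⟩
  · intro e he
    rw [(mem_filter.1 he).2]

theorem sum_dst {R : Type} [AddCommMonoid R] (θ : ℝ) (φ : V → V → R) (v : V) :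
    ∑ e ∈ univ.filter (fun e : N.EE θ => e.1.2 = v), φ e.1.1 e.1.2 =
      ∑ w ∈ (N.nb v).filter (fun w => N.xx θ w < N.xx θ v), φ w v := by
  refine sum_bij (fun (e : N.EE θ) _ => e.1.1) ?_ ?_ ?_ ?_
  · intro e he
    have := (mem_filter.1 he).2
    refine mem_filter.2 ⟨N.mem_nb.2 ?_, ?_⟩
    · rw [← this]; exact N.symm _ _ e.2.1
    · rw [← this]; exact e.2.2
  · intro e he f hf hef
    apply Subtype.ext
    apply Prod.ext
    · exact hef
    · rw [(mem_filter.1 he).2, (mem_filter.1 hf).2]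
  · intro w hw
    obtain ⟨h1, h2⟩ := mem_filter.1 hw
    exact ⟨⟨(w, v), N.symm _ _ (N.mem_nb.1 h1), h2⟩, mem_filter.2 ⟨mem_univ _, rfl⟩, rfl⟩
  · intro e he
    rw [(mem_filter.1 he).2]

/-- generic directions -/
def Gen (θ : ℝ) : Prop := ∀ a b, N.Adj a b → N.xx θ a ≠ N.xx θ b

theorem nb_split (θ : ℝ) (hgen : N.Gen θ) (v : V) :
    (N.nb v).filter (fun w => ¬ N.xx θ v < N.xx θ w) = (N.nb v).filter (fun w => N.xx θ w < N.xx θ v) := by
  apply filter_congr
  intro w hw
  rw [not_lt]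
  constructor
  · intro h
    exact lt_of_le_of_ne h (Ne.symm (hgen v w (N.mem_nb.1 hw)))
  · exact fun h => h.le

theorem bal_aux (θ : ℝ) (hgen : N.Gen θ) (φ : V → V → ℝ) (hφ : ∀ a b, φ a b = - φ b a) (v : V)
    (h0 : ∑ w ∈ N.nb v, φ v w = 0) :
    ∑ e ∈ univ.filter (fun e : N.EE θ => e.1.1 = v), φ e.1.1 e.1.2 =
    ∑ e ∈ univ.filter (fun e : N.EE θ => e.1.2 = v), φ e.1.1 e.1.2 := by
  rw [sum_src, sum_dst]
  rw [← sum_filter_add_sum_filter_not (N.nb v) (fun w => N.xx θ v < N.xx θ w), N.nb_split θ hgen v] at h0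
  have : ∑ w ∈ (N.nb v).filter (fun w => N.xx θ w < N.xx θ v), φ w v =
      - ∑ w ∈ (N.nb v).filter (fun w => N.xx θ w < N.xx θ v), φ v w := by
    rw [← sum_neg_distrib]
    exact sum_congr rfl fun w _ => hφ w v
  linarith

noncomputable def PP (θ : ℝ) (a b : V) : ℝ := (N.xx θ b - N.xx θ a) / N.L a b

noncomputable def QQ (θ : ℝ) (a b : V) : ℝ := (N.yy θ b - N.yy θ a) / N.L a b

theorem PP_anti (θ : ℝ) (a b : V) : N.PP θ a b = - N.PP θ b a := by
  unfold PP; rw [N.L_comm b a]; ring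

theorem QQ_anti (θ : ℝ) (a b : V) : N.QQ θ a b = - N.QQ θ b a := by
  unfold QQ; rw [N.L_comm b a]; ring

theorem PP_sum (θ : ℝ) (v : V) : ∑ w ∈ N.nb v, N.PP θ v w = Real.cos θ * N.IX v + Real.sin θ * N.IY v := by
  unfold PP IX IY xx
  rw [mul_sum, mul_sum, ← sum_add_distrib]
  apply sum_congr rfl; intro w _; ring

theorem QQ_sum (θ : ℝ) (v : V) : ∑ w ∈ N.nb v, N.QQ θ v w = - Real.sin θ * N.IX v + Real.cos θ * N.IY v := by
  unfold QQ IX IY yy
  rw [mul_sum, mul_sum, ← sum_add_distrib]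
  apply sum_congr rfl; intro w _; ring

theorem PP_QQ (θ : ℝ) {a b : V} (h : N.Adj a b) : N.PP θ a b ^ 2 + N.QQ θ a b ^ 2 = 1 := by
  unfold PP QQ
  rw [div_pow, div_pow, ← add_div, rot_sq, div_self]
  have := N.L_pos h
  positivity

theorem QQ_div_PP (θ : ℝ) {a b : V} (h : N.Adj a b) (hx : N.xx θ a < N.xx θ b) :
    N.QQ θ a b / N.PP θ a b = (N.yy θ b - N.yy θ a) / (N.xx θ b - N.xx θ a) := by
  unfold PP QQ
  have := (N.L_pos h).ne'
  have : N.xx θ b - N.xx θ a ≠ 0 := by linarith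
  field_simp

/-- the system of strands of a planar net in a generic direction -/
noncomputable def sys (θ : ℝ) (hgen : N.Gen θ) (hdeg : ∀ v, N.Bal v → 3 ≤ (N.nb v).card) :
    Sys V (N.EE θ) where
  x := N.xx θ
  y := N.yy θ
  src e := e.1.1
  dst e := e.1.2
  hx e := e.2.2
  B := univ.filter fun v => N.Bal v
  p e := N.PP θ e.1.1 e.1.2
  q e := N.QQ θ e.1.1 e.1.2
  r _ := 0
  b e := N.yy θ e.1.1 - N.QQ θ e.1.1 e.1.2 / N.PP θ e.1.1 e.1.2 * N.xx θ e.1.1
  hp e := div_pos (by linarith [e.2.2]) (N.L_pos e.2.1)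
  hN e := by
    have := N.PP_QQ θ e.2.1
    linarith
  hs e := by ring
  hd e := by
    rw [N.QQ_div_PP θ e.2.1 e.2.2]
    have : N.xx θ e.1.2 - N.xx θ e.1.1 ≠ 0 := by linarith [e.2.2]
    field_simp
    ring
  balp v hv := by
    apply N.bal_aux θ hgen (N.PP θ) (N.PP_anti θ)
    have h := (mem_filter.1 hv).2
    rw [PP_sum, h.1, h.2]; ring
  balq v hv := by
    apply N.bal_aux θ hgen (N.QQ θ) (N.QQ_anti θ)
    have h := (mem_filter.1 hv).2
    rw [QQ_sum, h.1, h.2]; ring
  balr v hv := by simp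
  dis v _ e f hef hside := by
    intro h0
    have hLe := N.L_pos e.2.1
    have hLf := N.L_pos f.2.1
    have hcr : (N.xx θ e.1.2 - N.xx θ e.1.1) * (N.yy θ f.1.2 - N.yy θ f.1.1) -
        (N.yy θ e.1.2 - N.yy θ e.1.1) * (N.xx θ f.1.2 - N.xx θ f.1.1) = 0 := by
      unfold PP QQ at h0
      field_simp at h0
      linarith
    rcases hside with ⟨h1, h2⟩ | ⟨h1, h2⟩
    · refine N.emb_rot θ (v := v) (b := e.1.2) (b' := f.1.2) (by rw [← h1]; exact e.2.1)
        (by rw [← h2]; exact f.2.1) ?_ ?_ ?_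
      · intro h
        exact hef (Subtype.ext (Prod.ext (h1.trans h2.symm) h))
      · have a1 := e.2.2
        have a2 := f.2.2
        rw [h1] at a1
        rw [h2] at a2
        exact mul_pos (by linarith) (by linarith)
      · rw [h1, h2] at hcr
        exact hcr
    · refine N.emb_rot θ (v := v) (b := e.1.1) (b' := f.1.1) (by rw [← h1]; exact N.symm _ _ e.2.1)
        (by rw [← h2]; exact N.symm _ _ f.2.1) ?_ ?_ ?_
      · intro h
        exact hef (Subtype.ext (Prod.ext h (h1.trans h2.symm)))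
      · have a1 := e.2.2
        have a2 := f.2.2
        rw [h1] at a1
        rw [h2] at a2
        exact mul_pos_of_neg_of_neg (by linarith) (by linarith)
      · rw [h1, h2] at hcr
        linarith
  deg v hv := by
    have h1 := N.sum_src θ (fun _ _ => (1:ℕ)) v
    have h2 := N.sum_dst θ (fun _ _ => (1:ℕ)) v
    rw [← card_eq_sum_ones, ← card_eq_sum_ones] at h1 h2
    have h3 := hdeg v (mem_filter.1 hv).2
    have h4 := card_filter_add_card_filter_not (s := N.nb v) (fun w => N.xx θ v < N.xx θ w)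
    rw [N.nb_split θ hgen v] at h4
    omega

end PNet

end Pool.Agent.H888R2.GN
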