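import Mathlib
import Pool.Agent.H888R2.GN6

set_option autoImplicit false
set_option linter.unusedSectionVars false

namespace Pool.Agent.H888R2.GN

open Finset
open scoped Classical

theorem cover (φ ε : ℝ) : ∃ k : ℕ, k < 16 ∧ 99 / 100 ≤ |Real.cos (φ - (k * Real.pi / 16 + ε))| := by
  set t := (φ - ε) * 16 / Real.pi with ht
  set j : ℤ := round t with hj
  have hpi := Real.pi_pos
  have hpi2 := Real.pi_lt_d2
  have hr : |t - j| ≤ 1 / 2 := abs_sub_round t
  have hmod1 : 0 ≤ j % 16 := Int.emod_nonneg _ (by norm_num)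
  have hmod2 : j % 16 < 16 := Int.emod_lt_of_pos _ (by norm_num)
  refine ⟨(j % 16).toNat, by omega, ?_⟩
  have hk : (((j % 16).toNat : ℕ) : ℝ) = ((j % 16 : ℤ) : ℝ) := by
    have : (((j % 16).toNat : ℕ) : ℤ) = j % 16 := Int.toNat_of_nonneg hmod1
    exact_mod_cast this
  have hdiv : (j : ℝ) = 16 * ((j / 16 : ℤ) : ℝ) + ((j % 16 : ℤ) : ℝ) := by
    have : j = 16 * (j / 16) + j % 16 := (Int.mul_ediv_add_emod j 16).symm
    exact_mod_cast this
  have e1 : φ - (((j % 16).toNat : ℕ) * Real.pi / 16 + ε) =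
      (t - j) * (Real.pi / 16) + ((j / 16 : ℤ) : ℝ) * Real.pi := by
    rw [hk]
    have h1 : φ - ε = t * (Real.pi / 16) := by
      rw [ht]; field_simp
    have h2 : φ - (((j % 16 : ℤ) : ℝ) * Real.pi / 16 + ε) = (φ - ε) - ((j % 16 : ℤ) : ℝ) * Real.pi / 16 := by ring
    rw [h2, h1]
    have h3 : ((j % 16 : ℤ) : ℝ) = j - 16 * ((j / 16 : ℤ) : ℝ) := by linarith
    rw [h3]; ring
  rw [e1, Real.cos_add_int_mul_pi, abs_mul, abs_neg_one_zpow, one_mul]
  refine le_trans ?_ (le_abs_self _)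
  have h4 := Real.one_sub_sq_div_two_le_cos (x := (t - j) * (Real.pi / 16))
  have h5 : |(t - j) * (Real.pi / 16)| ≤ 1 / 10 := by
    rw [abs_mul, abs_of_pos (by positivity : 0 < Real.pi / 16)]
    calc |t - j| * (Real.pi / 16) ≤ 1 / 2 * (Real.pi / 16) := mul_le_mul_of_nonneg_right hr (by positivity)
      _ ≤ 1 / 10 := by linarith
  have h6 : ((t - j) * (Real.pi / 16)) ^ 2 ≤ (1 / 10) ^ 2 := by
    rw [← sq_abs]
    exact pow_le_pow_left₀ (abs_nonneg _) h5 2
  linarith

namespace PNet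

variable {V : Type} [Fintype V] (N : PNet V)

theorem exists_angle (a b : V) : ∃ φ : ℝ, N.X b - N.X a = N.L a b * Real.cos φ ∧
    N.Y b - N.Y a = N.L a b * Real.sin φ := by
  have h1 := Complex.norm_mul_cos_arg (⟨N.X b - N.X a, N.Y b - N.Y a⟩ : ℂ)
  have h2 := Complex.norm_mul_sin_arg (⟨N.X b - N.X a, N.Y b - N.Y a⟩ : ℂ)
  have h3 : ‖(⟨N.X b - N.X a, N.Y b - N.Y a⟩ : ℂ)‖ = N.L a b := by
    rw [Complex.norm_def, Complex.normSq_apply]
    unfold L
    congr 1
    ring
  rw [h3] at h1 h2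
  exact ⟨_, h1.symm, h2.symm⟩

theorem xx_sub (θ φ : ℝ) {a b : V} (h1 : N.X b - N.X a = N.L a b * Real.cos φ)
    (h2 : N.Y b - N.Y a = N.L a b * Real.sin φ) : N.xx θ b - N.xx θ a = N.L a b * Real.cos (φ - θ) := by
  rw [Real.cos_sub]
  unfold xx
  linear_combination Real.cos θ * h1 + Real.sin θ * h2

theorem exists_generic : ∃ ε : ℝ, ∀ k : ℕ, N.Gen (k * Real.pi / 16 + ε) := by
  set bad : Set ℝ := ⋃ (k : ℕ), ⋃ (a : V), ⋃ (b : V),
    {ε : ℝ | N.Adj a b ∧ N.xx (k * Real.pi / 16 + ε) a = N.xx (k * Real.pi / 16 + ε) b} with hbad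
  have hcount : bad.Countable := by
    apply Set.countable_iUnion; intro k
    apply Set.countable_iUnion; intro a
    apply Set.countable_iUnion; intro b
    obtain ⟨φ, h1, h2⟩ := N.exists_angle a b
    apply (Set.countable_range fun j : ℤ => φ - k * Real.pi / 16 - (2 * (j:ℝ) + 1) * Real.pi / 2).mono
    rintro ε ⟨hadj, heq⟩
    have h3 := N.xx_sub (k * Real.pi / 16 + ε) φ h1 h2
    rw [heq, sub_self] at h3
    have h4 : Real.cos (φ - (k * Real.pi / 16 + ε)) = 0 := by
      rcases mul_eq_zero.1 h3.symm with h | h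
      · exact absurd h (N.L_pos hadj).ne'
      · exact h
    obtain ⟨j, hj⟩ := Real.cos_eq_zero_iff.1 h4
    exact ⟨j, by
      simp only
      linarith⟩
  have hne : ∃ ε, ε ∉ bad := by
    by_contra hcon
    push Not at hcon
    have : bad = Set.univ := Set.eq_univ_of_forall hcon
    rw [this] at hcount
    exact Cardinal.not_countable_real hcount
  obtain ⟨ε, hε⟩ := hne
  refine ⟨ε, ?_⟩
  intro k a b hadj heq
  apply hε
  simp only [hbad, Set.mem_iUnion]
  exact ⟨k, a, b, hadj, heq⟩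

theorem card_edges_src (θ : ℝ) (P : V → Prop) (n d : ℕ) (hP : (univ.filter fun v => P v).card ≤ n)
    (hd : ∀ v, (N.nb v).card ≤ d) : (univ.filter fun e : N.EE θ => P e.1.1).card ≤ n * d := by
  have h1 : (univ.filter fun e : N.EE θ => P e.1.1).card =
      ∑ v ∈ univ.filter (fun v => P v), ((univ.filter fun e : N.EE θ => P e.1.1).filter fun e => e.1.1 = v).card :=
    card_eq_sum_card_fiberwise (fun e he => mem_filter.2 ⟨mem_univ _, (mem_filter.1 he).2⟩)
  rw [h1]
  calc ∑ v ∈ univ.filter (fun v => P v), ((univ.filter fun e : N.EE θ => P e.1.1).filter fun e => e.1.1 = v).card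
      ≤ ∑ v ∈ univ.filter (fun v => P v), d := by
        apply sum_le_sum
        intro v _
        have h2 : ((univ.filter fun e : N.EE θ => P e.1.1).filter fun e => e.1.1 = v).card ≤
            (univ.filter fun e : N.EE θ => e.1.1 = v).card := by
          apply card_le_card
          intro e he
          exact mem_filter.2 ⟨mem_univ _, (mem_filter.1 he).2⟩
        have h3 := N.sum_src θ (fun _ _ => (1:ℕ)) v
        rw [← card_eq_sum_ones, ← card_eq_sum_ones] at h3
        rw [h3] at h2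
        exact h2.trans ((card_filter_le _ _).trans (hd v))
    _ = (univ.filter fun v => P v).card * d := by rw [sum_const, smul_eq_mul]
    _ ≤ n * d := Nat.mul_le_mul_right d hP

theorem card_edges_dst (θ : ℝ) (P : V → Prop) (n d : ℕ) (hP : (univ.filter fun v => P v).card ≤ n)
    (hd : ∀ v, (N.nb v).card ≤ d) : (univ.filter fun e : N.EE θ => P e.1.2).card ≤ n * d := by
  have h1 : (univ.filter fun e : N.EE θ => P e.1.2).card =
      ∑ v ∈ univ.filter (fun v => P v), ((univ.filter fun e : N.EE θ => P e.1.2).filter fun e => e.1.2 = v).card :=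
    card_eq_sum_card_fiberwise (fun e he => mem_filter.2 ⟨mem_univ _, (mem_filter.1 he).2⟩)
  rw [h1]
  calc ∑ v ∈ univ.filter (fun v => P v), ((univ.filter fun e : N.EE θ => P e.1.2).filter fun e => e.1.2 = v).card
      ≤ ∑ v ∈ univ.filter (fun v => P v), d := by
        apply sum_le_sum
        intro v _
        have h2 : ((univ.filter fun e : N.EE θ => P e.1.2).filter fun e => e.1.2 = v).card ≤
            (univ.filter fun e : N.EE θ => e.1.2 = v).card := by
          apply card_le_card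
          intro e he
          exact mem_filter.2 ⟨mem_univ _, (mem_filter.1 he).2⟩
        have h3 := N.sum_dst θ (fun _ _ => (1:ℕ)) v
        rw [← card_eq_sum_ones, ← card_eq_sum_ones] at h3
        rw [h3] at h2
        exact h2.trans ((card_filter_le _ _).trans (hd v))
    _ = (univ.filter fun v => P v).card * d := by rw [sum_const, smul_eq_mul]
    _ ≤ n * d := Nat.mul_le_mul_right d hP

/-- unbalanced vertices -/
def Unb (v : V) : Prop := ¬ N.Bal v

/-- **The planar bound** in coordinates. -/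
theorem planar_bound (n : ℕ) (I : ℝ) : ∃ T : ℕ, ∀ (V : Type) [Fintype V] (N : PNet V),
    (∀ v, N.Bal v → 3 ≤ (N.nb v).card) → (univ.filter fun v => N.Unb v).card ≤ n →
    ∑ v, N.imb v ≤ I → (univ.filter fun v => N.Bal v).card ≤ T := by
  set M := n * ⌈4 * I⌉₊ with hM
  obtain ⟨T, hT⟩ := Sys.sweep_bound 2 (by norm_num) (1 / 50) (by norm_num) M
  refine ⟨16 * T, ?_⟩
  intro V _ N hdeg hn hI
  obtain ⟨ε, hgen⟩ := N.exists_generic
  have hdle : ∀ v, (N.nb v).card ≤ ⌈4 * I⌉₊ := by
    intro v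
    have h1 := N.deg_le v
    have h2 : 4 * I ≤ ⌈4 * I⌉₊ := Nat.le_ceil _
    have h3 : ((N.nb v).card : ℝ) ≤ (⌈4 * I⌉₊ : ℝ) := by linarith
    exact_mod_cast h3
  -- the vertices seen in the direction `k`
  set W : ℕ → Finset V := fun k => univ.filter fun v => N.Bal v ∧
    ∃ w, N.Adj v w ∧ 99 / 100 ≤ |N.PP (k * Real.pi / 16 + ε) v w| with hW
  have hWk : ∀ k : ℕ, (W k).card ≤ T := by
    intro k
    set θ := k * Real.pi / 16 + ε with hθ
    set S := N.sys θ (hgen k) hdeg with hS
    set R := ∑ v, |N.xx θ v| + 1 with hR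
    have hxR : ∀ v, |N.xx θ v| < R := by
      intro v
      have := single_le_sum (f := fun v => |N.xx θ v|) (s := univ) (fun _ _ => abs_nonneg _) (mem_univ v)
      linarith
    have hR0 : 0 < R := by
      have : 0 ≤ ∑ v, |N.xx θ v| := sum_nonneg fun _ _ => abs_nonneg _
      linarith
    have hx1 : ∀ v, -R < S.x v := fun v => (abs_lt.1 (hxR v)).1
    have hx2 : ∀ v, S.x v < R := fun v => (abs_lt.1 (hxR v)).2
    have hAp : (S.Ap (-R)).card ≤ M := by
      refine le_trans (card_le_card ?_) (N.card_edges_src θ N.Unb n ⌈4 * I⌉₊ hn hdle)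
      intro e he
      obtain ⟨-, h1, -⟩ := mem_filter.1 he
      refine mem_filter.2 ⟨mem_univ _, ?_⟩
      intro hb
      have h2 := h1 (mem_filter.2 ⟨mem_univ _, hb⟩)
      have h3 := hx1 (S.src e)
      linarith
    have hAm : (S.Am R).card ≤ M := by
      refine le_trans (card_le_card ?_) (N.card_edges_dst θ N.Unb n ⌈4 * I⌉₊ hn hdle)
      intro e he
      obtain ⟨-, -, h1⟩ := mem_filter.1 he
      refine mem_filter.2 ⟨mem_univ _, ?_⟩
      intro hb
      have h2 := h1 (mem_filter.2 ⟨mem_univ _, hb⟩)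
      have h3 := hx2 (S.dst e)
      linarith
    have hr : ∀ e, S.r e = 0 := fun _ => rfl
    have hb := hT V (N.EE θ) S (-R) R (by linarith) hAp hAm
      (fun v hv _ _ hs he => S.fan_narrow hr hv hs he)
      (fun v hv _ _ e f _ he hf => S.cmp_planar hr he hf)
    refine le_trans (card_le_card ?_) hb
    intro v hv
    obtain ⟨-, hbal, w, hadj, hPP⟩ := mem_filter.1 hv
    refine mem_filter.2 ⟨mem_filter.2 ⟨mem_univ _, hbal⟩, ⟨hx1 v, hx2 v⟩, ?_⟩
    rcases lt_or_gt_of_ne (hgen k v w hadj) with h | h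
    · refine ⟨⟨(v, w), hadj, h⟩, Or.inl rfl, ?_⟩
      have hpos : 0 < N.PP θ v w := div_pos (by linarith) (N.L_pos hadj)
      rw [abs_of_pos hpos] at hPP
      exact hPP
    · refine ⟨⟨(w, v), N.symm _ _ hadj, h⟩, Or.inr rfl, ?_⟩
      have hneg : N.PP θ v w < 0 := div_neg_of_neg_of_pos (by linarith) (N.L_pos hadj)
      rw [abs_of_neg hneg, ← N.PP_anti] at hPP
      exact hPP
  have hsub : (univ.filter fun v => N.Bal v) ⊆ (range 16).biUnion W := by
    intro v hv
    have hbal := (mem_filter.1 hv).2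
    have h3 := hdeg v hbal
    obtain ⟨w, hw⟩ := card_pos.1 (show 0 < (N.nb v).card by omega)
    have hadj := N.mem_nb.1 hw
    obtain ⟨φ, h1, h2⟩ := N.exists_angle v w
    obtain ⟨k, hk, hcos⟩ := cover φ ε
    refine mem_biUnion.2 ⟨k, mem_range.2 hk, mem_filter.2 ⟨mem_univ _, hbal, w, hadj, ?_⟩⟩
    unfold PP
    rw [N.xx_sub _ φ h1 h2]
    have hL := (N.L_pos hadj).ne'
    rw [mul_comm, mul_div_assoc, div_self hL, mul_one]
    exact hcos
  calc (univ.filter fun v => N.Bal v).card ≤ ((range 16).biUnion W).card := card_le_card hsub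
    _ ≤ ∑ k ∈ range 16, (W k).card := card_biUnion_le
    _ ≤ ∑ k ∈ range 16, T := sum_le_sum fun k _ => hWk k
    _ = 16 * T := by rw [sum_const, card_range, smul_eq_mul]

end PNet

end Pool.Agent.H888R2.GN
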