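import Mathlib

set_option autoImplicit false

open MeasureTheory Set Filter Topology

namespace Pool.Agent.H888R2.Iso

/-- volume of the unit ball of `ℝ^m` -/
noncomputable def w (m : ℕ) : ℝ := √Real.pi ^ m / Real.Gamma ((m : ℝ) / 2 + 1)

theorem w_pos (m : ℕ) : 0 < w m := by
  unfold w
  have : 0 < Real.Gamma ((m : ℝ) / 2 + 1) := Real.Gamma_pos_of_pos (by positivity)
  have := Real.pi_pos
  positivity

theorem w_zero : w 0 = 1 := by simp [w]

theorem w_one : w 1 = 2 := by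
  unfold w
  have h : Real.Gamma ((1 : ℝ) / 2 + 1) = 1 / 2 * √Real.pi := by
    rw [Real.Gamma_add_one (by norm_num), Real.Gamma_one_half_eq]
  simp only [Nat.cast_one, pow_one]
  rw [h]
  have : 0 < √Real.pi := Real.sqrt_pos.2 Real.pi_pos
  field_simp

theorem w_succ (m : ℕ) : w (m + 2) = 2 * Real.pi / (m + 2) * w m := by
  unfold w
  have h : Real.Gamma (((m + 2 : ℕ) : ℝ) / 2 + 1) = ((m : ℝ) / 2 + 1) * Real.Gamma ((m : ℝ) / 2 + 1) := by
    rw [← Real.Gamma_add_one (by positivity)]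
    congr 1
    push_cast
    ring
  rw [h, pow_add, Real.sq_sqrt Real.pi_pos.le]
  have : 0 < Real.Gamma ((m : ℝ) / 2 + 1) := Real.Gamma_pos_of_pos (by positivity)
  field_simp

/-- volume of the ball of radius `1/2` -/
noncomputable def b (m : ℕ) : ℝ := w m / 2 ^ m

theorem b_pos (m : ℕ) : 0 < b m := div_pos (w_pos m) (by positivity)
theorem b_zero : b 0 = 1 := by simp [b, w_zero]
theorem b_one : b 1 = 1 := by simp [b, w_one]
theorem b_succ (m : ℕ) : b (m + 2) = Real.pi / (2 * (m + 2)) * b m := by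
  unfold b
  rw [w_succ, pow_add]
  field_simp

theorem b2 : b 2 = Real.pi / 4 := by rw [b_succ 0, b_zero]; norm_num
theorem b3 : b 3 = Real.pi / 6 := by rw [b_succ 1, b_one]; norm_num
theorem b4 : b 4 = Real.pi ^ 2 / 32 := by rw [b_succ 2, b2]; push_cast; ring
theorem b5 : b 5 = Real.pi ^ 2 / 60 := by rw [b_succ 3, b3]; push_cast; ring
theorem b6 : b 6 = Real.pi ^ 3 / 384 := by rw [b_succ 4, b4]; push_cast; ring
theorem b7 : b 7 = Real.pi ^ 3 / 840 := by rw [b_succ 5, b5]; push_cast; ring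
theorem b8 : b 8 = Real.pi ^ 4 / 6144 := by rw [b_succ 6, b6]; push_cast; ring
theorem b9 : b 9 = Real.pi ^ 4 / 15120 := by rw [b_succ 7, b7]; push_cast; ring
theorem b10 : b 10 = Real.pi ^ 5 / 122880 := by rw [b_succ 8, b8]; push_cast; ring
theorem b11 : b 11 = Real.pi ^ 5 / 332640 := by rw [b_succ 9, b9]; push_cast; ring
theorem b12 : b 12 = Real.pi ^ 6 / 2949120 := by rw [b_succ 10, b10]; push_cast; ring
theorem b13 : b 13 = Real.pi ^ 6 / 8648640 := by rw [b_succ 11, b11]; push_cast; ring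

theorem base {j : ℕ} (h1 : 1 ≤ j) (h2 : j < 10) : (10:ℝ) ^ j * b 10 < (j:ℝ) ^ j * b j := by
  have hp0 := Real.pi_pos
  have hp1 : Real.pi < 3.1416 := Real.pi_lt_d4
  have p2 : Real.pi ^ 2 < 9.87 := by nlinarith
  have p3 : Real.pi ^ 3 < 31.01 := by
    have : Real.pi ^ 3 = Real.pi ^ 2 * Real.pi := by ring
    rw [this]; nlinarith [sq_nonneg Real.pi]
  have p4 : Real.pi ^ 4 < 97.43 := by
    have : Real.pi ^ 4 = Real.pi ^ 3 * Real.pi := by ring
    rw [this]; nlinarith [pow_pos hp0 3]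
  have p5 : Real.pi ^ 5 < 306.1 := by
    have : Real.pi ^ 5 = Real.pi ^ 4 * Real.pi := by ring
    rw [this]; nlinarith [pow_pos hp0 4]
  rw [b10]
  interval_cases j
  · rw [b_one]; norm_num; linarith
  · rw [b2]
    have : Real.pi ^ 5 = Real.pi * Real.pi ^ 4 := by ring
    rw [this]; push_cast; nlinarith
  · rw [b3]
    have : Real.pi ^ 5 = Real.pi * Real.pi ^ 4 := by ring
    rw [this]; push_cast; nlinarith
  · rw [b4]
    have : Real.pi ^ 5 = Real.pi ^ 2 * Real.pi ^ 3 := by ring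
    rw [this]; push_cast; nlinarith [pow_pos hp0 2]
  · rw [b5]
    have : Real.pi ^ 5 = Real.pi ^ 2 * Real.pi ^ 3 := by ring
    rw [this]; push_cast; nlinarith [pow_pos hp0 2]
  · rw [b6]
    have : Real.pi ^ 5 = Real.pi ^ 3 * Real.pi ^ 2 := by ring
    rw [this]; push_cast; nlinarith [pow_pos hp0 3]
  · rw [b7]
    have : Real.pi ^ 5 = Real.pi ^ 3 * Real.pi ^ 2 := by ring
    rw [this]; push_cast; nlinarith [pow_pos hp0 3]
  · rw [b8]
    have : Real.pi ^ 5 = Real.pi ^ 4 * Real.pi := by ring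
    rw [this]; push_cast; nlinarith [pow_pos hp0 4]
  · rw [b9]
    have : Real.pi ^ 5 = Real.pi ^ 4 * Real.pi := by ring
    rw [this]; push_cast; nlinarith [pow_pos hp0 4]

/-- `b_m / b_{m+1}` exceeds `2.7182818286` for `m ≥ 11` -/
theorem ratio (m : ℕ) : 2.7182818286 * b (m + 12) < b (m + 11) := by
  have hp0 := Real.pi_pos
  have hp1 : Real.pi < 3.1416 := Real.pi_lt_d4
  induction m using Nat.strong_induction_on with
  | _ m ih =>
    match m with
    | 0 =>
      show 2.7182818286 * b 12 < b 11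
      rw [b11, b12]
      have : Real.pi ^ 6 = Real.pi ^ 5 * Real.pi := by ring
      rw [this]; nlinarith [pow_pos hp0 5]
    | 1 =>
      show 2.7182818286 * b 13 < b 12
      rw [b13, b12]
      nlinarith [pow_pos hp0 6]
    | (k + 2) =>
      have h := ih k (by omega)
      have e1 : b (k + 2 + 12) = Real.pi / (2 * (((k + 12 : ℕ) : ℝ) + 2)) * b (k + 12) := b_succ (k + 12)
      have e2 : b (k + 2 + 11) = Real.pi / (2 * (((k + 11 : ℕ) : ℝ) + 2)) * b (k + 11) := b_succ (k + 11)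
      rw [e1, e2]
      push_cast
      have h3 : Real.pi / (2 * ((k:ℝ) + 12 + 2)) ≤ Real.pi / (2 * ((k:ℝ) + 11 + 2)) := by
        apply div_le_div_of_nonneg_left hp0.le (by positivity)
        linarith
      have h4 : 0 < Real.pi / (2 * ((k:ℝ) + 12 + 2)) := by positivity
      have h5 := b_pos (k + 11)
      calc 2.7182818286 * (Real.pi / (2 * ((k:ℝ) + 12 + 2)) * b (k + 12))
          = Real.pi / (2 * ((k:ℝ) + 12 + 2)) * (2.7182818286 * b (k + 12)) := by ring
        _ < Real.pi / (2 * ((k:ℝ) + 12 + 2)) * b (k + 11) := mul_lt_mul_of_pos_left h h4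
        _ ≤ Real.pi / (2 * ((k:ℝ) + 11 + 2)) * b (k + 11) := mul_le_mul_of_nonneg_right h3 h5.le

theorem step {d : ℕ} (hd : 10 ≤ d) : ((d:ℝ) + 1) ^ d * b (d + 1) < (d:ℝ) ^ d * b d := by
  have hp0 := Real.pi_pos
  rcases Nat.eq_or_lt_of_le hd with h | h
  · subst h
    rw [b10, show 10 + 1 = 11 from rfl, b11]
    push_cast
    nlinarith [pow_pos hp0 5]
  · obtain ⟨m, rfl⟩ : ∃ m, d = m + 11 := ⟨d - 11, by omega⟩
    have h1 := ratio m
    have hd0 : (0:ℝ) < ((m + 11 : ℕ) : ℝ) := by positivity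
    have h2 : (((m + 11 : ℕ) : ℝ) + 1) ^ (m + 11) ≤ ((m + 11 : ℕ) : ℝ) ^ (m + 11) * 2.7182818286 := by
      have h3 : (1 + 1 / ((m + 11 : ℕ) : ℝ)) ^ (m + 11) ≤ Real.exp 1 := by
        have h4 := Real.add_one_le_exp (1 / ((m + 11 : ℕ) : ℝ))
        calc (1 + 1 / ((m + 11 : ℕ) : ℝ)) ^ (m + 11) ≤ (Real.exp (1 / ((m + 11 : ℕ) : ℝ))) ^ (m + 11) := by
              apply pow_le_pow_left₀ (by positivity)
              linarith
          _ = Real.exp 1 := by
              rw [← Real.exp_nat_mul]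
              congr 1
              field_simp
      have h5 := Real.exp_one_lt_d9
      have h6 : (((m + 11 : ℕ) : ℝ) + 1) ^ (m + 11) =
          ((m + 11 : ℕ) : ℝ) ^ (m + 11) * (1 + 1 / ((m + 11 : ℕ) : ℝ)) ^ (m + 11) := by
        rw [← mul_pow]
        congr 1
        field_simp
      rw [h6]
      apply mul_le_mul_of_nonneg_left _ (by positivity)
      linarith
    have hb := b_pos (m + 11 + 1)
    calc (((m + 11 : ℕ) : ℝ) + 1) ^ (m + 11) * b (m + 11 + 1)
        ≤ ((m + 11 : ℕ) : ℝ) ^ (m + 11) * 2.7182818286 * b (m + 11 + 1) :=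
          mul_le_mul_of_nonneg_right h2 hb.le
      _ = ((m + 11 : ℕ) : ℝ) ^ (m + 11) * (2.7182818286 * b (m + 12)) := by ring
      _ < _ := mul_lt_mul_of_pos_left h1 (by positivity)

/-- the key numerical inequality -/
theorem key {d j : ℕ} (hd : 10 ≤ d) (h1 : 1 ≤ j) (h2 : j < d) :
    (d:ℝ) ^ j * b d < (j:ℝ) ^ j * b j := by
  induction d, hd using Nat.le_induction with
  | base => exact_mod_cast base h1 h2
  | succ d hd ih =>
    rcases Nat.lt_succ_iff_lt_or_eq.1 h2 with h | h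
    · refine lt_trans ?_ (ih h)
      have hs := step hd
      have hd0 : (0:ℝ) < d := by
        have : 0 < d := by omega
        exact_mod_cast this
      push_cast
      -- `(d+1)^j = (d+1)^d / (d+1)^(d-j)`
      have e : ((d:ℝ) + 1) ^ d = ((d:ℝ) + 1) ^ j * ((d:ℝ) + 1) ^ (d - j) := by
        rw [← pow_add]; congr 1; omega
      have e' : (d:ℝ) ^ d = (d:ℝ) ^ j * (d:ℝ) ^ (d - j) := by
        rw [← pow_add]; congr 1; omega
      rw [e, e'] at hs
      have h3 : (d:ℝ) ^ (d - j) ≤ ((d:ℝ) + 1) ^ (d - j) := pow_le_pow_left₀ hd0.le (by linarith) _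
      have h4 : (d:ℝ) ^ j * (d:ℝ) ^ (d - j) * b d ≤ (d:ℝ) ^ j * ((d:ℝ) + 1) ^ (d - j) * b d := by
        have := b_pos d
        gcongr
      have h5 : ((d:ℝ) + 1) ^ (d - j) * (((d:ℝ) + 1) ^ j * b (d + 1)) <
          ((d:ℝ) + 1) ^ (d - j) * ((d:ℝ) ^ j * b d) := by nlinarith
      exact lt_of_mul_lt_mul_left h5 (by positivity)
    · subst h
      have hs := step hd
      push_cast
      exact hs

end Pool.Agent.H888R2.Iso
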