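import Mathlib

set_option autoImplicit false
set_option linter.unusedSectionVars false

open MeasureTheory Set Filter Topology
open scoped RealInnerProductSpace ENNReal NNReal Pointwise

namespace Pool.Agent.H888R2.Iso

variable {V : Type} [NormedAddCommGroup V] [InnerProductSpace ℝ V] [FiniteDimensional ℝ V]
  [MeasurableSpace V] [BorelSpace V]

/-- radial projection to the unit sphere -/
noncomputable def nrm (x : V) : V := ‖x‖⁻¹ • x

theorem nrm_meas : Measurable (nrm : V → V) := measurable_norm.inv.smul measurable_id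

theorem nrm_dist {x y : V} (hx : 1 ≤ ‖x‖) (hy : 1 ≤ ‖y‖) : dist (nrm x) (nrm y) ≤ dist x y := by
  have hx0 : 0 < ‖x‖ := by linarith
  have hy0 : 0 < ‖y‖ := by linarith
  rw [dist_eq_norm, dist_eq_norm]
  refine le_of_sq_le_sq ?_ (norm_nonneg _)
  rw [norm_sub_sq_real, norm_sub_sq_real]
  unfold nrm
  rw [norm_smul, norm_smul, real_inner_smul_left, real_inner_smul_right, norm_inv, norm_inv, norm_norm,
    norm_norm, inv_mul_cancel₀ hx0.ne', inv_mul_cancel₀ hy0.ne']
  have hc : ⟪x, y⟫ ≤ ‖x‖ * ‖y‖ := real_inner_le_norm x y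
  have hab : 1 ≤ ‖x‖ * ‖y‖ := by nlinarith
  set a := ‖x‖
  set b := ‖y‖
  set i := ⟪x, y⟫
  have hk : a⁻¹ * (b⁻¹ * i) = i / (a * b) := by field_simp
  rw [hk]
  have h1 : 1 - i / (a * b) = (a * b - i) / (a * b) := by field_simp
  have h2 : (a * b - i) / (a * b) ≤ a * b - i := div_le_self (by linarith) hab
  nlinarith [sq_nonneg (a - b)]

theorem muHE_lip {S : Set V} {f : V → V} (n : ℕ) {L : ℝ≥0} (hf : LipschitzOnWith L f S) :
    (μHE[n] : Measure V) (f '' S) ≤ (L : ℝ≥0∞) ^ n * (μHE[n] : Measure V) S := by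
  rw [Measure.euclideanHausdorffMeasure_def, Measure.smul_apply, Measure.smul_apply]
  have h := hf.hausdorffMeasure_image_le (d := (n : ℝ)) (by positivity)
  rw [ENNReal.rpow_natCast] at h
  rw [ENNReal.smul_def, ENNReal.smul_def, smul_eq_mul, smul_eq_mul, mul_left_comm]
  exact mul_le_mul_right h _

/-- `(n+1)`-volume of the cone over a set in the hyperplane `⟪v, ·⟫ = 1`. -/
theorem cone_flat {n : ℕ} (hn : Module.finrank ℝ V = n + 1) {v : V} (hv : ‖v‖ = 1) {W : Set V}
    (hW : MeasurableSet W) :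
    volume {z : V | 0 < ⟪v, z⟫ ∧ ⟪v, z⟫ < 1 ∧ ⟪v, z⟫⁻¹ • z ∈ W} =
      ENNReal.ofReal (1 / ((n : ℝ) + 1)) * (μHE[n] : Measure V) (W ∩ {y | ⟪v, y⟫ = 1}) := by
  have hvne : v ≠ 0 := by
    intro h; rw [h, norm_zero] at hv; norm_num at hv
  set t : Set V := {z : V | 0 < ⟪v, z⟫ ∧ ⟪v, z⟫ < 1 ∧ ⟪v, z⟫⁻¹ • z ∈ W} with ht
  have hmi : Measurable fun z : V => ⟪v, z⟫ := by fun_prop
  have htm : MeasurableSet t := by
    have h1 : MeasurableSet {z : V | 0 < ⟪v, z⟫} := measurableSet_lt measurable_const hmi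
    have h2 : MeasurableSet {z : V | ⟪v, z⟫ < 1} := measurableSet_lt hmi measurable_const
    have h3 : MeasurableSet ((fun z : V => ⟪v, z⟫⁻¹ • z) ⁻¹' W) := (hmi.inv.smul measurable_id) hW
    exact h1.inter (h2.inter h3)
  have hvol : (volume : Measure V) t = μHE[Module.finrank ℝ V] t := by
    rw [InnerProductSpace.euclideanHausdorffMeasure_eq_volume]
  rw [hvol, EuclideanGeometry.euclideanHausdorffMeasure_eq_lintegral (0 : V) hvne htm]
  have he : ‖v‖ₑ = 1 := by rw [← ofReal_norm, hv, ENNReal.ofReal_one]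
  rw [he, one_mul]
  have hslice : ∀ x : ℝ, (μHE[Module.finrank ℝ V - 1] : Measure V)
      (t ∩ (AffineSubspace.mk' (x • v +ᵥ (0 : V)) (ℝ ∙ v)ᗮ : AffineSubspace ℝ V)) =
      (Ioo (0:ℝ) 1).indicator (fun x => ENNReal.ofReal (x ^ n) *
        (μHE[n] : Measure V) (W ∩ {y | ⟪v, y⟫ = 1})) x := by
    intro x
    have hmem : ∀ z : V, z ∈ (AffineSubspace.mk' (x • v +ᵥ (0 : V)) (ℝ ∙ v)ᗮ : AffineSubspace ℝ V) ↔
        ⟪v, z⟫ = x := by
      intro z
      rw [AffineSubspace.mem_mk', Submodule.mem_orthogonal_singleton_iff_inner_right]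
      simp only [vadd_eq_add, add_zero, vsub_eq_sub]
      rw [inner_sub_right, real_inner_smul_right, real_inner_self_eq_norm_sq, hv]
      constructor
      · intro h; linarith
      · intro h; linarith
    rw [hn, Nat.add_sub_cancel]
    by_cases hx : x ∈ Ioo (0:ℝ) 1
    · rw [indicator_of_mem hx]
      have hset : t ∩ (AffineSubspace.mk' (x • v +ᵥ (0 : V)) (ℝ ∙ v)ᗮ : AffineSubspace ℝ V) =
          x • (W ∩ {y | ⟪v, y⟫ = 1}) := by
        ext z
        rw [mem_smul_set_iff_inv_smul_mem₀ hx.1.ne']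
        constructor
        · rintro ⟨⟨_, _, h3⟩, h4⟩
          have h5 : ⟪v, z⟫ = x := (hmem z).1 h4
          rw [h5] at h3
          refine ⟨h3, ?_⟩
          show ⟪v, x⁻¹ • z⟫ = 1
          rw [real_inner_smul_right, h5, inv_mul_cancel₀ hx.1.ne']
        · rintro ⟨h3, h4⟩
          have h5 : ⟪v, z⟫ = x := by
            have h6 : ⟪v, x⁻¹ • z⟫ = 1 := h4
            rw [real_inner_smul_right] at h6
            have := hx.1.ne'
            field_simp at h6
            exact h6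
          refine ⟨⟨?_, ?_, ?_⟩, (hmem z).2 h5⟩
          · rw [h5]; exact hx.1
          · rw [h5]; exact hx.2
          · rw [h5]; exact h3
      rw [hset, Measure.euclideanHausdorffMeasure_smul₀ n hx.1.ne', ENNReal.smul_def, smul_eq_mul]
      congr 1
      rw [ENNReal.coe_pow, ENNReal.ofReal_pow hx.1.le]
      congr 1
      rw [← enorm_eq_nnnorm, ← ofReal_norm, Real.norm_of_nonneg hx.1.le]
    · rw [indicator_of_notMem hx]
      have hset : t ∩ (AffineSubspace.mk' (x • v +ᵥ (0 : V)) (ℝ ∙ v)ᗮ : AffineSubspace ℝ V) = ∅ := by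
        ext z
        simp only [mem_empty_iff_false, iff_false]
        rintro ⟨⟨h1, h2, _⟩, h4⟩
        have h5 : ⟪v, z⟫ = x := (hmem z).1 h4
        rw [h5] at h1 h2
        exact hx ⟨h1, h2⟩
      rw [hset, measure_empty]
  simp_rw [hslice]
  rw [lintegral_indicator measurableSet_Ioo, lintegral_mul_const _ (by fun_prop)]
  congr 1
  rw [← ofReal_integral_eq_lintegral_ofReal]
  · congr 1
    rw [← integral_Ioc_eq_integral_Ioo, ← intervalIntegral.integral_of_le zero_le_one, integral_pow]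
    simp
  · have : IntegrableOn (fun x : ℝ => x ^ n) (Icc 0 1) := (by fun_prop : Continuous fun x : ℝ => x ^ n).integrableOn_Icc
    exact this.mono_set Ioo_subset_Icc_self
  · rw [Filter.EventuallyLE, ae_restrict_iff' measurableSet_Ioo]
    exact Eventually.of_forall fun x hx => pow_nonneg hx.1.le n

/-- the part of the unit ball over a set of directions -/
def coneS (W : Set V) : Set V := {z | z ≠ 0 ∧ ‖z‖ < 1 ∧ nrm z ∈ W}

theorem coneS_meas {W : Set V} (hW : MeasurableSet W) : MeasurableSet (coneS W) := by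
  have h1 : MeasurableSet {z : V | z ≠ 0} := (measurableSet_singleton 0).compl
  have h2 : MeasurableSet {z : V | ‖z‖ < 1} := measurableSet_lt measurable_norm measurable_const
  exact h1.inter (h2.inter (nrm_meas hW))

/-- area of a piece of the sphere inside a cap -/
theorem cap_le {n : ℕ} (hn : Module.finrank ℝ V = n + 1) {v : V} (hv : ‖v‖ = 1) {c : ℝ}
    (hc : 0 < c) {W : Set V} (hW : MeasurableSet W) (hWS : ∀ x ∈ W, ‖x‖ = 1)
    (hWc : ∀ x ∈ W, c < ⟪v, x⟫) :
    (μHE[n] : Measure V) W ≤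
      ENNReal.ofReal (((n : ℝ) + 1) * (c⁻¹) ^ (n + 1)) * volume (coneS W) := by
  set W' : Set V := nrm ⁻¹' W with hW'
  have hW'm : MeasurableSet W' := nrm_meas hW
  set T : Set V := W' ∩ {y | ⟪v, y⟫ = 1} with hT
  have hTn : ∀ y ∈ T, 1 ≤ ‖y‖ := by
    rintro y ⟨_, hy⟩
    have h1 : ⟪v, y⟫ = 1 := hy
    have h2 := real_inner_le_norm v y
    rw [hv, one_mul, h1] at h2
    exact h2
  have hlip : LipschitzOnWith 1 nrm T := by
    apply LipschitzOnWith.of_dist_le_mul
    intro x hx y hy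
    rw [NNReal.coe_one, one_mul]
    exact nrm_dist (hTn x hx) (hTn y hy)
  have hcov : W ⊆ nrm '' T := by
    intro x hx
    have hx1 := hWS x hx
    have hxc : 0 < ⟪v, x⟫ := hc.trans (hWc x hx)
    have e : nrm (⟪v, x⟫⁻¹ • x) = x := by
      unfold nrm
      rw [norm_smul, hx1, mul_one, norm_inv, Real.norm_of_nonneg hxc.le, inv_inv, smul_smul,
        mul_inv_cancel₀ hxc.ne', one_smul]
    refine ⟨⟪v, x⟫⁻¹ • x, ⟨?_, ?_⟩, e⟩
    · show nrm (⟪v, x⟫⁻¹ • x) ∈ W
      rw [e]; exact hx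
    · show ⟪v, ⟪v, x⟫⁻¹ • x⟫ = 1
      rw [real_inner_smul_right, inv_mul_cancel₀ hxc.ne']
  have h1 : (μHE[n] : Measure V) W ≤ (μHE[n] : Measure V) T := by
    refine (measure_mono hcov).trans ((muHE_lip n hlip).trans ?_)
    simp
  have hcf := cone_flat hn hv hW'm
  set t : Set V := {z : V | 0 < ⟪v, z⟫ ∧ ⟪v, z⟫ < 1 ∧ ⟪v, z⟫⁻¹ • z ∈ W'} with ht
  have hsub : t ⊆ c⁻¹ • coneS W := by
    rintro z ⟨h1, h2, h3⟩
    have hz0 : z ≠ 0 := by
      intro h; rw [h, inner_zero_right] at h1; exact lt_irrefl _ h1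
    have hzn : 0 < ‖z‖ := norm_pos_iff.2 hz0
    have e : nrm (⟪v, z⟫⁻¹ • z) = nrm z := by
      unfold nrm
      rw [norm_smul, norm_inv, Real.norm_of_nonneg h1.le, smul_smul]
      congr 1
      field_simp
    have h4 : nrm z ∈ W := by rw [← e]; exact h3
    have h5 := hWc _ h4
    have h6 : ⟪v, z⟫ = ‖z‖ * ⟪v, nrm z⟫ := by
      unfold nrm
      rw [real_inner_smul_right]
      field_simp
    have h7 : c * ‖z‖ < 1 := by
      have : c * ‖z‖ < ⟪v, nrm z⟫ * ‖z‖ := mul_lt_mul_of_pos_right h5 hzn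
      rw [mul_comm ⟪v, nrm z⟫, ← h6] at this
      linarith
    rw [mem_smul_set_iff_inv_smul_mem₀ (inv_ne_zero hc.ne'), inv_inv]
    refine ⟨smul_ne_zero hc.ne' hz0, ?_, ?_⟩
    · rw [norm_smul, Real.norm_of_nonneg hc.le]; exact h7
    · have : nrm (c • z) = nrm z := by
        unfold nrm
        rw [norm_smul, Real.norm_of_nonneg hc.le, smul_smul]
        congr 1
        field_simp
      rw [this]; exact h4
  have h2 : volume t ≤ ENNReal.ofReal ((c⁻¹) ^ (n + 1)) * volume (coneS W) := by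
    refine (measure_mono hsub).trans ?_
    rw [Measure.addHaar_smul, hn, abs_of_nonneg (by positivity)]
  rw [hcf] at h2
  have hn0 : (0:ℝ) < (n : ℝ) + 1 := by positivity
  calc (μHE[n] : Measure V) W ≤ (μHE[n] : Measure V) T := h1
    _ = ENNReal.ofReal ((n : ℝ) + 1) * (ENNReal.ofReal (1 / ((n : ℝ) + 1)) * (μHE[n] : Measure V) T) := by
        rw [← mul_assoc, ← ENNReal.ofReal_mul hn0.le, mul_one_div_cancel hn0.ne', ENNReal.ofReal_one,
          one_mul]
    _ ≤ ENNReal.ofReal ((n : ℝ) + 1) * (ENNReal.ofReal ((c⁻¹) ^ (n + 1)) * volume (coneS W)) :=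
        mul_le_mul_right h2 _
    _ = _ := by rw [← mul_assoc, ← ENNReal.ofReal_mul hn0.le]

/-- Upper bound for the area of the unit sphere, with a parameter. -/
theorem sphere_le_aux {n : ℕ} (hn : Module.finrank ℝ V = n + 1) {c : ℝ} (hc : 0 < c) (hc1 : c < 1) :
    (μHE[n] : Measure V) (Metric.sphere (0 : V) 1) ≤
      ENNReal.ofReal (((n : ℝ) + 1) * (c⁻¹) ^ (n + 1)) * volume (Metric.ball (0 : V) 1) := by
  have : Nontrivial V := Module.nontrivial_of_finrank_pos (R := ℝ) (by omega)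
  obtain ⟨x0, hx0⟩ := exists_norm_eq V zero_le_one
  have : Nonempty (Metric.sphere (0 : V) 1) := ⟨⟨x0, by simpa using hx0⟩⟩
  let p : ℕ → Metric.sphere (0 : V) 1 := TopologicalSpace.denseSeq (Metric.sphere (0 : V) 1)
  let f : ℕ → Set V := fun i => {x | c < ⟪(p i : V), x⟫}
  have hfm : ∀ i, MeasurableSet (f i) := fun i =>
    measurableSet_lt measurable_const (by fun_prop)
  have hSm : MeasurableSet (Metric.sphere (0 : V) 1) := Metric.isClosed_sphere.measurableSet
  let g : ℕ → Set V := fun i => Metric.sphere (0 : V) 1 ∩ disjointed f i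
  have hgm : ∀ i, MeasurableSet (g i) := fun i => hSm.inter (MeasurableSet.disjointed hfm i)
  have hcov : Metric.sphere (0 : V) 1 ⊆ ⋃ i, g i := by
    intro x hx
    have hx1 : ‖x‖ = 1 := by simpa using hx
    have hd := TopologicalSpace.denseRange_denseSeq (Metric.sphere (0 : V) 1)
    obtain ⟨i, hi⟩ := hd.exists_dist_lt (⟨x, hx⟩ : Metric.sphere (0 : V) 1)
      (show 0 < 1 - c by linarith)
    have hi' : ‖x - (p i : V)‖ < 1 - c := by
      rw [← dist_eq_norm]; exact hi
    have h1 : x ∈ f i := by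
      show c < ⟪(p i : V), x⟫
      have hp1 : ‖(p i : V)‖ = 1 := by simp
      have e : ⟪(p i : V), x⟫ = ‖x‖ ^ 2 - ⟪x - (p i : V), x⟫ := by
        rw [inner_sub_left, real_inner_self_eq_norm_sq]; ring
      have h2 := real_inner_le_norm (x - (p i : V)) x
      rw [hx1] at e h2
      rw [e]
      linarith
    have h2 : x ∈ ⋃ i, disjointed f i := by
      rw [iUnion_disjointed]
      exact mem_iUnion.2 ⟨i, h1⟩
    obtain ⟨j, hj⟩ := mem_iUnion.1 h2
    exact mem_iUnion.2 ⟨j, hx, hj⟩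
  have hdisj : Pairwise (Function.onFun Disjoint fun i => coneS (g i)) := by
    intro i j hij
    rw [Function.onFun, Set.disjoint_left]
    rintro z ⟨_, _, h3⟩ ⟨_, _, h4⟩
    exact (Set.disjoint_left.1 (disjoint_disjointed f hij)) h3.2 h4.2
  calc (μHE[n] : Measure V) (Metric.sphere (0 : V) 1)
      ≤ (μHE[n] : Measure V) (⋃ i, g i) := measure_mono hcov
    _ ≤ ∑' i, (μHE[n] : Measure V) (g i) := measure_iUnion_le _
    _ ≤ ∑' i, ENNReal.ofReal (((n : ℝ) + 1) * (c⁻¹) ^ (n + 1)) * volume (coneS (g i)) := by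
        apply ENNReal.tsum_le_tsum
        intro i
        exact cap_le hn (v := (p i : V)) (by simp) hc (hgm i) (fun x hx => by simpa using hx.1)
          (fun x hx => (disjointed_subset f i) hx.2)
    _ = ENNReal.ofReal (((n : ℝ) + 1) * (c⁻¹) ^ (n + 1)) * volume (⋃ i, coneS (g i)) := by
        rw [ENNReal.tsum_mul_left, measure_iUnion hdisj fun i => coneS_meas (hgm i)]
    _ ≤ _ := by
        apply mul_le_mul_right
        apply measure_mono
        intro z hz
        obtain ⟨i, _, h, _⟩ := mem_iUnion.1 hz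
        simpa using h

/-- The area of the unit sphere is at most `(n+1) vol(B)`. -/
theorem sphere_le {n : ℕ} (hn : Module.finrank ℝ V = n + 1) :
    (μHE[n] : Measure V) (Metric.sphere (0 : V) 1) ≤
      ENNReal.ofReal ((n : ℝ) + 1) * volume (Metric.ball (0 : V) 1) := by
  have hlim : Tendsto (fun c : ℝ => ENNReal.ofReal (((n : ℝ) + 1) * (c⁻¹) ^ (n + 1)) *
      volume (Metric.ball (0 : V) 1)) (𝓝[<] 1)
      (𝓝 (ENNReal.ofReal (((n : ℝ) + 1) * ((1:ℝ)⁻¹) ^ (n + 1)) * volume (Metric.ball (0 : V) 1))) := by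
    apply ENNReal.Tendsto.mul_const
    · apply ENNReal.tendsto_ofReal
      apply tendsto_nhdsWithin_of_tendsto_nhds
      apply Tendsto.const_mul
      apply Tendsto.pow
      exact (continuousAt_inv₀ one_ne_zero)
    · right
      exact measure_ball_lt_top.ne
  rw [inv_one, one_pow, mul_one] at hlim
  refine ge_of_tendsto hlim ?_
  have h1 : ∀ᶠ c : ℝ in 𝓝[<] 1, c ∈ Ioo (0:ℝ) 1 := Ioo_mem_nhdsLT zero_lt_one
  filter_upwards [h1] with c hc
  exact sphere_le_aux hn hc.1 hc.2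

end Pool.Agent.H888R2.Iso
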