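import Mathlib
import Pool.Agent.H888R2.IsoB

set_option autoImplicit false
set_option linter.unusedSectionVars false

open MeasureTheory Set Filter Topology
open scoped RealInnerProductSpace ENNReal NNReal Pointwise ContDiff

namespace Pool.Agent.H888R2.Iso

abbrev E (d : ℕ) := EuclideanSpace ℝ (Fin d)

/-- unit vector in the diagonal direction -/
noncomputable def vd (d : ℕ) : E d := WithLp.toLp 2 fun _ => 1 / √(d : ℝ)

theorem vd_norm {d : ℕ} (hd : 0 < d) : ‖vd d‖ = 1 := by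
  have h : ‖vd d‖ ^ 2 = 1 := by
    rw [EuclideanSpace.norm_sq_eq]
    have hd0 : (0:ℝ) < d := by exact_mod_cast hd
    simp only [vd, Real.norm_eq_abs, sq_abs, div_pow, one_pow, Real.sq_sqrt hd0.le,
      Finset.sum_const, Finset.card_univ, Fintype.card_fin, nsmul_eq_mul]
    field_simp
  nlinarith [norm_nonneg (vd d)]

theorem vd_inner {d : ℕ} (x : E d) : ⟪vd d, x⟫ = (∑ i, x i) / √(d : ℝ) := by
  rw [PiLp.inner_apply, Finset.sum_div]
  apply Finset.sum_congr rfl
  intro i _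
  simp [vd]
  ring

/-- `x ↦ x + (c-1)⟪v,x⟫ v` -/
noncomputable def T (d : ℕ) (c : ℝ) : E d →ₗ[ℝ] E d :=
  LinearMap.transvection ((c - 1) • (innerₛₗ ℝ (vd d))) (vd d)

theorem T_apply {d : ℕ} (c : ℝ) (x : E d) : T d c x = x + ((c - 1) * ⟪vd d, x⟫) • vd d := by
  unfold T
  rw [LinearMap.transvection.apply]
  simp

theorem T_det {d : ℕ} (hd : 0 < d) (c : ℝ) : LinearMap.det (T d c) = c := by
  unfold T
  rw [LinearMap.transvection.det]
  simp [vd_norm hd]

theorem T_norm {d : ℕ} (hd : 0 < d) (c : ℝ) (x : E d) :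
    ‖T d c x‖ ^ 2 = ‖x‖ ^ 2 + (c ^ 2 - 1) * ⟪vd d, x⟫ ^ 2 := by
  rw [T_apply, norm_add_sq_real, real_inner_smul_right, norm_smul, vd_norm hd, mul_one,
    Real.norm_eq_abs, sq_abs, real_inner_comm]
  ring

theorem T_inv {d : ℕ} (hd : 0 < d) {c c' : ℝ} (h : c * c' = 1) (x : E d) : T d c (T d c' x) = x := by
  have e : T d c (T d c' x) = x + ((c * c' - 1) * ⟪vd d, x⟫) • vd d := by
    rw [T_apply, T_apply, inner_add_right, real_inner_smul_right, real_inner_self_eq_norm_sq,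
      vd_norm hd, add_assoc, ← add_smul]
    congr 2
    ring
  rw [e, h]
  simp

/-- integer vectors -/
noncomputable def zv {d : ℕ} (k : Fin d → ℤ) : E d := WithLp.toLp 2 fun i => (k i : ℝ)

theorem zv_sep {d : ℕ} (hd : 0 < d) {q : ℝ} (hq0 : 0 ≤ q) (hq : q ≤ 1 / 2) {k : Fin d → ℤ} (hk : k ≠ 0) :
    1 - q / d ≤ ‖T d (√(1 - q)) (zv k)‖ ^ 2 := by
  have hd0 : (0:ℝ) < d := by exact_mod_cast hd
  have hd1 : (1:ℝ) ≤ d := by exact_mod_cast hd
  rw [T_norm hd, Real.sq_sqrt (by linarith), vd_inner, div_pow, Real.sq_sqrt hd0.le,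
    EuclideanSpace.norm_sq_eq]
  have e1 : ∑ i, ‖(zv k : E d) i‖ ^ 2 = ((∑ i, k i ^ 2 : ℤ) : ℝ) := by
    push_cast
    apply Finset.sum_congr rfl
    intro i _
    simp [zv]
  have e2 : ∑ i, (zv k : E d) i = ((∑ i, k i : ℤ) : ℝ) := by
    push_cast
    rfl
  rw [e1, e2]
  set n := ∑ i, k i ^ 2 with hn
  set m := ∑ i, k i with hm
  have hn1 : 1 ≤ n := by
    obtain ⟨i, hi⟩ := Function.ne_iff.1 hk
    have h1 : 0 < k i ^ 2 := by
      have : k i ≠ 0 := hi
      positivity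
    have h2 : k i ^ 2 ≤ n := Finset.single_le_sum (f := fun i => k i ^ 2) (fun j _ => sq_nonneg _) (Finset.mem_univ i)
    linarith
  have hmn : |m| ≤ n := by
    calc |m| ≤ ∑ i, |k i| := Finset.abs_sum_le_sum_abs _ _
      _ ≤ n := by
        apply Finset.sum_le_sum
        intro i _
        rcases eq_or_ne (k i) 0 with h | h
        · rw [h]; simp
        · have h1 : 1 ≤ |k i| := Int.one_le_abs h
          calc |k i| ≤ |k i| * |k i| := by nlinarith
            _ = k i ^ 2 := by rw [← abs_mul, ← sq, abs_sq]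
  have hcs : m ^ 2 ≤ d * n := by
    have := sq_sum_le_card_mul_sum_sq (s := (Finset.univ : Finset (Fin d))) (f := k)
    simpa using this
  have hcs' : (m:ℝ) ^ 2 ≤ d * n := by exact_mod_cast hcs
  rcases hn1.lt_or_eq with h | h
  · have h2 : (2:ℝ) ≤ n := by exact_mod_cast h
    have h3 : (m:ℝ) ^ 2 / d ≤ n := by
      rw [div_le_iff₀ hd0]; linarith
    have h4 : q / d ≥ 0 := by positivity
    nlinarith
  · have h2 : m ^ 2 ≤ 1 := by
      rw [← h] at hmn
      have := abs_le.1 hmn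
      nlinarith
    have h3 : (m:ℝ) ^ 2 ≤ 1 := by exact_mod_cast h2
    have h4 : (m:ℝ) ^ 2 / d ≤ 1 / d := div_le_div_of_nonneg_right h3 hd0.le
    rw [← h]
    push_cast
    have h5 : q * ((m:ℝ) ^ 2 / d) ≤ q * (1 / d) := mul_le_mul_of_nonneg_left h4 hq0
    have h6 : q * (1 / (d:ℝ)) = q / d := by ring
    nlinarith

end Pool.Agent.H888R2.Iso
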