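import Mathlib
import Pool.Agent.H888R2.IsoC

set_option autoImplicit false
set_option linter.unusedSectionVars false

open MeasureTheory Set Filter Topology
open scoped RealInnerProductSpace ENNReal NNReal Pointwise ContDiff

namespace Pool.Agent.H888R2.Iso

/-- the unit cell -/
def cell (d : ℕ) : Set (E d) := {x | ∀ i, 0 ≤ x i ∧ x i < 1}

theorem cell_meas (d : ℕ) : MeasurableSet (cell d) := by
  have : cell d = ⋂ i, {x : E d | 0 ≤ x i ∧ x i < 1} := by
    ext x; simp [cell]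
  rw [this]
  apply MeasurableSet.iInter
  intro i
  have hm : Measurable fun x : E d => x i := by fun_prop
  exact (measurableSet_le measurable_const hm).inter (measurableSet_lt hm measurable_const)

/-- decomposition of a measure along the translates of the unit cell -/
theorem tsum_cells {d : ℕ} (μ : Measure (E d)) [μ.IsAddRightInvariant] {S : Set (E d)}
    (hS : MeasurableSet S) :
    ∑' k : Fin d → ℤ, μ ({x | x - zv k ∈ S} ∩ cell d) = μ S := by
  have h1 : ∀ k : Fin d → ℤ, μ ({x | x - zv k ∈ S} ∩ cell d) = μ (S ∩ {x | x + zv k ∈ cell d}) := by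
    intro k
    rw [← measure_preimage_add_right μ (zv k) ({x | x - zv k ∈ S} ∩ cell d)]
    congr 1
    ext x
    simp
  simp_rw [h1]
  rw [← measure_iUnion]
  · congr 1
    rw [← inter_iUnion]
    apply inter_eq_self_of_subset_left
    intro x _
    rw [mem_iUnion]
    refine ⟨fun i => -⌊x i⌋, ?_⟩
    intro i
    have e : (x + zv (fun i => -⌊x i⌋)) i = Int.fract (x i) := by
      show x i + ((-⌊x i⌋ : ℤ) : ℝ) = Int.fract (x i)
      push_cast
      rw [← sub_eq_add_neg]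
      rfl
    rw [e]
    exact ⟨Int.fract_nonneg _, Int.fract_lt_one _⟩
  · intro k k' hkk'
    rw [Function.onFun, Set.disjoint_left]
    rintro x ⟨_, h2⟩ ⟨_, h3⟩
    apply hkk'
    funext i
    have h4 : 0 ≤ x i + (k i : ℝ) ∧ x i + (k i : ℝ) < 1 := h2 i
    have h5 : 0 ≤ x i + (k' i : ℝ) ∧ x i + (k' i : ℝ) < 1 := h3 i
    have h6 : (k i : ℝ) < k' i + 1 := by linarith [h4.2, h5.1]
    have h7 : (k' i : ℝ) < k i + 1 := by linarith [h4.1, h5.2]
    have h8 : k i < k' i + 1 := by exact_mod_cast h6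
    have h9 : k' i < k i + 1 := by exact_mod_cast h7
    omega
  · intro k
    refine hS.inter ?_
    have : {x : E d | x + zv k ∈ cell d} = (fun x => x + zv k) ⁻¹' cell d := rfl
    rw [this]
    exact (measurable_add_const _) (cell_meas d)

section
variable {d : ℕ} {c r : ℝ}

theorem T_cont (d : ℕ) (c : ℝ) : Continuous (T d c) := LinearMap.continuous_of_finiteDimensional _

/-- the periodic family of ellipsoids -/
def DD (d : ℕ) (c r : ℝ) : Set (E d) := {x | ∃ k : Fin d → ℤ, ‖T d c (x - zv k)‖ ≤ r}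

/-- the ellipsoid -/
def KK (d : ℕ) (c r : ℝ) : Set (E d) := {x | ‖T d c x‖ ≤ r}

theorem KK_image (hd : 0 < d) (hc : 0 < c) (r : ℝ) :
    KK d c r = T d c⁻¹ '' Metric.closedBall 0 r := by
  ext x
  constructor
  · intro hx
    refine ⟨T d c x, by simpa [KK] using hx, ?_⟩
    exact T_inv hd (inv_mul_cancel₀ hc.ne') x
  · rintro ⟨y, hy, rfl⟩
    show ‖T d c (T d c⁻¹ y)‖ ≤ r
    rw [T_inv hd (mul_inv_cancel₀ hc.ne')]
    simpa using hy

theorem SS_image (hd : 0 < d) (hc : 0 < c) (r : ℝ) :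
    {x : E d | ‖T d c x‖ = r} = T d c⁻¹ '' Metric.sphere 0 r := by
  ext x
  constructor
  · intro hx
    refine ⟨T d c x, by simpa using hx, ?_⟩
    exact T_inv hd (inv_mul_cancel₀ hc.ne') x
  · rintro ⟨y, hy, rfl⟩
    show ‖T d c (T d c⁻¹ y)‖ = r
    rw [T_inv hd (mul_inv_cancel₀ hc.ne')]
    simpa using hy

theorem KK_compact (hd : 0 < d) (hc : 0 < c) : IsCompact (KK d c r) := by
  rw [KK_image hd hc]
  exact (isCompact_closedBall 0 r).image (T_cont d _)

theorem range_zv_closed (d : ℕ) : IsClosed (range (zv : (Fin d → ℤ) → E d)) := by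
  have h : range (zv : (Fin d → ℤ) → E d) = ⋂ i, (fun x : E d => x i) ⁻¹' range ((↑) : ℤ → ℝ) := by
    ext x
    simp only [mem_range, mem_iInter, mem_preimage]
    constructor
    · rintro ⟨k, rfl⟩ i
      exact ⟨k i, rfl⟩
    · intro hx
      choose k hk using hx
      refine ⟨k, ?_⟩
      ext i
      exact hk i
  rw [h]
  apply isClosed_iInter
  intro i
  apply IsClosed.preimage (by fun_prop)
  exact Int.isClosedEmbedding_coe_real.isClosed_range

theorem DD_closed (hd : 0 < d) (hc : 0 < c) : IsClosed (DD d c r) := by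
  have h : DD d c r = KK d c r + range zv := by
    ext x
    rw [Set.mem_add]
    constructor
    · rintro ⟨k, hk⟩
      exact ⟨x - zv k, hk, zv k, ⟨k, rfl⟩, by simp⟩
    · rintro ⟨y, hy, _, ⟨k, rfl⟩, rfl⟩
      refine ⟨k, ?_⟩
      simpa [KK] using hy
  rw [h]
  exact (range_zv_closed d).add_left_of_isCompact (KK_compact hd hc)

theorem zv_sub (k k' : Fin d → ℤ) : (zv k : E d) - zv k' = zv (k - k') := by
  ext i
  simp [zv]

theorem zv_zero : (zv (0 : Fin d → ℤ) : E d) = 0 := by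
  ext i
  simp [zv]

/-- the separation hypothesis -/
def Sep (d : ℕ) (c r : ℝ) : Prop := ∃ m : ℝ, 2 * r < m ∧ ∀ k : Fin d → ℤ, k ≠ 0 → m ≤ ‖T d c (zv k)‖

theorem Sep.eq {k k' : Fin d → ℤ} {m : ℝ} (hm : ∀ k : Fin d → ℤ, k ≠ 0 → m ≤ ‖T d c (zv k)‖)
    {x : E d} (h : ‖T d c (x - zv k)‖ + ‖T d c (x - zv k')‖ < m) : k = k' := by
  by_contra hne
  have h1 := hm (k - k') (sub_ne_zero.2 hne)
  have h2 : T d c (zv (k - k')) = T d c (x - zv k') - T d c (x - zv k) := by
    rw [← map_sub]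
    congr 1
    rw [← zv_sub]
    abel
  rw [h2] at h1
  have h3 := norm_sub_le (T d c (x - zv k')) (T d c (x - zv k))
  linarith

theorem frontier_sub (hd : 0 < d) (hc : 0 < c) {p : E d} (hp : p ∈ frontier (DD d c r)) :
    ∃ k : Fin d → ℤ, ‖T d c (p - zv k)‖ = r := by
  rw [(DD_closed hd hc).frontier_eq] at hp
  obtain ⟨⟨k, hk⟩, hni⟩ := hp
  refine ⟨k, le_antisymm hk ?_⟩
  by_contra hlt
  push Not at hlt
  apply hni
  rw [mem_interior]
  refine ⟨{x | ‖T d c (x - zv k)‖ < r}, fun x hx => ⟨k, le_of_lt hx⟩, ?_, hlt⟩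
  exact isOpen_lt (((T_cont d c).comp (continuous_sub_right _)).norm) continuous_const

theorem smooth_boundary (hd : 0 < d) (hc : 0 < c) (hr : 0 < r) (hs : Sep d c r) {p : E d}
    (hp : p ∈ frontier (DD d c r)) :
    ∃ (U : Set (E d)) (f : E d → ℝ), IsOpen U ∧ p ∈ U ∧ ContDiffOn ℝ ∞ f U ∧
      (∀ x ∈ U, fderiv ℝ f x ≠ 0) ∧ DD d c r ∩ U = {x ∈ U | f x ≤ 0} := by
  obtain ⟨k, hk⟩ := frontier_sub hd hc hp
  obtain ⟨m, hm1, hm⟩ := hs
  let L : E d →L[ℝ] E d := LinearMap.toContinuousLinearMap (T d c)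
  have hL : ∀ x, L x = T d c x := fun x => rfl
  have hcont : Continuous fun x : E d => ‖T d c (x - zv k)‖ :=
    ((T_cont d c).comp (continuous_sub_right _)).norm
  have hf : ContDiff ℝ ∞ fun x : E d => ‖L (x - zv k)‖ ^ 2 - r ^ 2 := by
    apply ContDiff.sub _ contDiff_const
    apply ContDiff.norm_sq ℝ
    exact L.contDiff.comp (contDiff_id.sub contDiff_const)
  refine ⟨{x | r / 2 < ‖T d c (x - zv k)‖ ∧ ‖T d c (x - zv k)‖ < m - r},
    fun x => ‖L (x - zv k)‖ ^ 2 - r ^ 2, ?_, ?_, hf.contDiffOn, ?_, ?_⟩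
  · exact (isOpen_lt continuous_const hcont).inter (isOpen_lt hcont continuous_const)
  · exact ⟨by rw [hk]; linarith, by rw [hk]; linarith⟩
  · rintro x ⟨hx, _⟩ h0
    have h1 : HasFDerivAt (fun x : E d => ‖L (x - zv k)‖ ^ 2 - r ^ 2)
        (2 • (innerSL ℝ (L (x - zv k))).comp (L.comp (ContinuousLinearMap.id ℝ (E d)))) x := by
      apply HasFDerivAt.sub_const
      apply HasFDerivAt.norm_sq
      exact L.hasFDerivAt.comp x ((hasFDerivAt_id x).sub_const _)
    have h2 : fderiv ℝ (fun x : E d => ‖L (x - zv k)‖ ^ 2 - r ^ 2) x (x - zv k) = 0 := by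
      rw [h0]; rfl
    rw [h1.fderiv] at h2
    simp only [_root_.smul_apply, ContinuousLinearMap.comp_apply, ContinuousLinearMap.id_apply,
      innerSL_apply_apply, real_inner_self_eq_norm_sq, hL, nsmul_eq_mul] at h2
    have h3 : 0 < ‖T d c (x - zv k)‖ := by linarith
    have h4 : 0 < ‖T d c (x - zv k)‖ ^ 2 := by positivity
    push_cast at h2
    linarith
  · ext x
    constructor
    · rintro ⟨⟨k', hk'⟩, hx⟩
      have e : k = k' := Sep.eq hm (x := x) (by linarith [hx.2])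
      subst e
      refine ⟨hx, ?_⟩
      show ‖L (x - zv k)‖ ^ 2 - r ^ 2 ≤ 0
      rw [hL]
      nlinarith [norm_nonneg (T d c (x - zv k))]
    · rintro ⟨hx, hf0⟩
      refine ⟨⟨k, ?_⟩, hx⟩
      have h1 : ‖L (x - zv k)‖ ^ 2 - r ^ 2 ≤ 0 := hf0
      rw [hL] at h1
      nlinarith [norm_nonneg (T d c (x - zv k))]

theorem vol_DD (hd : 0 < d) (hc : 0 < c) (hr : 0 < r) (hs : Sep d c r) :
    volume (DD d c r ∩ cell d) = ENNReal.ofReal (c⁻¹ * r ^ d) * volume (Metric.ball (0 : E d) 1) := by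
  obtain ⟨m, hm1, hm⟩ := hs
  have h1 : DD d c r ∩ cell d = ⋃ k : Fin d → ℤ, ({x | x - zv k ∈ KK d c r} ∩ cell d) := by
    ext x
    simp only [mem_inter_iff, mem_iUnion, exists_and_right]
    rfl
  have hKm : MeasurableSet (KK d c r) := (KK_compact hd hc).measurableSet
  rw [h1, measure_iUnion, tsum_cells volume hKm, KK_image hd hc, Measure.addHaar_image_linearMap,
    T_det hd, abs_of_pos (inv_pos.2 hc), Measure.addHaar_closedBall _ _ hr.le,
    finrank_euclideanSpace_fin, ← mul_assoc, ← ENNReal.ofReal_mul (inv_pos.2 hc).le]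
  · intro k k' hkk'
    rw [Function.onFun, Set.disjoint_left]
    rintro x ⟨h2, _⟩ ⟨h3, _⟩
    apply hkk'
    have h4 : ‖T d c (x - zv k)‖ ≤ r := h2
    have h5 : ‖T d c (x - zv k')‖ ≤ r := h3
    exact Sep.eq hm (x := x) (by linarith)
  · intro k
    refine MeasurableSet.inter ?_ (cell_meas d)
    exact (measurable_sub_const (zv k)) hKm

theorem bd_DD {n : ℕ} (hc : 0 < c) (hc1 : c ≤ 1) (hr : 0 < r) :
    (μHE[n] : Measure (E (n + 1))) (frontier (DD (n + 1) c r) ∩ cell (n + 1)) ≤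
      ENNReal.ofReal ((c⁻¹) ^ n * r ^ n * ((n : ℝ) + 1)) *
        volume (Metric.ball (0 : E (n + 1)) 1) := by
  have hd : 0 < n + 1 := Nat.succ_pos n
  have h1 : frontier (DD (n + 1) c r) ∩ cell (n + 1) ⊆
      ⋃ k : Fin (n + 1) → ℤ, ({x | x - zv k ∈ {x : E (n + 1) | ‖T (n + 1) c x‖ = r}} ∩ cell (n + 1)) := by
    rintro x ⟨hx, hxc⟩
    obtain ⟨k, hk⟩ := frontier_sub hd hc hx
    exact mem_iUnion.2 ⟨k, hk, hxc⟩
  have hSm : MeasurableSet {x : E (n + 1) | ‖T (n + 1) c x‖ = r} :=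
    measurableSet_eq_fun (T_cont _ c).norm.measurable measurable_const
  have hlip : LipschitzOnWith (Real.toNNReal c⁻¹) (T (n + 1) c⁻¹) (Metric.sphere (0 : E (n + 1)) r) := by
    apply LipschitzOnWith.of_dist_le_mul
    intro x _ y _
    rw [dist_eq_norm, dist_eq_norm, ← map_sub, Real.coe_toNNReal _ (inv_pos.2 hc).le]
    refine le_of_sq_le_sq ?_ (by positivity)
    rw [T_norm hd, mul_pow]
    have h2 : ⟪vd (n + 1), x - y⟫ ^ 2 ≤ ‖x - y‖ ^ 2 := by
      have h3 := abs_real_inner_le_norm (vd (n + 1)) (x - y)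
      rw [vd_norm hd, one_mul] at h3
      exact sq_le_sq' (by linarith [abs_le.1 h3]) (abs_le.1 h3).2
    have h4 : 1 ≤ (c⁻¹) ^ 2 := one_le_pow₀ (one_le_inv₀ hc |>.2 hc1)
    nlinarith
  have hsph : Metric.sphere (0 : E (n + 1)) r = r • Metric.sphere (0 : E (n + 1)) 1 := by
    rw [smul_sphere' hr.ne', smul_zero, Real.norm_of_nonneg hr.le, mul_one]
  calc (μHE[n] : Measure (E (n + 1))) (frontier (DD (n + 1) c r) ∩ cell (n + 1))
      ≤ (μHE[n] : Measure (E (n + 1))) (⋃ k : Fin (n + 1) → ℤ,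
          ({x | x - zv k ∈ {x : E (n + 1) | ‖T (n + 1) c x‖ = r}} ∩ cell (n + 1))) := measure_mono h1
    _ ≤ ∑' k : Fin (n + 1) → ℤ, (μHE[n] : Measure (E (n + 1)))
          ({x | x - zv k ∈ {x : E (n + 1) | ‖T (n + 1) c x‖ = r}} ∩ cell (n + 1)) := measure_iUnion_le _
    _ = (μHE[n] : Measure (E (n + 1))) {x : E (n + 1) | ‖T (n + 1) c x‖ = r} := tsum_cells _ hSm
    _ = (μHE[n] : Measure (E (n + 1))) (T (n + 1) c⁻¹ '' Metric.sphere 0 r) := by rw [SS_image hd hc]
    _ ≤ (Real.toNNReal c⁻¹ : ℝ≥0∞) ^ n * (μHE[n] : Measure (E (n + 1))) (Metric.sphere 0 r) :=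
        muHE_lip n hlip
    _ = ENNReal.ofReal ((c⁻¹) ^ n * r ^ n) * (μHE[n] : Measure (E (n + 1))) (Metric.sphere 0 1) := by
        rw [hsph, Measure.euclideanHausdorffMeasure_smul₀ n hr.ne', ENNReal.smul_def, smul_eq_mul,
          ← mul_assoc]
        congr 1
        rw [ENNReal.coe_pow, ← enorm_eq_nnnorm, ← ofReal_norm, Real.norm_of_nonneg hr.le,
          ENNReal.ofReal_mul (by positivity), ENNReal.ofReal_pow (inv_pos.2 hc).le,
          ENNReal.ofReal_pow hr.le]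
        rfl
    _ ≤ ENNReal.ofReal ((c⁻¹) ^ n * r ^ n) *
          (ENNReal.ofReal ((n : ℝ) + 1) * volume (Metric.ball (0 : E (n + 1)) 1)) :=
        mul_le_mul_right (sphere_le finrank_euclideanSpace_fin) _
    _ = _ := by rw [← mul_assoc, ← ENNReal.ofReal_mul (by positivity)]

end

end Pool.Agent.H888R2.Iso
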