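import Mathlib

set_option autoImplicit false

open MeasureTheory Set intervalIntegral

namespace Pool.Agent.H888R2.Stek

theorem cint {f : ℝ → ℝ} (hf : Continuous f) (a b : ℝ) : IntervalIntegrable f volume a b :=
  hf.intervalIntegrable a b

/-- Jensen on an interval of length at most one. -/
theorem sq_int_le {f : ℝ → ℝ} (hf : Continuous f) {s t : ℝ} (hst : s ≤ t) (h1 : t - s ≤ 1) :
    (∫ x in s..t, f x) ^ 2 ≤ ∫ x in s..t, f x ^ 2 := by
  set I := ∫ x in s..t, f x with hI
  have h0 : 0 ≤ ∫ x in s..t, (f x - I) ^ 2 :=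
    intervalIntegral.integral_nonneg hst (fun x _ => sq_nonneg _)
  have e : ∀ x, (f x - I) ^ 2 = f x ^ 2 - 2 * I * f x + I ^ 2 := fun x => by ring
  simp_rw [e] at h0
  rw [intervalIntegral.integral_add (cint (by fun_prop) _ _) (cint (by fun_prop) _ _),
    intervalIntegral.integral_sub (cint (by fun_prop) _ _) (cint (by fun_prop) _ _),
    intervalIntegral.integral_const_mul, intervalIntegral.integral_const, ← hI, smul_eq_mul] at h0
  nlinarith [sq_nonneg I]

/-- Variation of a `C¹` function on `[0,1]`. -/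
theorem path {φ φ' : ℝ → ℝ} (h : ∀ x, HasDerivAt φ (φ' x) x) (hc : Continuous φ') {s t : ℝ}
    (hs : s ∈ Icc (0:ℝ) 1) (ht : t ∈ Icc (0:ℝ) 1) : (φ t - φ s) ^ 2 ≤ ∫ x in (0:ℝ)..1, φ' x ^ 2 := by
  wlog hst : s ≤ t generalizing s t
  · have := this ht hs (le_of_not_ge hst)
    have e : (φ t - φ s) ^ 2 = (φ s - φ t) ^ 2 := by ring
    rw [e]; exact this
  have e : ∫ x in s..t, φ' x = φ t - φ s :=
    intervalIntegral.integral_eq_sub_of_hasDerivAt (fun x _ => h x) (cint hc _ _)
  rw [← e]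
  refine (sq_int_le hc hst (by linarith [hs.1, ht.2])).trans ?_
  have h1 : ∫ x in (0:ℝ)..1, φ' x ^ 2 = (∫ x in (0:ℝ)..s, φ' x ^ 2) + (∫ x in s..t, φ' x ^ 2)
      + ∫ x in t..(1:ℝ), φ' x ^ 2 := by
    have hc2 : Continuous fun x => φ' x ^ 2 := by fun_prop
    rw [intervalIntegral.integral_add_adjacent_intervals (cint hc2 _ _) (cint hc2 _ _),
      intervalIntegral.integral_add_adjacent_intervals (cint hc2 _ _) (cint hc2 _ _)]
  have h2 : 0 ≤ ∫ x in (0:ℝ)..s, φ' x ^ 2 :=
    intervalIntegral.integral_nonneg hs.1 (fun x _ => sq_nonneg _)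
  have h3 : 0 ≤ ∫ x in t..(1:ℝ), φ' x ^ 2 :=
    intervalIntegral.integral_nonneg ht.2 (fun x _ => sq_nonneg _)
  linarith

theorem swap {F : ℝ → ℝ → ℝ} (hF : Continuous (Function.uncurry F)) (a b c d : ℝ) :
    ∫ x in a..b, ∫ y in c..d, F x y = ∫ y in c..d, ∫ x in a..b, F x y := by
  apply intervalIntegral_intervalIntegral_swap
  have h1 : IntegrableOn (Function.uncurry F) (uIcc a b ×ˢ uIcc c d) (volume.prod volume) :=
    hF.continuousOn.integrableOn_compact (isCompact_uIcc.prod isCompact_uIcc)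
  exact h1.mono_set (prod_mono uIoc_subset_uIcc uIoc_subset_uIcc)

/-- parametric integrals are continuous -/
theorem pcont {X : Type} [TopologicalSpace X] {f : X → ℝ → ℝ} (hf : Continuous (Function.uncurry f))
    (a b : ℝ) : Continuous fun x => ∫ t in a..b, f x t :=
  intervalIntegral.continuous_parametric_intervalIntegral_of_continuous' hf a b

theorem imono {f g : ℝ → ℝ} (hf : Continuous f) (hg : Continuous g) {a b : ℝ} (hab : a ≤ b)
    (h : ∀ x ∈ Icc a b, f x ≤ g x) : ∫ x in a..b, f x ≤ ∫ x in a..b, g x :=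
  intervalIntegral.integral_mono_on hab (cint hf _ _) (cint hg _ _) h

theorem twoD {v vs vr : ℝ → ℝ → ℝ} (hv : Continuous (Function.uncurry v))
    (hvs : Continuous (Function.uncurry vs)) (hvr : Continuous (Function.uncurry vr))
    (h1 : ∀ s r, HasDerivAt (fun s => v s r) (vs s r) s)
    (h2 : ∀ s r, HasDerivAt (fun r => v s r) (vr s r) r)
    {α β : ℝ} (hα : 0 ≤ α) (hαβ : β - α = 1 / 3) (hβ : β ≤ 1) :
    ∫ s in (0:ℝ)..1, ∫ s' in (0:ℝ)..1, (v s 0 - v s' 0) ^ 2 ≤
      6 * (∫ s in (0:ℝ)..1, ∫ r in (0:ℝ)..1, vr s r ^ 2) +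
      9 * (∫ s in (0:ℝ)..1, ∫ r in α..β, vs s r ^ 2) := by
  have hvr2 : Continuous (Function.uncurry fun s r => vr s r ^ 2) := hvr.pow 2
  have hvs2 : Continuous (Function.uncurry fun s r => vs s r ^ 2) := hvs.pow 2
  have hvs2' : Continuous (Function.uncurry fun r s => vs s r ^ 2) := by
    have : (Function.uncurry fun r s => vs s r ^ 2) =
      (Function.uncurry fun s r => vs s r ^ 2) ∘ Prod.swap := by
      ext p; rfl
    rw [this]
    exact hvs2.comp continuous_swap
  have ha : Continuous fun s => ∫ r in (0:ℝ)..1, vr s r ^ 2 := pcont hvr2 _ _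
  have hb : Continuous fun r => ∫ s in (0:ℝ)..1, vs s r ^ 2 := pcont hvs2' _ _
  set A := ∫ s in (0:ℝ)..1, ∫ r in (0:ℝ)..1, vr s r ^ 2 with hA
  have hB : ∫ s in (0:ℝ)..1, ∫ r in α..β, vs s r ^ 2 = ∫ r in α..β, ∫ s in (0:ℝ)..1, vs s r ^ 2 :=
    swap hvs2 _ _ _ _
  rw [hB]
  set B := ∫ r in α..β, ∫ s in (0:ℝ)..1, vs s r ^ 2 with hB'
  have hαβ' : α ≤ β := by linarith
  have h01 : (0:ℝ) ∈ Icc (0:ℝ) 1 := by simp
  have key : ∀ s ∈ Icc (0:ℝ) 1, ∀ s' ∈ Icc (0:ℝ) 1, (v s 0 - v s' 0) ^ 2 ≤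
      3 * (∫ r in (0:ℝ)..1, vr s r ^ 2) + 3 * (∫ r in (0:ℝ)..1, vr s' r ^ 2) + 9 * B := by
    intro s hs s' hs'
    have k1 : ∀ r ∈ Icc α β, (v s 0 - v s' 0) ^ 2 ≤
        3 * (∫ r in (0:ℝ)..1, vr s r ^ 2) + 3 * (∫ r in (0:ℝ)..1, vr s' r ^ 2) +
        3 * (∫ s in (0:ℝ)..1, vs s r ^ 2) := by
      intro r hr
      have hr' : r ∈ Icc (0:ℝ) 1 := ⟨hα.trans hr.1, hr.2.trans hβ⟩
      have c1 : Continuous (fun r => vr s r) := hvr.comp (by fun_prop : Continuous fun r : ℝ => (s, r))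
      have c2 : Continuous (fun r => vr s' r) := hvr.comp (by fun_prop : Continuous fun r : ℝ => (s', r))
      have c3 : Continuous (fun s => vs s r) := hvs.comp (by fun_prop : Continuous fun s : ℝ => (s, r))
      have p1 := path (fun r => h2 s r) c1 hr' h01
      have p2 := path (fun r => h2 s' r) c2 hr' h01
      have p3 := path (fun s => h1 s r) c3 hs' hs
      have e : v s 0 - v s' 0 = (v s 0 - v s r) + (v s r - v s' r) - (v s' 0 - v s' r) := by ring
      have e2 : ∀ a b c : ℝ, (a + b - c) ^ 2 ≤ 3 * (a ^ 2 + b ^ 2 + c ^ 2) := fun a b c => by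
        nlinarith [sq_nonneg (a - b), sq_nonneg (b + c), sq_nonneg (a + c)]
      rw [e]
      refine (e2 _ _ _).trans ?_
      linarith
    have k2 := imono (f := fun _ => (v s 0 - v s' 0) ^ 2) (g := fun r =>
        3 * (∫ r in (0:ℝ)..1, vr s r ^ 2) + 3 * (∫ r in (0:ℝ)..1, vr s' r ^ 2) +
        3 * (∫ s in (0:ℝ)..1, vs s r ^ 2)) continuous_const
        (continuous_const.add (continuous_const.mul hb)) hαβ' k1
    have hb3 : Continuous fun r => 3 * ∫ s in (0:ℝ)..1, vs s r ^ 2 := by fun_prop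
    rw [intervalIntegral.integral_const, intervalIntegral.integral_add (cint continuous_const _ _)
      (cint hb3 _ _), intervalIntegral.integral_const,
      intervalIntegral.integral_const_mul, ← hB', hαβ, smul_eq_mul, smul_eq_mul] at k2
    linarith
  have hc0 : Continuous fun s => v s 0 := hv.comp (by fun_prop : Continuous fun s : ℝ => (s, (0:ℝ)))
  have step1 : ∀ s ∈ Icc (0:ℝ) 1, ∫ s' in (0:ℝ)..1, (v s 0 - v s' 0) ^ 2 ≤
      3 * (∫ r in (0:ℝ)..1, vr s r ^ 2) + 3 * A + 9 * B := by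
    intro s hs
    have k := imono (f := fun s' => (v s 0 - v s' 0) ^ 2) (g := fun s' =>
      3 * (∫ r in (0:ℝ)..1, vr s r ^ 2) + 3 * (∫ r in (0:ℝ)..1, vr s' r ^ 2) + 9 * B)
      ((continuous_const.sub hc0).pow 2)
      ((continuous_const.add (continuous_const.mul ha)).add continuous_const) zero_le_one (key s hs)
    refine k.trans ?_
    rw [intervalIntegral.integral_add (cint (by fun_prop) _ _) (cint (by fun_prop) _ _),
      intervalIntegral.integral_add (cint (by fun_prop) _ _) (cint (by fun_prop) _ _),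
      intervalIntegral.integral_const, intervalIntegral.integral_const_mul, intervalIntegral.integral_const,
      smul_eq_mul, smul_eq_mul, ← hA]
    linarith
  have hc1 : Continuous fun s => ∫ s' in (0:ℝ)..1, (v s 0 - v s' 0) ^ 2 := by
    refine pcont ?_ _ _
    have h1 : Continuous fun p : ℝ × ℝ => v p.1 0 := hc0.comp continuous_fst
    have h2 : Continuous fun p : ℝ × ℝ => v p.2 0 := hc0.comp continuous_snd
    exact (h1.sub h2).pow 2
  have step2 := imono (g := fun s => 3 * (∫ r in (0:ℝ)..1, vr s r ^ 2) + 3 * A + 9 * B) hc1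
    (by fun_prop) zero_le_one step1
  refine step2.trans ?_
  rw [intervalIntegral.integral_add (cint (by fun_prop) _ _) (cint (by fun_prop) _ _),
      intervalIntegral.integral_add (cint (by fun_prop) _ _) (cint (by fun_prop) _ _),
      intervalIntegral.integral_const, intervalIntegral.integral_const_mul, intervalIntegral.integral_const,
      smul_eq_mul, smul_eq_mul, ← hA]
  linarith

end Pool.Agent.H888R2.Stek
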