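import Mathlib
import Pool.Agent.H888R2.StekA

set_option autoImplicit false

open MeasureTheory Set intervalIntegral

namespace Pool.Agent.H888R2.Stek

/-- Jensen on `[0,1]` -/
theorem jen {f : ℝ → ℝ} (hf : Continuous f) :
    (∫ x in (0:ℝ)..1, f x) ^ 2 ≤ ∫ x in (0:ℝ)..1, f x ^ 2 :=
  sq_int_le hf zero_le_one (by norm_num)

/-- A continuous function on `[0,1]²` is close to its mean when its differences in the two
coordinate directions are small. -/
theorem variance {w : ℝ → ℝ → ℝ} (hw : Continuous (Function.uncurry w)) :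
    ∫ x in (0:ℝ)..1, ∫ y in (0:ℝ)..1, (w x y - ∫ x in (0:ℝ)..1, ∫ y in (0:ℝ)..1, w x y) ^ 2 ≤
      2 * (∫ y in (0:ℝ)..1, ∫ x in (0:ℝ)..1, ∫ x' in (0:ℝ)..1, (w x y - w x' y) ^ 2) +
      2 * (∫ x in (0:ℝ)..1, ∫ y in (0:ℝ)..1, ∫ y' in (0:ℝ)..1, (w x y - w x y') ^ 2) := by
  set m := ∫ x in (0:ℝ)..1, ∫ y in (0:ℝ)..1, w x y with hm
  have hw' : Continuous fun p : ℝ × ℝ => w p.1 p.2 := hw
  -- continuity facts
  have c1 : Continuous fun p : ℝ × ℝ => ∫ x' in (0:ℝ)..1, (w p.1 p.2 - w x' p.2) ^ 2 := by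
    refine pcont ?_ _ _
    have h1 : Continuous fun q : (ℝ × ℝ) × ℝ => w q.1.1 q.1.2 := hw'.comp (by fun_prop : Continuous fun q : (ℝ × ℝ) × ℝ => (q.1.1, q.1.2))
    have h2 : Continuous fun q : (ℝ × ℝ) × ℝ => w q.2 q.1.2 := hw'.comp (by fun_prop : Continuous fun q : (ℝ × ℝ) × ℝ => (q.2, q.1.2))
    exact (h1.sub h2).pow 2
  have c2 : Continuous fun p : ℝ × ℝ => ∫ y' in (0:ℝ)..1, (w p.1 p.2 - w p.1 y') ^ 2 := by
    refine pcont ?_ _ _
    have h1 : Continuous fun q : (ℝ × ℝ) × ℝ => w q.1.1 q.1.2 := hw'.comp (by fun_prop : Continuous fun q : (ℝ × ℝ) × ℝ => (q.1.1, q.1.2))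
    have h2 : Continuous fun q : (ℝ × ℝ) × ℝ => w q.1.1 q.2 := hw'.comp (by fun_prop : Continuous fun q : (ℝ × ℝ) × ℝ => (q.1.1, q.2))
    exact (h1.sub h2).pow 2
  have c3 : Continuous fun y => ∫ x in (0:ℝ)..1, ∫ y' in (0:ℝ)..1, (w x y - w x y') ^ 2 := by
    refine pcont (f := fun y x => ∫ y' in (0:ℝ)..1, (w x y - w x y') ^ 2) ?_ _ _
    exact c2.comp continuous_swap
  have c4 : Continuous fun x => ∫ y in (0:ℝ)..1, w x y := pcont hw _ _
  have key : ∀ x y, (w x y - m) ^ 2 ≤ 2 * (∫ x' in (0:ℝ)..1, (w x y - w x' y) ^ 2) +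
      2 * (∫ x' in (0:ℝ)..1, ∫ y' in (0:ℝ)..1, (w x' y - w x' y') ^ 2) := by
    intro x y
    have d1 : Continuous fun x' => w x' y := hw'.comp (by fun_prop : Continuous fun x' : ℝ => (x', y))
    have e1 : ∫ x' in (0:ℝ)..1, (w x y - w x' y) = w x y - ∫ x' in (0:ℝ)..1, w x' y := by
      rw [intervalIntegral.integral_sub (cint continuous_const _ _) (cint d1 _ _),
        intervalIntegral.integral_const]
      simp
    have e2 : ∫ x' in (0:ℝ)..1, ∫ y' in (0:ℝ)..1, (w x' y - w x' y') = (∫ x' in (0:ℝ)..1, w x' y) - m := by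
      have : ∀ x', ∫ y' in (0:ℝ)..1, (w x' y - w x' y') = w x' y - ∫ y' in (0:ℝ)..1, w x' y' := by
        intro x'
        have d2 : Continuous fun y' => w x' y' := hw'.comp (by fun_prop : Continuous fun y' : ℝ => (x', y'))
        rw [intervalIntegral.integral_sub (cint continuous_const _ _) (cint d2 _ _),
          intervalIntegral.integral_const]
        simp
      simp_rw [this]
      rw [intervalIntegral.integral_sub (cint d1 _ _) (cint c4 _ _)]
    have e3 : w x y - m = (∫ x' in (0:ℝ)..1, (w x y - w x' y)) +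
        ∫ x' in (0:ℝ)..1, ∫ y' in (0:ℝ)..1, (w x' y - w x' y') := by rw [e1, e2]; ring
    have j1 : (∫ x' in (0:ℝ)..1, (w x y - w x' y)) ^ 2 ≤ ∫ x' in (0:ℝ)..1, (w x y - w x' y) ^ 2 :=
      jen (continuous_const.sub d1)
    have d3 : Continuous fun x' => ∫ y' in (0:ℝ)..1, (w x' y - w x' y') := by
      refine pcont ?_ _ _
      have h1 : Continuous fun q : ℝ × ℝ => w q.1 y := hw'.comp (by fun_prop : Continuous fun q : ℝ × ℝ => (q.1, y))
      exact h1.sub hw'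
    have d4 : Continuous fun x' => ∫ y' in (0:ℝ)..1, (w x' y - w x' y') ^ 2 :=
      c2.comp (by fun_prop : Continuous fun x' : ℝ => (x', y))
    have j2 : (∫ x' in (0:ℝ)..1, ∫ y' in (0:ℝ)..1, (w x' y - w x' y')) ^ 2 ≤
        ∫ x' in (0:ℝ)..1, ∫ y' in (0:ℝ)..1, (w x' y - w x' y') ^ 2 := by
      refine (jen d3).trans (imono (by fun_prop) d4 zero_le_one fun x' _ => ?_)
      have d2 : Continuous fun y' => w x' y' := hw'.comp (by fun_prop : Continuous fun y' : ℝ => (x', y'))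
      exact jen (continuous_const.sub d2)
    rw [e3]
    nlinarith [sq_nonneg ((∫ x' in (0:ℝ)..1, (w x y - w x' y)) -
      ∫ x' in (0:ℝ)..1, ∫ y' in (0:ℝ)..1, (w x' y - w x' y'))]
  set D := ∫ y in (0:ℝ)..1, ∫ x in (0:ℝ)..1, ∫ y' in (0:ℝ)..1, (w x y - w x y') ^ 2 with hD
  have hD' : (∫ x in (0:ℝ)..1, ∫ y in (0:ℝ)..1, ∫ y' in (0:ℝ)..1, (w x y - w x y') ^ 2) = D :=
    swap (F := fun x y => ∫ y' in (0:ℝ)..1, (w x y - w x y') ^ 2) c2 _ _ _ _
  have hS : (∫ y in (0:ℝ)..1, ∫ x in (0:ℝ)..1, ∫ x' in (0:ℝ)..1, (w x y - w x' y) ^ 2) =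
      ∫ x in (0:ℝ)..1, ∫ y in (0:ℝ)..1, ∫ x' in (0:ℝ)..1, (w x y - w x' y) ^ 2 :=
    (swap (F := fun x y => ∫ x' in (0:ℝ)..1, (w x y - w x' y) ^ 2) c1 _ _ _ _).symm
  rw [hD', hS]
  have l1 : Continuous fun p : ℝ × ℝ => (w p.1 p.2 - m) ^ 2 := by fun_prop
  have l2 : Continuous fun x => ∫ y in (0:ℝ)..1, (w x y - m) ^ 2 := pcont l1 _ _
  have l3 : Continuous fun x => ∫ y in (0:ℝ)..1, ∫ x' in (0:ℝ)..1, (w x y - w x' y) ^ 2 := pcont c1 _ _
  have step : ∀ x ∈ Icc (0:ℝ) 1, ∫ y in (0:ℝ)..1, (w x y - m) ^ 2 ≤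
      2 * (∫ y in (0:ℝ)..1, ∫ x' in (0:ℝ)..1, (w x y - w x' y) ^ 2) + 2 * D := by
    intro x _
    have f1 : Continuous fun y => (w x y - m) ^ 2 := l1.comp (by fun_prop : Continuous fun y : ℝ => (x, y))
    have f2 : Continuous fun y => ∫ x' in (0:ℝ)..1, (w x y - w x' y) ^ 2 :=
      c1.comp (by fun_prop : Continuous fun y : ℝ => (x, y))
    refine (imono f1 (by fun_prop) zero_le_one fun y _ => key x y).trans ?_
    rw [intervalIntegral.integral_add (cint (by fun_prop) _ _) (cint (by fun_prop) _ _),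
      intervalIntegral.integral_const_mul, intervalIntegral.integral_const_mul]
  refine (imono l2 (by fun_prop) zero_le_one step).trans ?_
  rw [intervalIntegral.integral_add (cint (by fun_prop) _ _) (cint (by fun_prop) _ _),
      intervalIntegral.integral_const_mul, intervalIntegral.integral_const]
  simp

end Pool.Agent.H888R2.Stek
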