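import Mathlib
import Pool.Agent.H888R2.StekB

set_option autoImplicit false

open MeasureTheory Set intervalIntegral

namespace Pool.Agent.H888R2.Stek

section
variable {u : ℝ × ℝ × ℝ → ℝ}

/-- partial derivatives -/
noncomputable def px (u : ℝ × ℝ × ℝ → ℝ) (p : ℝ × ℝ × ℝ) : ℝ := fderiv ℝ u p (1, 0, 0)
noncomputable def py (u : ℝ × ℝ × ℝ → ℝ) (p : ℝ × ℝ × ℝ) : ℝ := fderiv ℝ u p (0, 1, 0)
noncomputable def pr (u : ℝ × ℝ × ℝ → ℝ) (p : ℝ × ℝ × ℝ) : ℝ := fderiv ℝ u p (0, 0, 1)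

theorem px_cont (hu : ContDiff ℝ 1 u) : Continuous (px u) :=
  (hu.continuous_fderiv one_ne_zero).clm_apply continuous_const
theorem py_cont (hu : ContDiff ℝ 1 u) : Continuous (py u) :=
  (hu.continuous_fderiv one_ne_zero).clm_apply continuous_const
theorem pr_cont (hu : ContDiff ℝ 1 u) : Continuous (pr u) :=
  (hu.continuous_fderiv one_ne_zero).clm_apply continuous_const

theorem hasx (hu : ContDiff ℝ 1 u) (x y r : ℝ) :
    HasDerivAt (fun x => u (x, y, r)) (px u (x, y, r)) x := by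
  have h1 := (hu.differentiable one_ne_zero (x, y, r)).hasFDerivAt
  have h2 : HasDerivAt (fun x : ℝ => (x, y, r)) ((1:ℝ), (0:ℝ), (0:ℝ)) x :=
    (hasDerivAt_id x).prodMk ((hasDerivAt_const x y).prodMk (hasDerivAt_const x r))
  exact h1.comp_hasDerivAt x h2
theorem hasy (hu : ContDiff ℝ 1 u) (x y r : ℝ) :
    HasDerivAt (fun y => u (x, y, r)) (py u (x, y, r)) y := by
  have h1 := (hu.differentiable one_ne_zero (x, y, r)).hasFDerivAt
  have h2 : HasDerivAt (fun y : ℝ => (x, y, r)) ((0:ℝ), (1:ℝ), (0:ℝ)) y :=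
    (hasDerivAt_const y x).prodMk ((hasDerivAt_id y).prodMk (hasDerivAt_const y r))
  exact h1.comp_hasDerivAt y h2
theorem hasr (hu : ContDiff ℝ 1 u) (x y r : ℝ) :
    HasDerivAt (fun r => u (x, y, r)) (pr u (x, y, r)) r := by
  have h1 := (hu.differentiable one_ne_zero (x, y, r)).hasFDerivAt
  have h2 : HasDerivAt (fun r : ℝ => (x, y, r)) ((0:ℝ), (0:ℝ), (1:ℝ)) r :=
    (hasDerivAt_const r x).prodMk ((hasDerivAt_const r y).prodMk (hasDerivAt_id r))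
  exact h1.comp_hasDerivAt r h2

/-- integrals over the unit square -/
theorem sqint_cont {f : ℝ × ℝ × ℝ → ℝ} (hf : Continuous f) (a b : ℝ) :
    Continuous fun p : ℝ × ℝ => ∫ r in a..b, f (p.1, p.2, r) := by
  refine pcont ?_ _ _
  exact hf.comp (by fun_prop : Continuous fun q : (ℝ × ℝ) × ℝ => (q.1.1, q.1.2, q.2))

theorem dx_le (hu : ContDiff ℝ 1 u) :
    ∫ y in (0:ℝ)..1, ∫ x in (0:ℝ)..1, ∫ x' in (0:ℝ)..1, (u (x, y, 0) - u (x', y, 0)) ^ 2 ≤
      6 * (∫ x in (0:ℝ)..1, ∫ y in (0:ℝ)..1, ∫ r in (0:ℝ)..1, pr u (x, y, r) ^ 2) +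
      9 * (∫ x in (0:ℝ)..1, ∫ y in (0:ℝ)..1, ∫ r in (0:ℝ)..(1/3), px u (x, y, r) ^ 2) := by
  have cu := hu.continuous
  have cx := px_cont hu
  have cr := pr_cont hu
  have k1 : ∀ y ∈ Icc (0:ℝ) 1, ∫ x in (0:ℝ)..1, ∫ x' in (0:ℝ)..1, (u (x, y, 0) - u (x', y, 0)) ^ 2 ≤
      6 * (∫ x in (0:ℝ)..1, ∫ r in (0:ℝ)..1, pr u (x, y, r) ^ 2) +
      9 * (∫ x in (0:ℝ)..1, ∫ r in (0:ℝ)..(1/3), px u (x, y, r) ^ 2) := by
    intro y _
    exact twoD (v := fun s r => u (s, y, r)) (vs := fun s r => px u (s, y, r))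
      (vr := fun s r => pr u (s, y, r))
      (cu.comp (by fun_prop : Continuous fun q : ℝ × ℝ => (q.1, y, q.2)))
      (cx.comp (by fun_prop : Continuous fun q : ℝ × ℝ => (q.1, y, q.2)))
      (cr.comp (by fun_prop : Continuous fun q : ℝ × ℝ => (q.1, y, q.2)))
      (fun s r => hasx hu s y r) (fun s r => hasr hu s y r) le_rfl (by norm_num) (by norm_num)
  have c1 : Continuous fun p : ℝ × ℝ => ∫ r in (0:ℝ)..1, pr u (p.1, p.2, r) ^ 2 :=
    sqint_cont (cr.pow 2) 0 1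
  have c2 : Continuous fun p : ℝ × ℝ => ∫ r in (0:ℝ)..(1/3), px u (p.1, p.2, r) ^ 2 :=
    sqint_cont (cx.pow 2) 0 (1/3)
  have c3 : Continuous fun p : ℝ × ℝ => ∫ x' in (0:ℝ)..1, (u (p.1, p.2, 0) - u (x', p.2, 0)) ^ 2 := by
    refine pcont ?_ _ _
    have h1 : Continuous fun q : (ℝ × ℝ) × ℝ => u (q.1.1, q.1.2, 0) := cu.comp (by fun_prop)
    have h2 : Continuous fun q : (ℝ × ℝ) × ℝ => u (q.2, q.1.2, 0) := cu.comp (by fun_prop)
    exact (h1.sub h2).pow 2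
  have d1 : Continuous fun y => ∫ x in (0:ℝ)..1, ∫ r in (0:ℝ)..1, pr u (x, y, r) ^ 2 :=
    pcont (f := fun y x => ∫ r in (0:ℝ)..1, pr u (x, y, r) ^ 2) (c1.comp continuous_swap) _ _
  have d2 : Continuous fun y => ∫ x in (0:ℝ)..1, ∫ r in (0:ℝ)..(1/3), px u (x, y, r) ^ 2 :=
    pcont (f := fun y x => ∫ r in (0:ℝ)..(1/3), px u (x, y, r) ^ 2) (c2.comp continuous_swap) _ _
  have d3 : Continuous fun y => ∫ x in (0:ℝ)..1, ∫ x' in (0:ℝ)..1, (u (x, y, 0) - u (x', y, 0)) ^ 2 :=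
    pcont (f := fun y x => ∫ x' in (0:ℝ)..1, (u (x, y, 0) - u (x', y, 0)) ^ 2)
      (c3.comp continuous_swap) _ _
  refine (imono d3 (by fun_prop) zero_le_one k1).trans ?_
  rw [intervalIntegral.integral_add (cint (by fun_prop) _ _) (cint (by fun_prop) _ _),
      intervalIntegral.integral_const_mul, intervalIntegral.integral_const_mul]
  rw [swap (F := fun x y => ∫ r in (0:ℝ)..1, pr u (x, y, r) ^ 2) c1,
    swap (F := fun x y => ∫ r in (0:ℝ)..(1/3), px u (x, y, r) ^ 2) c2]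

theorem dy_le (hu : ContDiff ℝ 1 u) :
    ∫ x in (0:ℝ)..1, ∫ y in (0:ℝ)..1, ∫ y' in (0:ℝ)..1, (u (x, y, 0) - u (x, y', 0)) ^ 2 ≤
      6 * (∫ x in (0:ℝ)..1, ∫ y in (0:ℝ)..1, ∫ r in (0:ℝ)..1, pr u (x, y, r) ^ 2) +
      9 * (∫ x in (0:ℝ)..1, ∫ y in (0:ℝ)..1, ∫ r in (2/3:ℝ)..1, py u (x, y, r) ^ 2) := by
  have cu := hu.continuous
  have cy := py_cont hu
  have cr := pr_cont hu
  have k1 : ∀ x ∈ Icc (0:ℝ) 1, ∫ y in (0:ℝ)..1, ∫ y' in (0:ℝ)..1, (u (x, y, 0) - u (x, y', 0)) ^ 2 ≤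
      6 * (∫ y in (0:ℝ)..1, ∫ r in (0:ℝ)..1, pr u (x, y, r) ^ 2) +
      9 * (∫ y in (0:ℝ)..1, ∫ r in (2/3:ℝ)..1, py u (x, y, r) ^ 2) := by
    intro x _
    exact twoD (v := fun s r => u (x, s, r)) (vs := fun s r => py u (x, s, r))
      (vr := fun s r => pr u (x, s, r))
      (cu.comp (by fun_prop : Continuous fun q : ℝ × ℝ => (x, q.1, q.2)))
      (cy.comp (by fun_prop : Continuous fun q : ℝ × ℝ => (x, q.1, q.2)))
      (cr.comp (by fun_prop : Continuous fun q : ℝ × ℝ => (x, q.1, q.2)))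
      (fun s r => hasy hu x s r) (fun s r => hasr hu x s r) (by norm_num) (by norm_num) le_rfl
  have c1 : Continuous fun p : ℝ × ℝ => ∫ r in (0:ℝ)..1, pr u (p.1, p.2, r) ^ 2 :=
    sqint_cont (cr.pow 2) 0 1
  have c2 : Continuous fun p : ℝ × ℝ => ∫ r in (2/3:ℝ)..1, py u (p.1, p.2, r) ^ 2 :=
    sqint_cont (cy.pow 2) (2/3) 1
  have c3 : Continuous fun p : ℝ × ℝ => ∫ y' in (0:ℝ)..1, (u (p.1, p.2, 0) - u (p.1, y', 0)) ^ 2 := by
    refine pcont ?_ _ _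
    have h1 : Continuous fun q : (ℝ × ℝ) × ℝ => u (q.1.1, q.1.2, 0) := cu.comp (by fun_prop)
    have h2 : Continuous fun q : (ℝ × ℝ) × ℝ => u (q.1.1, q.2, 0) := cu.comp (by fun_prop)
    exact (h1.sub h2).pow 2
  have d1 : Continuous fun x => ∫ y in (0:ℝ)..1, ∫ r in (0:ℝ)..1, pr u (x, y, r) ^ 2 :=
    pcont c1 _ _
  have d2 : Continuous fun x => ∫ y in (0:ℝ)..1, ∫ r in (2/3:ℝ)..1, py u (x, y, r) ^ 2 :=
    pcont c2 _ _
  have d3 : Continuous fun x => ∫ y in (0:ℝ)..1, ∫ y' in (0:ℝ)..1, (u (x, y, 0) - u (x, y', 0)) ^ 2 :=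
    pcont c3 _ _
  refine (imono d3 (by fun_prop) zero_le_one k1).trans ?_
  rw [intervalIntegral.integral_add (cint (by fun_prop) _ _) (cint (by fun_prop) _ _),
      intervalIntegral.integral_const_mul, intervalIntegral.integral_const_mul]

/-- monotonicity of integrals over the unit square -/
theorem mono2 {F G : ℝ → ℝ → ℝ} (hF : Continuous (Function.uncurry F))
    (hG : Continuous (Function.uncurry G))
    (h : ∀ x ∈ Icc (0:ℝ) 1, ∀ y ∈ Icc (0:ℝ) 1, F x y ≤ G x y) :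
    ∫ x in (0:ℝ)..1, ∫ y in (0:ℝ)..1, F x y ≤ ∫ x in (0:ℝ)..1, ∫ y in (0:ℝ)..1, G x y := by
  refine imono (pcont hF _ _) (pcont hG _ _) zero_le_one fun x hx => ?_
  exact imono (hF.comp (by fun_prop : Continuous fun y : ℝ => (x, y)))
    (hG.comp (by fun_prop : Continuous fun y : ℝ => (x, y))) zero_le_one (h x hx)

theorem add2 {F G : ℝ → ℝ → ℝ} (hF : Continuous (Function.uncurry F))
    (hG : Continuous (Function.uncurry G)) :
    ∫ x in (0:ℝ)..1, ∫ y in (0:ℝ)..1, (F x y + G x y) =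
      (∫ x in (0:ℝ)..1, ∫ y in (0:ℝ)..1, F x y) + ∫ x in (0:ℝ)..1, ∫ y in (0:ℝ)..1, G x y := by
  rw [← intervalIntegral.integral_add (cint (pcont hF _ _) _ _) (cint (pcont hG _ _) _ _)]
  apply intervalIntegral.integral_congr
  intro x _
  exact intervalIntegral.integral_add
    (cint (hF.comp (by fun_prop : Continuous fun y : ℝ => (x, y))) _ _)
    (cint (hG.comp (by fun_prop : Continuous fun y : ℝ => (x, y))) _ _)

theorem mul2 {F : ℝ → ℝ → ℝ} (c : ℝ) :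
    ∫ x in (0:ℝ)..1, ∫ y in (0:ℝ)..1, c * F x y = c * ∫ x in (0:ℝ)..1, ∫ y in (0:ℝ)..1, F x y := by
  simp_rw [intervalIntegral.integral_const_mul]

theorem const2 (c : ℝ) : ∫ _x in (0:ℝ)..1, ∫ _y in (0:ℝ)..1, c = c := by simp

/-- The functional inequality behind the lower bound for the first Steklov eigenvalue. -/
theorem main (hu : ContDiff ℝ 1 u)
    (hmean : ∫ x in (0:ℝ)..1, ∫ y in (0:ℝ)..1, (u (x, y, 0) + u (x, y, 1)) = 0) :
    ∫ x in (0:ℝ)..1, ∫ y in (0:ℝ)..1, (u (x, y, 0) ^ 2 + u (x, y, 1) ^ 2) ≤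
      74 * ((∫ x in (0:ℝ)..1, ∫ y in (0:ℝ)..1, ∫ r in (0:ℝ)..1, pr u (x, y, r) ^ 2) +
        (∫ x in (0:ℝ)..1, ∫ y in (0:ℝ)..1, ∫ r in (0:ℝ)..(1/3), px u (x, y, r) ^ 2) +
        (∫ x in (0:ℝ)..1, ∫ y in (0:ℝ)..1, ∫ r in (2/3:ℝ)..1, py u (x, y, r) ^ 2)) := by
  have cu := hu.continuous
  have cx := px_cont hu
  have cy := py_cont hu
  have cr := pr_cont hu
  have hdx := dx_le hu
  have hdy := dy_le hu
  have c0 : Continuous (Function.uncurry fun x y => u (x, y, 0)) :=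
    cu.comp (by fun_prop : Continuous fun q : ℝ × ℝ => (q.1, q.2, (0:ℝ)))
  have c1 : Continuous (Function.uncurry fun x y => u (x, y, 1)) :=
    cu.comp (by fun_prop : Continuous fun q : ℝ × ℝ => (q.1, q.2, (1:ℝ)))
  have hvar := variance (w := fun x y => u (x, y, 0)) c0
  set E1 := ∫ x in (0:ℝ)..1, ∫ y in (0:ℝ)..1, ∫ r in (0:ℝ)..1, pr u (x, y, r) ^ 2 with hE1
  set E2 := ∫ x in (0:ℝ)..1, ∫ y in (0:ℝ)..1, ∫ r in (0:ℝ)..(1/3), px u (x, y, r) ^ 2 with hE2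
  set E3 := ∫ x in (0:ℝ)..1, ∫ y in (0:ℝ)..1, ∫ r in (2/3:ℝ)..1, py u (x, y, r) ^ 2 with hE3
  have E1nn : 0 ≤ E1 := intervalIntegral.integral_nonneg zero_le_one fun x _ =>
    intervalIntegral.integral_nonneg zero_le_one fun y _ =>
    intervalIntegral.integral_nonneg zero_le_one fun r _ => sq_nonneg _
  have E2nn : 0 ≤ E2 := intervalIntegral.integral_nonneg zero_le_one fun x _ =>
    intervalIntegral.integral_nonneg zero_le_one fun y _ =>
    intervalIntegral.integral_nonneg (by norm_num) fun r _ => sq_nonneg _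
  have E3nn : 0 ≤ E3 := intervalIntegral.integral_nonneg zero_le_one fun x _ =>
    intervalIntegral.integral_nonneg zero_le_one fun y _ =>
    intervalIntegral.integral_nonneg (by norm_num) fun r _ => sq_nonneg _
  set m := ∫ x in (0:ℝ)..1, ∫ y in (0:ℝ)..1, u (x, y, 0) with hm
  set V0 := ∫ x in (0:ℝ)..1, ∫ y in (0:ℝ)..1, (u (x, y, 0) - m) ^ 2 with hV0
  have hV0' : V0 ≤ 24 * E1 + 18 * E2 + 18 * E3 := by
    refine hvar.trans ?_
    linarith
  have cE : Continuous (Function.uncurry fun x y => ∫ r in (0:ℝ)..1, pr u (x, y, r) ^ 2) :=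
    sqint_cont (cr.pow 2) 0 1
  have c0m : Continuous (Function.uncurry fun x y => (u (x, y, 0) - m) ^ 2) := (c0.sub continuous_const).pow 2
  have c1m : Continuous (Function.uncurry fun x y => (u (x, y, 1) - m) ^ 2) := (c1.sub continuous_const).pow 2
  have c2E : Continuous (Function.uncurry fun x y => 2 * ∫ r in (0:ℝ)..1, pr u (x, y, r) ^ 2) :=
    continuous_const.mul cE
  have c20 : Continuous (Function.uncurry fun x y => 2 * (u (x, y, 0) - m) ^ 2) :=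
    continuous_const.mul c0m
  have cA : Continuous (Function.uncurry fun x y =>
      2 * (∫ r in (0:ℝ)..1, pr u (x, y, r) ^ 2) + 2 * (u (x, y, 0) - m) ^ 2) := by
    have k1 : Continuous fun p : ℝ × ℝ => 2 * ∫ r in (0:ℝ)..1, pr u (p.1, p.2, r) ^ 2 := c2E
    have k2 : Continuous fun p : ℝ × ℝ => 2 * (u (p.1, p.2, 0) - m) ^ 2 := c20
    show Continuous fun p : ℝ × ℝ => 2 * (∫ r in (0:ℝ)..1, pr u (p.1, p.2, r) ^ 2) +
      2 * (u (p.1, p.2, 0) - m) ^ 2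
    exact k1.add k2
  have cB : Continuous (Function.uncurry fun x y => (u (x, y, 0) - m) ^ 2 + (u (x, y, 1) - m) ^ 2) := by
    have k1 : Continuous fun p : ℝ × ℝ => (u (p.1, p.2, 0) - m) ^ 2 := c0m
    have k2 : Continuous fun p : ℝ × ℝ => (u (p.1, p.2, 1) - m) ^ 2 := c1m
    show Continuous fun p : ℝ × ℝ => (u (p.1, p.2, 0) - m) ^ 2 + (u (p.1, p.2, 1) - m) ^ 2
    exact k1.add k2
  have h1 : ∫ x in (0:ℝ)..1, ∫ y in (0:ℝ)..1, (u (x, y, 1) - m) ^ 2 ≤ 2 * E1 + 2 * V0 := by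
    have k := mono2 (F := fun x y => (u (x, y, 1) - m) ^ 2)
      (G := fun x y => 2 * (∫ r in (0:ℝ)..1, pr u (x, y, r) ^ 2) + 2 * (u (x, y, 0) - m) ^ 2)
      c1m cA (fun x _ y _ => by
        have p := path (φ := fun r => u (x, y, r)) (φ' := fun r => pr u (x, y, r))
          (fun r => hasr hu x y r) (cr.comp (by fun_prop)) (s := 0) (t := 1) (by simp) (by simp)
        have e : (u (x, y, 1) - m) ^ 2 ≤ 2 * (u (x, y, 1) - u (x, y, 0)) ^ 2 +
            2 * (u (x, y, 0) - m) ^ 2 := by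
          nlinarith [sq_nonneg ((u (x, y, 1) - u (x, y, 0)) - (u (x, y, 0) - m))]
        linarith)
    rw [add2 c2E c20, mul2, mul2] at k
    exact k
  have h2 : ∫ x in (0:ℝ)..1, ∫ y in (0:ℝ)..1, (u (x, y, 0) ^ 2 + u (x, y, 1) ^ 2) ≤
      V0 + ∫ x in (0:ℝ)..1, ∫ y in (0:ℝ)..1, (u (x, y, 1) - m) ^ 2 := by
    have e : ∀ x y, u (x, y, 0) ^ 2 + u (x, y, 1) ^ 2 =
        ((u (x, y, 0) - m) ^ 2 + (u (x, y, 1) - m) ^ 2) +
        (2 * m * (u (x, y, 0) + u (x, y, 1)) + (-2 * m ^ 2)) := fun x y => by ring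
    simp_rw [e]
    have cs : Continuous (Function.uncurry fun x y => 2 * m * (u (x, y, 0) + u (x, y, 1))) := by
      have k1 : Continuous fun p : ℝ × ℝ => u (p.1, p.2, 0) := c0
      have k2 : Continuous fun p : ℝ × ℝ => u (p.1, p.2, 1) := c1
      show Continuous fun p : ℝ × ℝ => 2 * m * (u (p.1, p.2, 0) + u (p.1, p.2, 1))
      exact continuous_const.mul (k1.add k2)
    rw [add2 (F := fun x y => (u (x, y, 0) - m) ^ 2 + (u (x, y, 1) - m) ^ 2)
      (G := fun x y => 2 * m * (u (x, y, 0) + u (x, y, 1)) + (-2 * m ^ 2)) cB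
      (by
        show Continuous fun p : ℝ × ℝ => 2 * m * (u (p.1, p.2, 0) + u (p.1, p.2, 1)) + (-2 * m ^ 2)
        have k1 : Continuous fun p : ℝ × ℝ => 2 * m * (u (p.1, p.2, 0) + u (p.1, p.2, 1)) := cs
        exact k1.add continuous_const), add2 c0m c1m,
      add2 (F := fun x y => 2 * m * (u (x, y, 0) + u (x, y, 1))) (G := fun _ _ => -2 * m ^ 2) cs
      continuous_const, mul2, hmean, const2]
    nlinarith [sq_nonneg m]
  linarith

end

end Pool.Agent.H888R2.Stek
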